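import Pool.Agent.Mg.Fcab9bb.G4f92da

set_option autoImplicit false

open MeasureTheory Set

namespace Pool.Agent.MP_cab9bb_co

theorem int_le_quad {f : ℝ → ℝ} (hf : Continuous f) {p q c0 c1 c2 : ℝ} (hpq : p ≤ q)
    (h : ∀ x, p ≤ x → x ≤ q → f x ≤ c0 + c1 * x + c2 * x ^ 2) :
    ∫ x in p..q, f x ≤ c0 * (q - p) + c1 * (q ^ 2 - p ^ 2) / 2 + c2 * (q ^ 3 - p ^ 3) / 3 := by
  have c : Continuous fun x : ℝ => c0 + c1 * x + c2 * x ^ 2 := by fun_prop
  refine (intervalIntegral.integral_mono_on hpq (hf.intervalIntegrable (μ := volume) _ _)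
    (c.intervalIntegrable _ _) fun x hx => h x hx.1 hx.2).trans (le_of_eq ?_)
  rw [intervalIntegral.integral_add (Continuous.intervalIntegrable (by fun_prop) _ _)
      (Continuous.intervalIntegrable (by fun_prop) _ _),
    intervalIntegral.integral_add (Continuous.intervalIntegrable (by fun_prop) _ _)
      (Continuous.intervalIntegrable (by fun_prop) _ _),
    intervalIntegral.integral_const_mul, intervalIntegral.integral_const_mul, integral_id,
    integral_pow, intervalIntegral.integral_const, smul_eq_mul]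
  ring

theorem areaB : AreaB := by
  intro K hc hv hs k1 k2 hq V t hV ht w w0 w1
  obtain ⟨a, b, l, u, P⟩ := exists_prof hc hv ⟨_, k1⟩
  obtain ⟨c, d, L, R, Q⟩ := exists_prof (S := Prod.swap ⁻¹' K)
    ((Homeomorph.prodComm ℝ ℝ).isCompact_preimage.2 hc)
    (fun a ha b hb s t hs ht hst => hv ha hb hs ht hst) ⟨(1, 1), k1⟩
  have k3 : ((-1, -1) : ℝ × ℝ) ∈ K := hs _ k1
  have k4 : ((1, -1) : ℝ × ℝ) ∈ K := by simpa using hs _ k2
  have sq : ∀ x, -1 ≤ x → x ≤ 1 → (x, (1 : ℝ)) ∈ K ∧ (x, (-1 : ℝ)) ∈ K ∧ ((1 : ℝ), x) ∈ K ∧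
      ((-1 : ℝ), x) ∈ K := by
    intro x p q
    have t0 : 0 ≤ (x + 1) / 2 := by linarith
    have t1 : (x + 1) / 2 ≤ 1 := by linarith
    refine ⟨?_, ?_, vert_mem hv k4 k1 p q, vert_mem hv k3 k2 p q⟩
    · convert seg_mem hv k2 k1 t0 t1 using 2 <;> simp only <;> ring
    · convert seg_mem hv k3 k4 t0 t1 using 2 <;> simp only <;> ring
  have pr : ∀ x, -1 ≤ x → x ≤ 1 → (x, u x) ∈ K ∧ (x, l x) ∈ K ∧ (R x, x) ∈ K ∧ (L x, x) ∈ K ∧
      1 ≤ u x ∧ l x ≤ -1 ∧ 1 ≤ R x ∧ L x ≤ -1 := by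
    intro x p q
    obtain ⟨s1, s2, s3, s4⟩ := sq x p q
    have s1 := (P.mem _).1 s1
    have s2 := (P.mem _).1 s2
    have s3 := (Q.mem (x, 1)).1 s3
    have s4 := (Q.mem (x, -1)).1 s4
    exact ⟨P.hi_mem s1.1.1 s1.1.2, P.lo_mem s1.1.1 s1.1.2, Q.hi_mem s3.1.1 s3.1.2,
      Q.lo_mem s3.1.1 s3.1.2, s1.2.2, s2.2.1, s3.2.2, s4.2.1⟩
  have dia : ∀ p ∈ K, (1 ≤ p.1 ∨ p.1 ≤ -1) → -1 ≤ p.2 ∧ p.2 ≤ 1 := by
    intro p hp h
    have b1 := hq _ k1 _ hp
    have b2 := hq _ hp _ k1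
    have b3 := hq _ k2 _ hp
    have b4 := hq _ hp _ k2
    simp only [cr] at b1 b2 b3 b4
    rcases h with h | h <;> constructor <;> linarith
  have v1 := vol_le (T := K ∩ {p | -1 ≤ p.1 ∧ p.1 ≤ 1}) (show (-1 : ℝ) ≤ 1 by norm_num) P.clo P.chi
    (fun x p q => by linarith [(pr x p q).2.2.2.2.1, (pr x p q).2.2.2.2.2.1])
    (fun p hp => ⟨hp.2, ((P.mem p).1 hp.1).2⟩)
  have v2 := vol_le (T := Prod.swap ⁻¹' (K ∩ {p | 1 ≤ p.1})) (show (-1 : ℝ) ≤ 1 by norm_num)
    (f := fun _ => 1) continuous_const Q.chi (fun x p q => (pr x p q).2.2.2.2.2.2.1)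
    (fun p hp => ⟨dia _ hp.1 (Or.inl hp.2), hp.2, ((Q.mem p).1 hp.1).2.2⟩)
  have v3 := vol_le (T := Prod.swap ⁻¹' (K ∩ {p | p.1 ≤ -1})) (show (-1 : ℝ) ≤ 1 by norm_num)
    (g := fun _ => -1) Q.clo continuous_const (fun x p q => (pr x p q).2.2.2.2.2.2.2)
    (fun p hp => ⟨dia _ hp.1 (Or.inr hp.2), ((Q.mem p).1 hp.1).2.1, hp.2⟩)
  rw [vol_swap] at v2 v3
  have hsub : K ⊆ K ∩ {p | -1 ≤ p.1 ∧ p.1 ≤ 1} ∪ (K ∩ {p | 1 ≤ p.1} ∪ K ∩ {p | p.1 ≤ -1}) := by
    intro p hp
    rcases le_total p.1 (-1) with h | h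
    · exact Or.inr (Or.inr ⟨hp, h⟩)
    rcases le_total p.1 1 with h' | h'
    · exact Or.inl ⟨hp, h, h'⟩
    · exact Or.inr (Or.inl ⟨hp, h'⟩)
  have n1 : 0 ≤ ∫ x in (-1 : ℝ)..1, (u x - l x) := intervalIntegral.integral_nonneg (by norm_num)
    fun x hx => by linarith [(pr x hx.1 hx.2).2.2.2.2.1, (pr x hx.1 hx.2).2.2.2.2.2.1]
  have n2 : 0 ≤ ∫ x in (-1 : ℝ)..1, (R x - 1) := intervalIntegral.integral_nonneg (by norm_num)
    fun x hx => by linarith [(pr x hx.1 hx.2).2.2.2.2.2.2.1]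
  have n3 : 0 ≤ ∫ x in (-1 : ℝ)..1, (-1 - L x) := intervalIntegral.integral_nonneg (by norm_num)
    fun x hx => by linarith [(pr x hx.1 hx.2).2.2.2.2.2.2.2]
  have tot := (measure_mono hsub).trans ((measure_union_le _ _).trans
    (add_le_add v1 ((measure_union_le _ _).trans (add_le_add v2 v3))))
  rw [hV, ← ENNReal.ofReal_add n2 n3, ← ENNReal.ofReal_add n1 (add_nonneg n2 n3),
    ENNReal.ofReal_le_ofReal_iff (by linarith)] at tot
  have cR := Q.chi
  have cL := Q.clo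
  have ca : Continuous fun x => u x - l x := P.chi.sub P.clo
  have cc : Continuous fun x => R x - L x := Q.chi.sub Q.clo
  have e1 : (∫ x in (-1 : ℝ)..1, (R x - 1)) + ∫ x in (-1 : ℝ)..1, (-1 - L x) =
      (∫ x in (-1 : ℝ)..1, (R x - L x)) - 4 := by
    rw [intervalIntegral.integral_sub (Q.chi.intervalIntegrable _ _) (by simp),
      intervalIntegral.integral_sub (by simp) (Q.clo.intervalIntegrable _ _),
      intervalIntegral.integral_sub (Q.chi.intervalIntegrable _ _) (Q.clo.intervalIntegrable _ _)]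
    simp only [intervalIntegral.integral_const, smul_eq_mul]
    ring
  have split : ∀ f : ℝ → ℝ, Continuous f → ∫ x in (-1 : ℝ)..1, f x =
      (∫ x in (-1 : ℝ)..(-1 + w), f x) + (∫ x in (-1 + w)..(1 - w), f x) +
        ∫ x in (1 - w)..1, f x := fun f hf => by
    rw [intervalIntegral.integral_add_adjacent_intervals (hf.intervalIntegrable _ _)
      (hf.intervalIntegrable _ _), intervalIntegral.integral_add_adjacent_intervals
      (hf.intervalIntegrable _ _) (hf.intervalIntegrable _ _)]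
  have pw : ∀ x y, -1 ≤ x → x ≤ 1 → -1 ≤ y → y ≤ 1 →
      u x - l x + (R y - L y) ≤ 2 * t + (1 - x) * (1 - y) ∧
      u x - l x + (R y - L y) ≤ 2 * t + (1 + x) * (1 + y) ∧
      u x - l x + (R y - L y) ≤ 4 * t - 4 := by
    intro x y x0 x1 y0 y1
    obtain ⟨m1, m2, -, -, g1, g2, -, -⟩ := pr x x0 x1
    obtain ⟨-, -, m3, m4, -, -, g3, g4⟩ := pr y y0 y1
    have t1 := ht _ (hs _ m3) _ k4 _ m1
    have t2 := ht _ m2 _ k1 _ m4
    have t3 := ht _ k3 _ m3 _ m1
    have t4 := ht _ m2 _ (hs _ m4) _ k2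
    have t5 := ht _ k3 _ k4 _ m1
    have t6 := ht _ k1 _ k2 _ m2
    have t7 := ht _ k2 _ k3 _ m3
    have t8 := ht _ k4 _ k1 _ m4
    have p1 := mul_nonneg (sub_nonneg.2 g1) (sub_nonneg.2 g3)
    have p2 := mul_nonneg (sub_nonneg.2 g2) (sub_nonneg.2 g4)
    simp only [cr, Prod.fst_sub, Prod.snd_sub, Prod.fst_neg, Prod.snd_neg] at t1 t2 t3 t4 t5 t6 t7 t8
    refine ⟨by linarith, by linarith, by linarith⟩
  have i1 := int_le_quad (f := fun x => u x - l x + (R (-2 + w - x) - L (-2 + w - x)))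
    (ca.add (cc.comp (by fun_prop))) (p := -1) (q := -1 + w) (c0 := 2 * t + (w - 1))
    (c1 := w - 2) (c2 := -1) (by linarith) (fun x p q => by
      have := (pw x (-2 + w - x) p (by linarith) (by linarith) (by linarith)).2.1
      linarith)
  have i2 := int_le_quad (f := fun x => u x - l x + (R x - L x)) (ca.add cc) (p := -1 + w)
    (q := 1 - w) (c0 := 4 * t - 4) (c1 := 0) (c2 := 0) (by linarith) (fun x p q => by
      have := (pw x x (by linarith) (by linarith) (by linarith) (by linarith)).2.2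
      linarith)
  have i3 := int_le_quad (f := fun x => u x - l x + (R (2 - w - x) - L (2 - w - x)))
    (ca.add (cc.comp (by fun_prop))) (p := 1 - w) (q := 1) (c0 := 2 * t + (w - 1))
    (c1 := 2 - w) (c2 := -1) (by linarith) (fun x p q => by
      have := (pw x (2 - w - x) (by linarith) q (by linarith) (by linarith)).1
      linarith)
  rw [intervalIntegral.integral_add (ca.intervalIntegrable _ _)
    (Continuous.intervalIntegrable (by fun_prop) _ _)] at i1
  rw [intervalIntegral.integral_add (ca.intervalIntegrable _ _)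
    (Continuous.intervalIntegrable (by fun_prop) _ _)] at i2
  rw [intervalIntegral.integral_add (ca.intervalIntegrable _ _)
    (Continuous.intervalIntegrable (by fun_prop) _ _)] at i3
  rw [intervalIntegral.integral_comp_sub_left (fun x => R x - L x),
    show -2 + w - (-1 + w) = -1 by ring, show -2 + w - -1 = -1 + w by ring] at i1
  rw [intervalIntegral.integral_comp_sub_left (fun x => R x - L x),
    show 2 - w - 1 = 1 - w by ring, show 2 - w - (1 - w) = 1 by ring] at i3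
  rw [e1, split _ ca, split _ cc] at tot
  linarith

theorem finiteIneq : FiniteIneq := finiteIneq_of areaB

end Pool.Agent.MP_cab9bb_co
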