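import Mathlib

section

set_option autoImplicit false

open MeasureTheory Set

namespace Pool.Agent.MP_cab9bb_co

/-- cross product in the plane -/
def cr (x y : ℝ × ℝ) : ℝ := x.1 * y.2 - x.2 * y.1

/-- The finite covering inequality with the centres inside `C`. -/
def FiniteIneq : Prop :=
  ∀ K : Set (ℝ × ℝ), IsCompact K → Convex ℝ K → (interior K).Nonempty → (∀ x ∈ K, -x ∈ K) →
    ∀ t : ℝ, (∀ a ∈ K, ∀ b ∈ K, ∀ c ∈ K, cr (b - a) (c - a) ≤ 2 * t) →
    ∀ k : ℕ, 2 ≤ k → ∀ C : Set (ℝ × ℝ), IsCompact C → Convex ℝ C → (interior C).Nonempty →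
    ∀ b : Fin k → ℝ × ℝ, (∀ i, b i ∈ C) → (∀ x ∈ C, ∃ i, x - b i ∈ K) →
      volume C ≤ ENNReal.ofReal (2 * k * t)

/-- the linear map with columns `u`, `v` -/
noncomputable def lin (u v : ℝ × ℝ) : (ℝ × ℝ) →ₗ[ℝ] (ℝ × ℝ) :=
  Matrix.toLin (Module.Basis.finTwoProd ℝ) (Module.Basis.finTwoProd ℝ) !![u.1, v.1; u.2, v.2]

theorem lin_apply (u v p : ℝ × ℝ) : lin u v p = p.1 • u + p.2 • v := by
  unfold lin
  rw [Matrix.toLin_finTwoProd_apply]
  ext <;> simp <;> ring

theorem det_lin (u v : ℝ × ℝ) : LinearMap.det (lin u v) = cr u v := by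
  unfold lin cr
  rw [LinearMap.det_toLin, Matrix.det_fin_two_of]
  ring

theorem volume_image_lin (u v : ℝ × ℝ) (S : Set (ℝ × ℝ)) :
    volume (lin u v '' S) = ENNReal.ofReal |cr u v| * volume S := by
  rw [Measure.addHaar_image_linearMap, det_lin]

theorem half_sub_mem {K : Set (ℝ × ℝ)} (hK : Convex ℝ K) (hs : ∀ x ∈ K, -x ∈ K) {a b : ℝ × ℝ}
    (ha : a ∈ K) (hb : b ∈ K) : (1 / 2 : ℝ) • (a - b) ∈ K := by
  have := hK ha (hs b hb) (by norm_num : (0 : ℝ) ≤ 1 / 2) (by norm_num : (0 : ℝ) ≤ 1 / 2)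
    (by norm_num)
  convert this using 1
  rw [smul_sub, smul_neg, sub_eq_add_neg]

theorem zero_mem {K : Set (ℝ × ℝ)} (hK : Convex ℝ K) (hs : ∀ x ∈ K, -x ∈ K) {a : ℝ × ℝ}
    (ha : a ∈ K) : (0 : ℝ × ℝ) ∈ K := by
  simpa using half_sub_mem hK hs ha ha

/-- combination with total weight at most one -/
theorem comb2_mem {K : Set (ℝ × ℝ)} (hK : Convex ℝ K) (h0 : (0 : ℝ × ℝ) ∈ K) {a b : ℝ × ℝ}
    (ha : a ∈ K) (hb : b ∈ K) {p q : ℝ} (hp : 0 ≤ p) (hq : 0 ≤ q) (hpq : p + q ≤ 1) :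
    p • a + q • b ∈ K := by
  rcases eq_or_lt_of_le (add_nonneg hp hq) with h | h
  · have hp0 : p = 0 := by linarith
    have hq0 : q = 0 := by linarith
    simpa [hp0, hq0] using h0
  · have h1 : (p / (p + q)) • a + (q / (p + q)) • b ∈ K :=
      hK ha hb (div_nonneg hp h.le) (div_nonneg hq h.le) (by field_simp)
    have h2 := hK h1 h0 h.le (sub_nonneg.2 hpq) (by ring)
    convert h2 using 1
    rw [smul_zero, add_zero, smul_add, smul_smul, smul_smul]
    congr 2 <;> field_simp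

/-- Helly: a centre can be moved into `C`. -/
theorem exists_centre_mem {K C : Set (ℝ × ℝ)} (hKc : IsCompact K) (hK : Convex ℝ K)
    (hs : ∀ x ∈ K, -x ∈ K) (hCc : IsCompact C) (hC : Convex ℝ C) (hne : C.Nonempty)
    (b : ℝ × ℝ) : ∃ b' ∈ C, ∀ x ∈ C, x - b ∈ K → x - b' ∈ K := by
  classical
  let S : Set (ℝ × ℝ) := {x | x ∈ C ∧ x - b ∈ K}
  let F : Option S → Set (ℝ × ℝ) := fun o =>
    match o with
    | none => C
    | some x => (fun y => (x : ℝ × ℝ) - y) '' K
  have hmem : ∀ (x : S) (y : ℝ × ℝ), y ∈ F (some x) ↔ (x : ℝ × ℝ) - y ∈ K := by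
    intro x y
    constructor
    · rintro ⟨z, hz, rfl⟩
      simpa using hz
    · intro h
      exact ⟨_, h, by simp⟩
  have hconv : ∀ o, Convex ℝ (F o) := by
    rintro (_ | x)
    · exact hC
    · intro y hy z hz p q hp hq hpq
      rw [hmem] at hy hz ⊢
      have := hK hy hz hp hq hpq
      convert this using 1
      have hq' : q = 1 - p := by linarith
      subst hq'
      ext <;> simp <;> ring
  have hcomp : ∀ o, IsCompact (F o) := by
    rintro (_ | x)
    · exact hCc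
    · exact hKc.image (by fun_prop)
  have key := Convex.helly_theorem_compact' (𝕜 := ℝ) hconv hcomp (by
    intro I hI
    by_cases hn : none ∈ I
    · have hcard : (I.erase none).card ≤ 2 := by
        rw [Finset.card_erase_of_mem hn]
        simp at hI
        omega
      have : ∃ x y : ℝ × ℝ, x ∈ C ∧ y ∈ C ∧ ∀ o ∈ I.erase none, ∀ z : S, o = some z →
          ((z : ℝ × ℝ) = x ∧ (x = y ∨ y ∈ S)) ∨ ((z : ℝ × ℝ) = y ∧ x ∈ S) := by
        rcases Nat.lt_or_ge (I.erase none).card 1 with h1 | h1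
        · obtain ⟨x, hx⟩ := hne
          refine ⟨x, x, hx, hx, ?_⟩
          intro o ho
          have : I.erase none = ∅ := Finset.card_eq_zero.1 (by omega)
          rw [this] at ho
          simp at ho
        · rcases Nat.lt_or_ge (I.erase none).card 2 with h2 | h2
          · obtain ⟨o, ho⟩ := Finset.card_eq_one.1 (show (I.erase none).card = 1 by omega)
            have hoI : o ∈ I.erase none := by rw [ho]; simp
            obtain ⟨x, rfl⟩ := Option.ne_none_iff_exists'.1 (Finset.ne_of_mem_erase hoI)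
            refine ⟨x, x, x.2.1, x.2.1, ?_⟩
            intro o' ho' z hz
            rw [ho, Finset.mem_singleton] at ho'
            left
            subst hz
            exact ⟨by rw [Option.some.inj ho'], Or.inl rfl⟩
          · obtain ⟨o₁, o₂, -, ho⟩ := Finset.card_eq_two.1 (show (I.erase none).card = 2 by omega)
            have ho₁ : o₁ ∈ I.erase none := by rw [ho]; simp
            have ho₂ : o₂ ∈ I.erase none := by rw [ho]; simp
            obtain ⟨x, rfl⟩ := Option.ne_none_iff_exists'.1 (Finset.ne_of_mem_erase ho₁)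
            obtain ⟨y, rfl⟩ := Option.ne_none_iff_exists'.1 (Finset.ne_of_mem_erase ho₂)
            refine ⟨x, y, x.2.1, y.2.1, ?_⟩
            intro o' ho' z hz
            rw [ho] at ho'
            subst hz
            simp only [Finset.mem_insert, Finset.mem_singleton, Option.some.injEq] at ho'
            rcases ho' with h | h
            · left; exact ⟨by rw [h], Or.inr y.2⟩
            · right; exact ⟨by rw [h], x.2⟩
      obtain ⟨x, y, hx, hy, hxy⟩ := this
      refine ⟨(1 / 2 : ℝ) • x + (1 / 2 : ℝ) • y, ?_⟩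
      simp only [mem_iInter]
      rintro (_ | z) hz
      · exact hC hx hy (by norm_num) (by norm_num) (by norm_num)
      · rw [hmem]
        rcases hxy (some z) (by simp [hz]) z rfl with ⟨h1, h2⟩ | ⟨h1, h2⟩
        · have hzS : x - b ∈ K := h1 ▸ z.2.2
          have hyS : y - b ∈ K := by
            rcases h2 with h2 | h2
            · exact h2 ▸ hzS
            · exact h2.2
          have := half_sub_mem hK hs hzS hyS
          convert this using 1
          rw [h1]; ext <;> simp <;> ring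
        · have hzS : y - b ∈ K := h1 ▸ z.2.2
          have := half_sub_mem hK hs hzS h2.2
          convert this using 1
          rw [h1]; ext <;> simp <;> ring
    · refine ⟨b, ?_⟩
      simp only [mem_iInter]
      rintro (_ | z) hz
      · exact absurd hz hn
      · rw [hmem]; exact z.2.2)
  obtain ⟨b', hb'⟩ := key
  rw [mem_iInter] at hb'
  refine ⟨b', hb' none, fun x hx hxb => ?_⟩
  exact (hmem ⟨x, hx, hxb⟩ b').1 (hb' (some ⟨x, hx, hxb⟩))

end Pool.Agent.MP_cab9bb_co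

end

section

set_option autoImplicit false

open MeasureTheory Set Filter Topology

namespace Pool.Agent.MP_cab9bb_co

theorem exists_scale {a b c a₀ b₀ c₀ : ℝ} (ha : 0 ≤ a) (hb : 0 ≤ b) (hc : 0 ≤ c)
    (h : a + b + c = 1) (h₀ : a₀ + b₀ + c₀ = 1) :
    ∃ s : ℝ, 0 ≤ s ∧ s ≤ 1 ∧ 0 ≤ a - s * a₀ ∧ 0 ≤ b - s * b₀ ∧ 0 ≤ c - s * c₀ ∧
      (a - s * a₀ = 0 ∨ b - s * b₀ = 0 ∨ c - s * c₀ = 0) := by
  let g : ℝ → ℝ := fun s => min (a - s * a₀) (min (b - s * b₀) (c - s * c₀))
  have hg : Continuous g := by fun_prop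
  have h0 : 0 ≤ g 0 := by simp [g, ha, hb, hc]
  have h1 : g 1 ≤ 0 := by
    by_contra hh
    push Not at hh
    simp only [g, lt_min_iff] at hh
    linarith [hh.1, hh.2.1, hh.2.2]
  obtain ⟨s, hs, hgs⟩ := intermediate_value_Icc' (zero_le_one' ℝ) hg.continuousOn ⟨h1, h0⟩
  have e : g s = 0 := hgs
  refine ⟨s, hs.1, hs.2, ?_, ?_, ?_, ?_⟩
  · exact e ▸ min_le_left _ _
  · exact e ▸ (min_le_right _ _).trans (min_le_left _ _)
  · exact e ▸ (min_le_right _ _).trans (min_le_right _ _)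
  · simp only [g] at e
    rcases min_choice (a - s * a₀) (min (b - s * b₀) (c - s * c₀)) with h' | h'
    · left; rw [← h']; exact e
    · right
      rcases min_choice (b - s * b₀) (c - s * c₀) with h'' | h''
      · left; rw [← h'', ← h']; exact e
      · right; rw [← h'', ← h']; exact e

theorem edge_cover {K : Set (ℝ × ℝ)} (hK : Convex ℝ K) (hs : ∀ x ∈ K, -x ∈ K) {u v : ℝ × ℝ}
    (hu : u ∈ K) (hv : v ∈ K) {s p q : ℝ} (hs0 : 0 ≤ s) (hp : 0 ≤ p) (hq : 0 ≤ q)
    (h : s + p + q = 1) : p • u + q • v - u ∈ K ∨ p • u + q • v - v ∈ K := by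
  have h0 := zero_mem hK hs hu
  rcases le_total q p with hqp | hqp
  · left
    have := comb2_mem hK h0 (hs u hu) (half_sub_mem hK hs hv hu) hs0
      (show 0 ≤ 2 * q by linarith) (by linarith)
    convert this using 1
    have : p = 1 - s - q := by linarith
    subst this
    ext <;> simp <;> ring
  · right
    have := comb2_mem hK h0 (hs v hv) (half_sub_mem hK hs hu hv) hs0
      (show 0 ≤ 2 * p by linarith) (by linarith)
    convert this using 1
    have : q = 1 - s - p := by linarith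
    subst this
    ext <;> simp <;> ring

/-- A triangle inscribed in `K` and containing the origin is covered by the translates of `K`
centred at its vertices. -/
theorem tri_cover {K : Set (ℝ × ℝ)} (hK : Convex ℝ K) (hs : ∀ x ∈ K, -x ∈ K) {u v w : ℝ × ℝ}
    (hu : u ∈ K) (hv : v ∈ K) (hw : w ∈ K) {a₀ b₀ c₀ : ℝ} (h₀ : a₀ + b₀ + c₀ = 1)
    (hz : a₀ • u + b₀ • v + c₀ • w = 0) {a b c : ℝ} (ha : 0 ≤ a) (hb : 0 ≤ b) (hc : 0 ≤ c)
    (h : a + b + c = 1) :
    a • u + b • v + c • w - u ∈ K ∨ a • u + b • v + c • w - v ∈ K ∨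
      a • u + b • v + c • w - w ∈ K := by
  obtain ⟨s, hs0, hs1, h1, h2, h3, h4⟩ := exists_scale ha hb hc h h₀
  have key : a • u + b • v + c • w =
      (a - s * a₀) • u + (b - s * b₀) • v + (c - s * c₀) • w := by
    have : (a - s * a₀) • u + (b - s * b₀) • v + (c - s * c₀) • w =
        a • u + b • v + c • w - s • (a₀ • u + b₀ • v + c₀ • w) := by
      ext <;> simp <;> ring
    rw [this, hz, smul_zero, sub_zero]
  have hsum : s + (a - s * a₀) + (b - s * b₀) + (c - s * c₀) = 1 := by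
    have : s * (a₀ + b₀ + c₀) = s := by rw [h₀, mul_one]
    linarith
  rw [key]
  rcases h4 with h4 | h4 | h4
  · rw [h4, zero_smul, zero_add]
    rcases edge_cover hK hs hv hw hs0 h2 h3 (by linarith) with h5 | h5
    · exact Or.inr (Or.inl h5)
    · exact Or.inr (Or.inr h5)
  · rw [h4, zero_smul, add_zero]
    rcases edge_cover hK hs hu hw hs0 h1 h3 (by linarith) with h5 | h5
    · exact Or.inl h5
    · exact Or.inr (Or.inr h5)
  · rw [h4, zero_smul, add_zero]
    rcases edge_cover hK hs hu hv hs0 h1 h2 (by linarith) with h5 | h5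
    · exact Or.inl h5
    · exact Or.inr (Or.inl h5)

theorem cramer (e f p : ℝ × ℝ) (hD : cr e f ≠ 0) :
    p = (cr p f / cr e f) • e + (cr e p / cr e f) • f := by
  ext
  · simp only [Prod.fst_add, Prod.smul_fst, smul_eq_mul]
    field_simp
    simp only [cr]; ring
  · simp only [Prod.snd_add, Prod.smul_snd, smul_eq_mul]
    field_simp
    simp only [cr]; ring

/-- The lattice spanned by two sides of an inscribed triangle gives a covering. -/
theorem lattice_cover {K : Set (ℝ × ℝ)} (hK : Convex ℝ K) (hs : ∀ x ∈ K, -x ∈ K) {u v w : ℝ × ℝ}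
    (hu : u ∈ K) (hv : v ∈ K) (hw : w ∈ K) (hD : cr (v - u) (w - u) ≠ 0) (p : ℝ × ℝ) :
    ∃ j : ℤ × ℤ, p - lin (v - u) (w - u) ((j.1 : ℝ), (j.2 : ℝ)) ∈ K := by
  set D := cr (v - u) (w - u) with hDdef
  have h₀ : cr v w / D + cr w u / D + cr u v / D = 1 := by
    field_simp
    simp only [hDdef, cr, Prod.fst_sub, Prod.snd_sub]
    ring
  have hz : (cr v w / D) • u + (cr w u / D) • v + (cr u v / D) • w = 0 := by
    ext <;> simp [cr] <;> field_simp <;> ring
  set s := cr p (w - u) / D with hsdef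
  set r := cr (v - u) p / D with hrdef
  have hp : p = s • (v - u) + r • (w - u) := cramer _ _ _ hD
  set α := Int.fract s with hα
  set β := Int.fract r with hβ
  have hα0 : 0 ≤ α := Int.fract_nonneg s
  have hβ0 : 0 ≤ β := Int.fract_nonneg r
  have hα1 : α < 1 := Int.fract_lt_one s
  have hβ1 : β < 1 := Int.fract_lt_one r
  have es : s = ⌊s⌋ + α := (Int.floor_add_fract s).symm
  have er : r = ⌊r⌋ + β := (Int.floor_add_fract r).symm
  generalize ⌊s⌋ = m at es
  generalize ⌊r⌋ = n at er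
  rcases le_total (α + β) 1 with h | h
  · rcases tri_cover hK hs hu hv hw h₀ hz (a := 1 - α - β) (b := α) (c := β) (by linarith) hα0 hβ0
      (by ring) with h1 | h1 | h1
    · refine ⟨(m, n), ?_⟩
      convert h1 using 1
      rw [lin_apply, hp, es, er]; ext <;> simp <;> ring
    · refine ⟨(m + 1, n), ?_⟩
      convert h1 using 1
      rw [lin_apply, hp, es, er]; ext <;> simp <;> ring
    · refine ⟨(m, n + 1), ?_⟩
      convert h1 using 1
      rw [lin_apply, hp, es, er]; ext <;> simp <;> ring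
  · rcases tri_cover hK hs hu hv hw h₀ hz (a := α + β - 1) (b := 1 - α) (c := 1 - β) (by linarith)
      (by linarith) (by linarith) (by ring) with h1 | h1 | h1
    · refine ⟨(m + 1, n + 1), ?_⟩
      convert hs _ h1 using 1
      rw [lin_apply, hp, es, er]; ext <;> simp <;> ring
    · refine ⟨(m, n + 1), ?_⟩
      convert hs _ h1 using 1
      rw [lin_apply, hp, es, er]; ext <;> simp <;> ring
    · refine ⟨(m + 1, n), ?_⟩
      convert hs _ h1 using 1
      rw [lin_apply, hp, es, er]; ext <;> simp <;> ring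

/-- unit cell at an integer point -/
def cell (j : ℤ × ℤ) : Set (ℝ × ℝ) := Ico (j.1 : ℝ) (j.1 + 1) ×ˢ Ico (j.2 : ℝ) (j.2 + 1)

theorem volume_cell (j : ℤ × ℤ) : volume (cell j) = 1 := by
  simp [cell, Measure.volume_eq_prod, Measure.prod_prod]

theorem cell_unique {j j' : ℤ × ℤ} {p : ℝ × ℝ} (h : p ∈ cell j) (h' : p ∈ cell j') : j = j' := by
  obtain ⟨⟨h1, h2⟩, h3, h4⟩ := h
  obtain ⟨⟨h5, h6⟩, h7, h8⟩ := h'
  have e1 : ⌊p.1⌋ = j.1 := Int.floor_eq_iff.2 ⟨h1, h2⟩
  have e2 : ⌊p.1⌋ = j'.1 := Int.floor_eq_iff.2 ⟨h5, h6⟩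
  have e3 : ⌊p.2⌋ = j.2 := Int.floor_eq_iff.2 ⟨h3, h4⟩
  have e4 : ⌊p.2⌋ = j'.2 := Int.floor_eq_iff.2 ⟨h7, h8⟩
  ext
  · rw [← e1, e2]
  · rw [← e3, e4]

theorem volume_cells (J : Set (ℤ × ℤ)) : volume (⋃ j ∈ J, cell j) = J.encard := by
  rw [measure_biUnion (Set.to_countable J)]
  · simp only [volume_cell]
    exact ENNReal.tsum_set_one J
  · intro j _ j' _ hne
    exact Set.disjoint_left.2 fun p h h' => hne (cell_unique h h')
  · intro j _
    exact measurableSet_Ico.prod measurableSet_Ico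

end Pool.Agent.MP_cab9bb_co

end

section

set_option autoImplicit false

open MeasureTheory Set Filter Topology

namespace Pool.Agent.MP_cab9bb_co

abbrev E2 := EuclideanSpace ℝ (Fin 2)

/-- coordinates -/
noncomputable def toP : E2 ≃L[ℝ] ℝ × ℝ :=
  (EuclideanSpace.equiv (Fin 2) ℝ).trans (ContinuousLinearEquiv.finTwoArrow ℝ ℝ)

theorem toP_mp : MeasurePreserving toP volume volume :=
  (volume_preserving_finTwoArrow ℝ).comp (PiLp.volume_preserving_ofLp (Fin 2))

theorem volume_image_toP (S : Set E2) : volume (toP '' S) = volume S := by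
  have h := toP_mp.measure_preimage_emb toP.toHomeomorph.toMeasurableEquiv.measurableEmbedding
    (toP '' S)
  rw [← h, Set.preimage_image_eq _ toP.injective]

theorem count_le (e f : ℝ × ℝ) (hD : 0 < cr e f) (c : E2) (r : ℝ) :
    ((((Set.range fun j : ℤ × ℤ => toP.symm (lin e f ((j.1 : ℝ), (j.2 : ℝ))) - c) ∩
      Metric.ball 0 r).encard : ℕ∞) : ENNReal) * ENNReal.ofReal (cr e f) ≤
      volume (Metric.ball (0 : E2) (r + (‖c‖ + ‖toP.symm e‖ + ‖toP.symm f‖))) := by
  set g : ℤ × ℤ → E2 := fun j => toP.symm (lin e f ((j.1 : ℝ), (j.2 : ℝ))) - c with hg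
  set J : Set (ℤ × ℤ) := g ⁻¹' Metric.ball 0 r with hJ
  have h1 : (Set.range g ∩ Metric.ball 0 r).encard ≤ J.encard := by
    rw [hJ, ← Set.image_preimage_eq_range_inter]
    exact Set.encard_image_le _ _
  have h2 : lin e f '' (⋃ j ∈ J, cell j) ⊆
      toP '' Metric.ball (0 : E2) (r + (‖c‖ + ‖toP.symm e‖ + ‖toP.symm f‖)) := by
    rintro _ ⟨p, hp, rfl⟩
    simp only [mem_iUnion] at hp
    obtain ⟨j, hj, ⟨h1, h2⟩, h3, h4⟩ := hp
    refine ⟨toP.symm (lin e f p), ?_, by simp⟩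
    have hj' : ‖g j‖ < r := by simpa [hJ] using hj
    have e1 : toP.symm (lin e f p) =
        g j + c + (p.1 - j.1) • toP.symm e + (p.2 - j.2) • toP.symm f := by
      simp only [hg, lin_apply, map_add, map_smul, sub_smul]
      abel
    rw [mem_ball_zero_iff, e1]
    have n1 : ‖(p.1 - j.1) • toP.symm e‖ ≤ ‖toP.symm e‖ := by
      rw [norm_smul, Real.norm_eq_abs, abs_of_nonneg (by linarith)]
      exact mul_le_of_le_one_left (norm_nonneg _) (by linarith)
    have n2 : ‖(p.2 - j.2) • toP.symm f‖ ≤ ‖toP.symm f‖ := by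
      rw [norm_smul, Real.norm_eq_abs, abs_of_nonneg (by linarith)]
      exact mul_le_of_le_one_left (norm_nonneg _) (by linarith)
    have n3 := norm_add_le (g j + c + (p.1 - j.1) • toP.symm e) ((p.2 - j.2) • toP.symm f)
    have n4 := norm_add_le (g j + c) ((p.1 - j.1) • toP.symm e)
    have n5 := norm_add_le (g j) c
    linarith
  have h3 := measure_mono (μ := volume) h2
  rw [volume_image_lin, volume_cells, volume_image_toP, abs_of_pos hD, mul_comm] at h3
  refine le_trans ?_ h3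
  gcongr

theorem liminf_le_of_count {N : ℝ → ENNReal} {V : ENNReal} (hV : V ≠ ⊤) {D R : ℝ} (hD : 0 < D)
    (h : ∀ r, N r * ENNReal.ofReal D ≤ volume (Metric.ball (0 : E2) (r + R))) :
    liminf (fun r : ℝ => N r * V / volume (Metric.ball (0 : E2) r)) atTop ≤
      V / ENNReal.ofReal D := by
  have hlim : Tendsto (fun r : ℝ => ENNReal.ofReal (((r + R) / r) ^ 2) * (V / ENNReal.ofReal D))
      atTop (𝓝 (V / ENNReal.ofReal D)) := by
    have h1 : Tendsto (fun r : ℝ => ((r + R) / r) ^ 2) atTop (𝓝 1) := by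
      have h2 : Tendsto (fun r : ℝ => 1 + R * r⁻¹) atTop (𝓝 (1 + R * 0)) :=
        tendsto_const_nhds.add (tendsto_inv_atTop_zero.const_mul R)
      have h3 : Tendsto (fun r : ℝ => (1 + R * r⁻¹) ^ 2) atTop (𝓝 ((1 + R * 0) ^ 2)) := h2.pow 2
      rw [show ((1 : ℝ) + R * 0) ^ 2 = 1 by ring] at h3
      refine h3.congr' ?_
      filter_upwards [eventually_gt_atTop 0] with r hr
      field_simp
    have h4 := (ENNReal.continuous_ofReal.tendsto 1).comp h1
    have hne : V / ENNReal.ofReal D ≠ ⊤ :=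
      ENNReal.div_ne_top hV (by simpa using hD)
    have := ENNReal.Tendsto.mul_const (b := V / ENNReal.ofReal D) h4 (Or.inr hne)
    simpa using this
  rw [← hlim.liminf_eq]
  refine liminf_le_liminf ?_
  filter_upwards [eventually_gt_atTop 0, eventually_gt_atTop (-R)] with r hr hR
  have hDne : ENNReal.ofReal D ≠ 0 := by simpa using hD
  have h1 : N r ≤ volume (Metric.ball (0 : E2) (r + R)) / ENNReal.ofReal D :=
    (ENNReal.le_div_iff_mul_le (Or.inl hDne) (Or.inl ENNReal.ofReal_ne_top)).2 (h r)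
  have h2 : volume (Metric.ball (0 : E2) (r + R)) =
      ENNReal.ofReal (((r + R) / r) ^ 2) * volume (Metric.ball (0 : E2) r) := by
    rw [EuclideanSpace.volume_ball_fin_two, EuclideanSpace.volume_ball_fin_two, ← mul_assoc,
      ← ENNReal.ofReal_pow (by linarith : 0 ≤ r + R), ← ENNReal.ofReal_pow hr.le,
      ← ENNReal.ofReal_mul (p := ((r + R) / r) ^ 2) (q := r ^ 2) (by positivity)]
    have : ((r + R) / r) ^ 2 * r ^ 2 = (r + R) ^ 2 := by field_simp
    rw [this]
  have hb0 : volume (Metric.ball (0 : E2) r) ≠ 0 := (Metric.measure_ball_pos _ _ hr).ne'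
  have hbt : volume (Metric.ball (0 : E2) r) ≠ ⊤ := measure_ball_lt_top.ne
  rw [ENNReal.div_le_iff hb0 hbt]
  calc N r * V ≤ volume (Metric.ball (0 : E2) (r + R)) / ENNReal.ofReal D * V := by gcongr
    _ = _ := by
      rw [h2]
      simp only [div_eq_mul_inv]
      ring

theorem exists_max_triangle {K : Set (ℝ × ℝ)} (hKc : IsCompact K) (hKi : (interior K).Nonempty) :
    ∃ u ∈ K, ∃ v ∈ K, ∃ w ∈ K, 0 < cr (v - u) (w - u) ∧
      ∀ a ∈ K, ∀ b ∈ K, ∀ c ∈ K, cr (b - a) (c - a) ≤ cr (v - u) (w - u) := by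
  obtain ⟨x, hx⟩ := hKi
  have hxK : x ∈ K := interior_subset hx
  have hc : IsCompact (K ×ˢ K ×ˢ K) := hKc.prod (hKc.prod hKc)
  have hne : (K ×ˢ K ×ˢ K).Nonempty := ⟨(x, x, x), hxK, hxK, hxK⟩
  have hcont : Continuous fun q : (ℝ × ℝ) × (ℝ × ℝ) × (ℝ × ℝ) =>
      cr (q.2.1 - q.1) (q.2.2 - q.1) := by
    unfold cr; fun_prop
  obtain ⟨⟨u, v, w⟩, ⟨hu, hv, hw⟩, hmax⟩ := hc.exists_isMaxOn hne hcont.continuousOn
  have hall : ∀ a ∈ K, ∀ b ∈ K, ∀ c ∈ K, cr (b - a) (c - a) ≤ cr (v - u) (w - u) :=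
    fun a ha b hb c hc => hmax (show (a, b, c) ∈ K ×ˢ K ×ˢ K from ⟨ha, hb, hc⟩)
  refine ⟨u, hu, v, hv, w, hw, ?_, hall⟩
  obtain ⟨ε, hε, hball⟩ := Metric.mem_nhds_iff.1 (mem_interior_iff_mem_nhds.1 hx)
  have h1 : x + (ε / 2, 0) ∈ K := hball (by
    rw [Metric.mem_ball, dist_eq_norm, add_sub_cancel_left, Prod.norm_def]
    simp [abs_of_pos hε, hε])
  have h2 : x + (0, ε / 2) ∈ K := hball (by
    rw [Metric.mem_ball, dist_eq_norm, add_sub_cancel_left, Prod.norm_def]
    simp [abs_of_pos hε, hε])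
  have := hall x hxK _ h1 _ h2
  simp only [add_sub_cancel_left, cr] at this
  have h3 : 0 < ε / 2 * (ε / 2) := by positivity
  simp only [cr]
  linarith

theorem interior_image_toP {S : Set E2} (h : (interior S).Nonempty) :
    (interior (toP '' S)).Nonempty := by
  have := toP.toHomeomorph.image_interior S
  obtain ⟨x, hx⟩ := h
  exact ⟨toP x, by
    have h2 : toP.toHomeomorph x ∈ toP.toHomeomorph '' interior S := ⟨x, hx, rfl⟩
    rw [this] at h2
    exact h2⟩

/-- The problem follows from the finite inequality. -/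
theorem reduce (H : FiniteIneq) :
    ∀ K : Set (EuclideanSpace ℝ (Fin 2)), IsCompact K → Convex ℝ K → (interior K).Nonempty →
      (∃ c : EuclideanSpace ℝ (Fin 2), ∀ x ∈ K, (2 : ℝ) • c - x ∈ K) →
      ∀ k : ℕ, 2 ≤ k →
      ∀ C : Set (EuclideanSpace ℝ (Fin 2)), IsCompact C → Convex ℝ C → (interior C).Nonempty →
      ∀ t : Fin k → EuclideanSpace ℝ (Fin 2), C ⊆ ⋃ i, (fun x => t i + x) '' K →
        (⨅ T : Set (EuclideanSpace ℝ (Fin 2)),
            ⨅ (_ : (⋃ s ∈ T, (fun x => s + x) '' K) = Set.univ),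
              Filter.liminf
                (fun r : ℝ =>
                  ((T ∩ Metric.ball (0 : EuclideanSpace ℝ (Fin 2)) r).encard : ENNReal)
                    * MeasureTheory.volume K
                    / MeasureTheory.volume (Metric.ball (0 : EuclideanSpace ℝ (Fin 2)) r))
                Filter.atTop)
          ≤ (k : ENNReal) * MeasureTheory.volume K / MeasureTheory.volume C := by
  rintro K hKc hK hKi ⟨c, hc⟩ k hk C hCc hC hCi t hcov
  set K₀ : Set E2 := (fun x => x - c) '' K with hK₀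
  set K' : Set (ℝ × ℝ) := toP '' K₀ with hK'
  have hmem : ∀ x : E2, toP (x - c) ∈ K' ↔ x ∈ K := by
    intro x
    constructor
    · rintro ⟨_, ⟨y, hy, rfl⟩, h⟩
      have := toP.injective h
      rwa [← sub_left_injective this]
    · intro hx
      exact ⟨_, ⟨x, hx, rfl⟩, rfl⟩
  have hK'c : IsCompact K' := (hKc.image (by fun_prop)).image toP.continuous
  have hK₀v : Convex ℝ K₀ := by
    have := hK.translate (-c)
    have e : (fun x : E2 => x - c) = fun x => -c + x := funext fun x => sub_eq_neg_add x c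
    rw [hK₀, e]
    exact this
  have hK'v : Convex ℝ K' := hK₀v.linear_image toP.toLinearEquiv.toLinearMap
  have hK'i : (interior K').Nonempty := by
    apply interior_image_toP
    obtain ⟨x, hx⟩ := hKi
    have h := (Homeomorph.subRight c).image_interior K
    have h2 : Homeomorph.subRight c x ∈ Homeomorph.subRight c '' interior K := ⟨x, hx, rfl⟩
    rw [h] at h2
    exact ⟨_, h2⟩
  have hK's : ∀ x ∈ K', -x ∈ K' := by
    rintro _ ⟨_, ⟨y, hy, rfl⟩, rfl⟩
    have := (hmem _).2 (hc y hy)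
    convert this using 1
    rw [← map_neg]
    congr 1
    module
  obtain ⟨u, hu, v, hv, w, hw, hD, hmax⟩ := exists_max_triangle hK'c hK'i
  set D := cr (v - u) (w - u) with hDdef
  have hC'c : IsCompact (toP '' C) := hCc.image toP.continuous
  have hC'v : Convex ℝ (toP '' C) := hC.linear_image toP.toLinearEquiv.toLinearMap
  have hC'i := interior_image_toP hCi
  choose b hbC hb using fun i : Fin k => exists_centre_mem hK'c hK'v hK's hC'c hC'v
    (hC'i.mono interior_subset) (toP (t i + c))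
  have hvol := H K' hK'c hK'v hK'i hK's (D / 2) (fun a ha b hb c hc => by
    have := hmax a ha b hb c hc; linarith) k hk _ hC'c hC'v hC'i b hbC (by
    rintro _ ⟨x, hx, rfl⟩
    obtain ⟨i, y, hy, rfl⟩ := mem_iUnion.1 (hcov hx)
    refine ⟨i, hb i _ ⟨_, hx, rfl⟩ ?_⟩
    have := (hmem y).2 hy
    convert this using 1
    rw [← map_sub]
    congr 1
    simp only
    module)
  rw [volume_image_toP] at hvol
  set T : Set E2 :=
    Set.range fun j : ℤ × ℤ => toP.symm (lin (v - u) (w - u) ((j.1 : ℝ), (j.2 : ℝ))) - c with hT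
  have hTcov : (⋃ s ∈ T, (fun x => s + x) '' K) = Set.univ := by
    rw [Set.eq_univ_iff_forall]
    intro x
    obtain ⟨j, hj⟩ := lattice_cover hK'v hK's hu hv hw hD.ne' (toP x)
    simp only [mem_iUnion]
    refine ⟨_, ⟨j, rfl⟩, x - (toP.symm (lin (v - u) (w - u) ((j.1 : ℝ), (j.2 : ℝ))) - c), ?_, by simp⟩
    rw [← hmem]
    convert hj using 1
    simp only [map_sub, ContinuousLinearEquiv.apply_symm_apply]
    abel
  refine (iInf₂_le T hTcov).trans ?_
  have hV : volume K ≠ ⊤ := hKc.measure_lt_top.ne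
  refine (liminf_le_of_count hV hD (fun r => count_le (v - u) (w - u) hD c r)).trans ?_
  have hC0 : volume C ≠ 0 := (Measure.measure_pos_of_nonempty_interior _ hCi).ne'
  have hCt : volume C ≠ ⊤ := hCc.measure_lt_top.ne
  have hDne : ENNReal.ofReal D ≠ 0 := by simpa using hD
  rw [ENNReal.le_div_iff_mul_le (Or.inl hC0) (Or.inl hCt)]
  have h2 : ENNReal.ofReal (2 * k * (D / 2)) = k * ENNReal.ofReal D := by
    rw [show 2 * (k : ℝ) * (D / 2) = k * D by ring, ENNReal.ofReal_mul (by positivity)]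
    simp
  rw [h2] at hvol
  calc volume K / ENNReal.ofReal D * volume C
      ≤ volume K / ENNReal.ofReal D * (k * ENNReal.ofReal D) := by gcongr
    _ = k * (volume K / ENNReal.ofReal D * ENNReal.ofReal D) := by ring
    _ = k * volume K := by rw [ENNReal.div_mul_cancel hDne ENNReal.ofReal_ne_top]

end Pool.Agent.MP_cab9bb_co

end

section

set_option autoImplicit false

open MeasureTheory Set

namespace Pool.Agent.MP_cab9bb_co

/-- vertical profile of a plane set -/
structure Prof (S : Set (ℝ × ℝ)) (a b : ℝ) (lo hi : ℝ → ℝ) : Prop where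
  le : a ≤ b
  clo : Continuous lo
  chi : Continuous hi
  mem : ∀ p : ℝ × ℝ, p ∈ S ↔ (a ≤ p.1 ∧ p.1 ≤ b) ∧ lo p.1 ≤ p.2 ∧ p.2 ≤ hi p.1
  lohi : ∀ x, a ≤ x → x ≤ b → lo x ≤ hi x

theorem seg_mem {S : Set (ℝ × ℝ)} (hv : Convex ℝ S) {p q : ℝ × ℝ} (hp : p ∈ S) (hq : q ∈ S)
    {θ : ℝ} (h0 : 0 ≤ θ) (h1 : θ ≤ 1) :
    (p.1 + θ * (q.1 - p.1), p.2 + θ * (q.2 - p.2)) ∈ S := by
  have := hv hp hq (sub_nonneg.2 h1) h0 (by ring)
  convert this using 1
  ext <;> simp <;> ring

theorem exists_hi {S : Set (ℝ × ℝ)} (hc : IsCompact S) (hv : Convex ℝ S) {a b : ℝ} (hab : a ≤ b)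
    (hpr : ∀ x, a ≤ x → x ≤ b → ∃ y, (x, y) ∈ S) :
    ∃ hi : ℝ → ℝ, Continuous hi ∧
      ∀ x, a ≤ x → x ≤ b → (x, hi x) ∈ S ∧ ∀ y, (x, y) ∈ S → y ≤ hi x := by
  have h1 : ∀ x, ∃ z, a ≤ x → x ≤ b → (x, z) ∈ S ∧ ∀ y, (x, y) ∈ S → y ≤ z := by
    intro x
    by_cases hx : a ≤ x ∧ x ≤ b
    · obtain ⟨y0, hy0⟩ := hpr x hx.1 hx.2
      have hcl : IsCompact (S ∩ {p | p.1 = x}) :=
        hc.inter_right (isClosed_eq continuous_fst continuous_const)
      obtain ⟨p, hp, hmax⟩ := hcl.exists_isMaxOn ⟨(x, y0), hy0, rfl⟩ continuous_snd.continuousOn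
      refine ⟨p.2, fun _ _ => ⟨?_, fun y hy => hmax (a := (x, y)) ⟨hy, rfl⟩⟩⟩
      have : p.1 = x := hp.2
      rw [← this]; exact hp.1
    · exact ⟨0, fun h1 h2 => absurd ⟨h1, h2⟩ hx⟩
  choose g hg using h1
  have hcont : ContinuousOn g (Icc a b) := by
    intro x0 hx0
    rw [ContinuousWithinAt, tendsto_order]
    constructor
    · intro y hy
      set Cc := |g x0 - g b| / (b - x0) + |g x0 - g a| / (x0 - a) with hCc
      have hlow : ∀ x ∈ Icc a b, g x0 - |x - x0| * Cc ≤ g x := by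
        intro x hx
        have p1 : 0 ≤ |g x0 - g b| / (b - x0) := div_nonneg (abs_nonneg _) (by linarith [hx0.2])
        have p2 : 0 ≤ |g x0 - g a| / (x0 - a) := div_nonneg (abs_nonneg _) (by linarith [hx0.1])
        rcases lt_trichotomy x x0 with h | h | h
        · have hd : 0 < x0 - a := by linarith [hx.1]
          have hm := seg_mem hv (hg x0 hx0.1 hx0.2).1 (hg a le_rfl hab).1
            (θ := (x0 - x) / (x0 - a)) (div_nonneg (by linarith) hd.le)
            ((div_le_one hd).2 (by linarith [hx.1]))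
          have e1 : x0 + (x0 - x) / (x0 - a) * (a - x0) = x := by field_simp; ring
          simp only [e1] at hm
          have := (hg x hx.1 hx.2).2 _ hm
          rw [abs_of_neg (by linarith : x - x0 < 0)]
          have h3 : (x0 - x) / (x0 - a) * (g x0 - g a) ≤ (x0 - x) * (|g x0 - g a| / (x0 - a)) := by
            rw [div_mul_eq_mul_div, mul_div_assoc]
            exact mul_le_mul_of_nonneg_left (div_le_div_of_nonneg_right (le_abs_self _) hd.le)
              (by linarith)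
          nlinarith
        · subst h; simp
        · have hd : 0 < b - x0 := by linarith [hx.2]
          have hm := seg_mem hv (hg x0 hx0.1 hx0.2).1 (hg b hab le_rfl).1
            (θ := (x - x0) / (b - x0)) (div_nonneg (by linarith) hd.le)
            ((div_le_one hd).2 (by linarith [hx.2]))
          have e1 : x0 + (x - x0) / (b - x0) * (b - x0) = x := by field_simp; ring
          simp only [e1] at hm
          have := (hg x hx.1 hx.2).2 _ hm
          rw [abs_of_pos (by linarith : 0 < x - x0)]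
          have h3 : (x - x0) / (b - x0) * (g x0 - g b) ≤ (x - x0) * (|g x0 - g b| / (b - x0)) := by
            rw [div_mul_eq_mul_div, mul_div_assoc]
            exact mul_le_mul_of_nonneg_left (div_le_div_of_nonneg_right (le_abs_self _) hd.le)
              (by linarith)
          nlinarith
      have hc2 : Continuous fun x => g x0 - |x - x0| * Cc := by fun_prop
      have : ∀ᶠ x in nhds x0, y < g x0 - |x - x0| * Cc :=
        hc2.continuousAt.eventually (lt_mem_nhds (by simpa using hy))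
      filter_upwards [nhdsWithin_le_nhds this, self_mem_nhdsWithin] with x h1 h2
      exact h1.trans_le (hlow x h2)
    · intro y hy
      have hcl : IsClosed (Prod.fst '' (S ∩ {p | y ≤ p.2})) :=
        ((hc.inter_right (isClosed_le continuous_const continuous_snd)).image
          continuous_fst).isClosed
      have hnot : x0 ∉ Prod.fst '' (S ∩ {p | y ≤ p.2}) := by
        rintro ⟨p, ⟨hp, hp2⟩, rfl⟩
        have := (hg p.1 hx0.1 hx0.2).2 p.2 hp
        have hp2' : y ≤ p.2 := hp2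
        linarith
      filter_upwards [nhdsWithin_le_nhds (hcl.isOpen_compl.mem_nhds hnot), self_mem_nhdsWithin]
        with x h1 h2
      by_contra h
      exact h1 ⟨(x, g x), ⟨(hg x h2.1 h2.2).1, not_lt.1 h⟩, rfl⟩
  refine ⟨fun x => g (max a (min x b)), hcont.comp_continuous (by fun_prop)
    (fun x => ⟨le_max_left _ _, max_le hab (min_le_right _ _)⟩), fun x h1 h2 => ?_⟩
  simp only [min_eq_left h2, max_eq_right h1]
  exact hg x h1 h2

theorem exists_prof {S : Set (ℝ × ℝ)} (hc : IsCompact S) (hv : Convex ℝ S) (hne : S.Nonempty) :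
    ∃ a b lo hi, Prof S a b lo hi := by
  obtain ⟨p, hp, hmin⟩ := hc.exists_isMinOn hne continuous_fst.continuousOn
  obtain ⟨q, hq, hmax⟩ := hc.exists_isMaxOn hne continuous_fst.continuousOn
  have hab : p.1 ≤ q.1 := hmin hq
  have hpr : ∀ x, p.1 ≤ x → x ≤ q.1 → ∃ y, (x, y) ∈ S := by
    intro x h1 h2
    rcases eq_or_lt_of_le hab with h | h
    · exact ⟨p.2, by rw [show x = p.1 by linarith]; exact hp⟩
    · have hd : 0 < q.1 - p.1 := by linarith
      have hm := seg_mem hv hp hq (θ := (x - p.1) / (q.1 - p.1)) (div_nonneg (by linarith) hd.le)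
        ((div_le_one hd).2 (by linarith))
      have e1 : p.1 + (x - p.1) / (q.1 - p.1) * (q.1 - p.1) = x := by field_simp; ring
      rw [e1] at hm
      exact ⟨_, hm⟩
  obtain ⟨hi, hhi, hhi2⟩ := exists_hi hc hv hab hpr
  let r : ℝ × ℝ → ℝ × ℝ := fun z => (z.1, -z.2)
  have hr : ∀ z, z ∈ r '' S ↔ (z.1, -z.2) ∈ S := by
    intro z
    constructor
    · rintro ⟨w, hw, rfl⟩; simpa [r] using hw
    · intro h; exact ⟨_, h, by simp [r]⟩
  obtain ⟨lo, hlo, hlo2⟩ := exists_hi (S := r '' S) (hc.image (by fun_prop)) (by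
      intro z hz w hw s t hs ht hst
      rw [hr] at hz hw ⊢
      have := hv hz hw hs ht hst
      convert this using 1
      ext <;> simp
      ring) hab (by
      intro x h1 h2
      obtain ⟨y, hy⟩ := hpr x h1 h2
      exact ⟨-y, by rw [hr]; simpa using hy⟩)
  have hl : ∀ x, p.1 ≤ x → x ≤ q.1 → (x, -lo x) ∈ S ∧ ∀ y, (x, y) ∈ S → -lo x ≤ y := by
    intro x h1 h2
    refine ⟨(hr _).1 (hlo2 x h1 h2).1, fun y hy => ?_⟩
    have := (hlo2 x h1 h2).2 (-y) (by rw [hr]; simpa using hy)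
    linarith
  refine ⟨p.1, q.1, fun x => -lo x, hi, hab, hlo.neg, hhi, fun z => ⟨fun hz => ?_, ?_⟩, ?_⟩
  · have h1 : p.1 ≤ z.1 := hmin hz
    have h2 : z.1 ≤ q.1 := hmax hz
    exact ⟨⟨h1, h2⟩, (hl _ h1 h2).2 _ hz, (hhi2 _ h1 h2).2 _ hz⟩
  · rintro ⟨⟨h1, h2⟩, h3, h4⟩
    rcases eq_or_lt_of_le (h3.trans h4) with h | h
    · have : z = (z.1, hi z.1) := by ext <;> simp; linarith
      rw [this]; exact (hhi2 _ h1 h2).1
    · have hd : 0 < hi z.1 - -lo z.1 := by linarith
      have hm := seg_mem hv (hl _ h1 h2).1 (hhi2 _ h1 h2).1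
        (θ := (z.2 - -lo z.1) / (hi z.1 - -lo z.1)) (div_nonneg (by linarith) hd.le)
        ((div_le_one hd).2 (by linarith))
      convert hm using 1
      ext
      · simp
      · simp only []; field_simp; ring
  · intro x h1 h2
    exact (hhi2 x h1 h2).2 _ (hl x h1 h2).1

namespace Prof

variable {S : Set (ℝ × ℝ)} {a b : ℝ} {lo hi : ℝ → ℝ}

theorem hi_mem (P : Prof S a b lo hi) {x : ℝ} (h1 : a ≤ x) (h2 : x ≤ b) : (x, hi x) ∈ S :=
  (P.mem _).2 ⟨⟨h1, h2⟩, P.lohi x h1 h2, le_rfl⟩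

theorem lo_mem (P : Prof S a b lo hi) {x : ℝ} (h1 : a ≤ x) (h2 : x ≤ b) : (x, lo x) ∈ S :=
  (P.mem _).2 ⟨⟨h1, h2⟩, le_rfl, P.lohi x h1 h2⟩

/-- two inner points with the same sum as two outer points -/
theorem inner_pair (P : Prof S a b lo hi) (hv : Convex ℝ S) {x0 x1 y0 y1 : ℝ} (ha : a ≤ x0)
    (hb : x1 ≤ b) (h0 : x0 ≤ y0) (h0' : x0 ≤ y1) (hs : y0 + y1 = x0 + x1) :
    hi x0 + hi x1 ≤ hi y0 + hi y1 ∧ lo y0 + lo y1 ≤ lo x0 + lo x1 := by
  rcases eq_or_lt_of_le (show x0 ≤ x1 by linarith) with h | h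
  · have e0 : y0 = x0 := by linarith
    have e1 : y1 = x0 := by linarith
    rw [e0, e1, ← h]; exact ⟨le_rfl, le_rfl⟩
  · have hd : 0 < x1 - x0 := by linarith
    have hx0 : x0 ≤ b := by linarith
    have hx1 : a ≤ x1 := by linarith
    set θ := (y0 - x0) / (x1 - x0) with hθ
    have t0 : 0 ≤ θ := div_nonneg (by linarith) hd.le
    have t1 : θ ≤ 1 := (div_le_one hd).2 (by linarith)
    have e0 : x0 + θ * (x1 - x0) = y0 := by rw [hθ]; field_simp; ring
    have e1 : x1 + θ * (x0 - x1) = y1 := by linarith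
    have m1 := (P.mem _).1 (seg_mem hv (P.hi_mem ha hx0) (P.hi_mem hx1 hb) t0 t1)
    have m2 := (P.mem _).1 (seg_mem hv (P.hi_mem hx1 hb) (P.hi_mem ha hx0) t0 t1)
    have m3 := (P.mem _).1 (seg_mem hv (P.lo_mem ha hx0) (P.lo_mem hx1 hb) t0 t1)
    have m4 := (P.mem _).1 (seg_mem hv (P.lo_mem hx1 hb) (P.lo_mem ha hx0) t0 t1)
    simp only [e0, e1] at m1 m2 m3 m4
    constructor <;> linarith [m1.2.2, m2.2.2, m3.2.1, m4.2.1]

theorem symm_ends (P : Prof S a b lo hi) (hs : ∀ x ∈ S, -x ∈ S) : a = -b := by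
  have h1 := ((P.mem _).1 (hs _ (P.hi_mem le_rfl P.le))).1.2
  have h2 := ((P.mem _).1 (hs _ (P.hi_mem P.le le_rfl))).1.1
  simp at h1 h2
  linarith

theorem symm_lo {w : ℝ} (P : Prof S (-w) w lo hi) (hs : ∀ x ∈ S, -x ∈ S) {x : ℝ}
    (h1 : -w ≤ x) (h2 : x ≤ w) : lo x = -hi (-x) := by
  have a1 := ((P.mem _).1 (hs _ (P.lo_mem h1 h2))).2.2
  have a2 := ((P.mem _).1 (hs _ (P.hi_mem (x := -x) (by linarith) (by linarith)))).2.1
  simp at a1 a2
  linarith

end Prof

theorem exists_prof_symm {S : Set (ℝ × ℝ)} (hc : IsCompact S) (hv : Convex ℝ S)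
    (hne : S.Nonempty) (hs : ∀ x ∈ S, -x ∈ S) : ∃ w lo hi, Prof S (-w) w lo hi := by
  obtain ⟨a, b, lo, hi, P⟩ := exists_prof hc hv hne
  have := P.symm_ends hs
  subst this
  exact ⟨b, lo, hi, P⟩

theorem vol_le {T : Set (ℝ × ℝ)} {x1 x2 : ℝ} (h12 : x1 ≤ x2) {f g : ℝ → ℝ} (hf : Continuous f)
    (hg : Continuous g) (hfg : ∀ x, x1 ≤ x → x ≤ x2 → f x ≤ g x)
    (h2 : ∀ p ∈ T, (x1 ≤ p.1 ∧ p.1 ≤ x2) ∧ f p.1 ≤ p.2 ∧ p.2 ≤ g p.1) :
    volume T ≤ ENNReal.ofReal (∫ x in x1..x2, (g x - f x)) := by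
  classical
  have hsub : T ⊆ {p : ℝ × ℝ | p.1 ∈ Icc x1 x2 ∧ p.2 ∈ Icc (f p.1) (g p.1)} := fun p hp => h2 p hp
  refine (measure_mono hsub).trans (le_of_eq ?_)
  rw [Measure.volume_eq_prod, Measure.prod_apply
    (measurableSet_region_between_cc hf.measurable hg.measurable measurableSet_Icc)]
  have h : (fun x => volume { y | x ∈ Icc x1 x2 ∧ y ∈ Icc (f x) (g x) }) =
      (Icc x1 x2).indicator fun x => ENNReal.ofReal (g x - f x) := by
    funext x
    rw [indicator_apply]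
    split_ifs with h
    · have hx : { y | x ∈ Icc x1 x2 ∧ y ∈ Icc (f x) (g x) } = Icc (f x) (g x) := by
        ext y; simp only [mem_ofPred_eq]; exact ⟨fun h' => h'.2, fun h' => ⟨h, h'⟩⟩
      simp only [hx, Real.volume_Icc]
    · have hx : { y | x ∈ Icc x1 x2 ∧ y ∈ Icc (f x) (g x) } = ∅ := by
        ext y; simp only [mem_ofPred_eq, mem_empty_iff_false, iff_false]; exact fun h' => h h'.1
      simp only [hx, measure_empty]
  refine Eq.trans (congrArg (fun F => ∫⁻ x, F x) h) ?_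
  rw [lintegral_indicator measurableSet_Icc, intervalIntegral.integral_of_le h12,
    ← integral_Icc_eq_integral_Ioc, ofReal_integral_eq_lintegral_ofReal]
  · exact (hg.sub hf).continuousOn.integrableOn_Icc
  · filter_upwards [ae_restrict_mem measurableSet_Icc] with x hx
    exact sub_nonneg.2 (hfg x hx.1 hx.2)

theorem vol_ge {T : Set (ℝ × ℝ)} {x1 x2 : ℝ} (h12 : x1 ≤ x2) {f g : ℝ → ℝ} (hf : Continuous f)
    (hg : Continuous g) (hfg : ∀ x, x1 ≤ x → x ≤ x2 → f x ≤ g x)
    (h1 : ∀ p : ℝ × ℝ, x1 < p.1 → p.1 < x2 → f p.1 < p.2 → p.2 < g p.1 → p ∈ T) :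
    ENNReal.ofReal (∫ x in x1..x2, (g x - f x)) ≤ volume T := by
  have hsub : regionBetween f g (Ioo x1 x2) ⊆ T := fun p hp => h1 p hp.1.1 hp.1.2 hp.2.1 hp.2.2
  refine le_trans (le_of_eq ?_) (measure_mono hsub)
  rw [Measure.volume_eq_prod, volume_regionBetween_eq_integral
    (hf.continuousOn.integrableOn_Icc.mono_set Ioo_subset_Icc_self)
    (hg.continuousOn.integrableOn_Icc.mono_set Ioo_subset_Icc_self) measurableSet_Ioo
    (fun x hx => hfg x hx.1.le hx.2.le), intervalIntegral.integral_of_le h12,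
    integral_Ioc_eq_integral_Ioo]
  rfl

theorem Prof.vol {S : Set (ℝ × ℝ)} {a b : ℝ} {lo hi : ℝ → ℝ} (P : Prof S a b lo hi) :
    volume S = ENNReal.ofReal (∫ x in a..b, (hi x - lo x)) :=
  le_antisymm (vol_le P.le P.clo P.chi P.lohi fun p hp => (P.mem p).1 hp)
    (vol_ge P.le P.clo P.chi P.lohi fun p h1 h2 h3 h4 => (P.mem p).2 ⟨⟨h1.le, h2.le⟩, h3.le, h4.le⟩)

theorem vol_swap (T : Set (ℝ × ℝ)) : volume (Prod.swap ⁻¹' T) = volume T := by
  have h : MeasurePreserving (MeasurableEquiv.prodComm : ℝ × ℝ ≃ᵐ ℝ × ℝ) volume volume :=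
    Measure.measurePreserving_swap
  exact h.measure_preimage_equiv T

/-- the point of `[lo, hi]` nearest to `y` -/
noncomputable def med (lo hi y : ℝ) : ℝ := max lo (min y hi)

theorem med_mono (lo hi : ℝ) {y z : ℝ} (h : y ≤ z) : med lo hi y ≤ med lo hi z :=
  max_le_max le_rfl (min_le_min h le_rfl)

theorem le_med (lo hi y : ℝ) : lo ≤ med lo hi y := le_max_left _ _

theorem med_le {lo hi : ℝ} (h : lo ≤ hi) (y : ℝ) : med lo hi y ≤ hi :=
  max_le h (min_le_right _ _)

theorem med_eq {lo hi y : ℝ} (h1 : lo ≤ y) (h2 : y ≤ hi) : med lo hi y = y := by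
  unfold med; rw [min_eq_left h2, max_eq_right h1]

theorem med_near {lo hi z : ℝ} (h1 : lo ≤ z) (h2 : z ≤ hi) (y : ℝ) :
    |med lo hi y - y| ≤ |y - z| := by
  unfold med
  rcases le_total y z with h | h
  · rw [min_eq_left (h.trans h2), abs_of_nonpos (sub_nonpos.2 h),
      abs_of_nonneg (sub_nonneg.2 (le_max_right _ _))]
    linarith [max_le h1 h]
  · rw [max_eq_right (le_min (h1.trans h) (h1.trans h2)), abs_of_nonneg (sub_nonneg.2 h),
      abs_of_nonpos (sub_nonpos.2 (min_le_left _ _))]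
    linarith [le_min h h2]

theorem continuous_med {lo hi f : ℝ → ℝ} (h1 : Continuous lo) (h2 : Continuous hi)
    (h3 : Continuous f) : Continuous fun x => med (lo x) (hi x) (f x) :=
  h1.max (h3.min h2)

theorem vol_rect {S : Set (ℝ × ℝ)} {a b : ℝ} {lo hi : ℝ → ℝ} (P : Prof S a b lo hi)
    {x1 x2 h0 h1 : ℝ} (ha : a ≤ x1) (h12 : x1 ≤ x2) (hb : x2 ≤ b) (hh : h0 ≤ h1) :
    volume (S ∩ Icc x1 x2 ×ˢ Icc h0 h1) =
      ENNReal.ofReal (∫ x in x1..x2, (med (lo x) (hi x) h1 - med (lo x) (hi x) h0)) := by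
  have c1 := continuous_med P.clo P.chi (continuous_const (y := h1))
  have c0 := continuous_med P.clo P.chi (continuous_const (y := h0))
  refine le_antisymm (vol_le h12 c0 c1 (fun x _ _ => med_mono _ _ hh) ?_)
    (vol_ge h12 c0 c1 (fun x _ _ => med_mono _ _ hh) ?_)
  · rintro p ⟨hp, hx, hy⟩
    have := (P.mem p).1 hp
    exact ⟨hx, max_le this.2.1 ((min_le_left _ _).trans hy.1),
      le_max_of_le_right (le_min hy.2 this.2.2)⟩
  · intro p p1 p2 p3 p4
    have hl := P.lohi p.1 (by linarith) (by linarith)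
    have q1 : lo p.1 < p.2 := (le_med _ _ _).trans_lt p3
    have q2 : p.2 < hi p.1 := p4.trans_le (med_le hl _)
    refine ⟨(P.mem p).2 ⟨⟨by linarith, by linarith⟩, q1.le, q2.le⟩, ⟨p1.le, p2.le⟩, ?_, ?_⟩
    · have := (le_max_right _ _).trans_lt p3
      rcases min_lt_iff.1 this with h | h <;> linarith
    · rcases lt_max_iff.1 p4 with h | h
      · linarith
      · exact (h.trans_le (min_le_left _ _)).le

/-- a rectangle measured in two ways -/
theorem rect_eq {S : Set (ℝ × ℝ)} {a b c d : ℝ} {lo hi L R : ℝ → ℝ} (P : Prof S a b lo hi)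
    (Q : Prof (Prod.swap ⁻¹' S) c d L R) {x1 x2 h0 h1 : ℝ} (ha : a ≤ x1) (h12 : x1 ≤ x2)
    (hb : x2 ≤ b) (hc : c ≤ h0) (hh : h0 ≤ h1) (hd : h1 ≤ d) :
    ∫ x in x1..x2, (med (lo x) (hi x) h1 - med (lo x) (hi x) h0) =
      ∫ y in h0..h1, (med (L y) (R y) x2 - med (L y) (R y) x1) := by
  have e1 := vol_rect P ha h12 hb hh
  have e2 := vol_rect Q hc hh hd h12
  have e3 : Prod.swap ⁻¹' S ∩ Icc h0 h1 ×ˢ Icc x1 x2 =
      Prod.swap ⁻¹' (S ∩ Icc x1 x2 ×ˢ Icc h0 h1) := by
    ext p; simp only [mem_inter_iff, mem_preimage, mem_prod, Prod.fst_swap, Prod.snd_swap]; tauto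
  rw [e3, vol_swap, e1] at e2
  exact (ENNReal.ofReal_eq_ofReal_iff
    (intervalIntegral.integral_nonneg h12 fun x _ => sub_nonneg.2 (med_mono _ _ hh))
    (intervalIntegral.integral_nonneg hh fun x _ => sub_nonneg.2 (med_mono _ _ h12))).1 e2

end Pool.Agent.MP_cab9bb_co

end

section

set_option autoImplicit false

open MeasureTheory Set

namespace Pool.Agent.MP_cab9bb_co

theorem strip_vol {S : Set (ℝ × ℝ)} {Q D E : ℝ × ℝ} {T : ℝ}
    (h : ∀ x ∈ S, ∃ a c : ℝ, 0 ≤ a ∧ a ≤ 1 ∧ 0 ≤ c ∧ x = Q + (a • D + c • E))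
    (hT : ∀ x ∈ S, |cr D (x - Q)| ≤ T) : volume S ≤ ENNReal.ofReal T := by
  by_cases h0 : cr D E = 0
  · have hsub : S ⊆ (fun y => Q + y) '' (lin D E '' univ) := by
      intro x hx
      obtain ⟨a, c, -, -, -, rfl⟩ := h x hx
      exact ⟨_, ⟨(a, c), trivial, lin_apply D E _⟩, rfl⟩
    refine (measure_mono hsub).trans ?_
    rw [image_add_left, measure_preimage_add, volume_image_lin, h0]
    simp
  · have hp : 0 < |cr D E| := abs_pos.2 h0
    have hsub : S ⊆ (fun y => Q + y) '' (lin D E '' (Icc 0 1 ×ˢ Icc 0 (T / |cr D E|))) := by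
      intro x hx
      have h2 := hT x hx
      obtain ⟨a, c, a0, a1, c0, rfl⟩ := h x hx
      refine ⟨_, ⟨(a, c), ⟨⟨a0, a1⟩, c0, ?_⟩, lin_apply D E _⟩, rfl⟩
      have : cr D (Q + (a • D + c • E) - Q) = c * cr D E := by
        simp only [cr, add_sub_cancel_left, Prod.fst_add, Prod.snd_add, Prod.smul_fst,
          Prod.smul_snd, smul_eq_mul]
        ring
      rw [this, abs_mul, abs_of_nonneg c0] at h2
      exact (le_div_iff₀ hp).2 h2
    refine (measure_mono hsub).trans (le_of_eq ?_)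
    rw [image_add_left, measure_preimage_add, volume_image_lin, Measure.volume_eq_prod,
      Measure.prod_prod, Real.volume_Icc, Real.volume_Icc, sub_zero, sub_zero,
      ENNReal.ofReal_one, one_mul, ← ENNReal.ofReal_mul hp.le]
    congr 1
    field_simp

theorem two_cell0 {C : Set (ℝ × ℝ)} (hc : IsCompact C) (hv : Convex ℝ C) {T : ℝ} (T0 : 0 ≤ T)
    (h1 : ∀ a ∈ C, ∀ b ∈ C, ∀ c ∈ C, 0 < a.1 → 0 < b.1 → 0 < c.1 → cr (b - a) (c - a) ≤ T)
    (h2 : ∀ a ∈ C, ∀ b ∈ C, ∀ c ∈ C, a.1 < 0 → b.1 < 0 → c.1 < 0 → cr (b - a) (c - a) ≤ T) :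
    volume C ≤ ENNReal.ofReal (2 * T) := by
  rcases C.eq_empty_or_nonempty with rfl | hne
  · simp
  obtain ⟨a, b, lo, hi, P⟩ := exists_prof hc hv hne
  rw [P.vol]
  refine ENNReal.ofReal_le_ofReal ?_
  have ch : Continuous fun x => hi x - lo x := P.chi.sub P.clo
  have hab := P.le
  have hmid : 2 * ∫ x in a..b, (hi x - lo x) ≤
      (b - a) * (2 * (hi ((a + b) / 2) - lo ((a + b) / 2))) := by
    have e := intervalIntegral.integral_comp_sub_left (a := a) (b := b) (fun x => hi x - lo x)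
      (a + b)
    rw [show a + b - b = a by ring, show a + b - a = b by ring] at e
    have c2 : Continuous fun x => hi (a + b - x) - lo (a + b - x) := ch.comp (by fun_prop)
    have c3 : Continuous fun x => hi x - lo x + (hi (a + b - x) - lo (a + b - x)) := ch.add c2
    have := intervalIntegral.integral_mono_on hab (c3.intervalIntegrable (μ := volume) _ _)
      (continuous_const.intervalIntegrable
        (u := fun _ => 2 * (hi ((a + b) / 2) - lo ((a + b) / 2))) _ _) (fun x hx => by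
        rcases le_total x ((a + b) / 2) with h | h
        · have := P.inner_pair hv (x0 := x) (x1 := a + b - x) (y0 := (a + b) / 2)
            (y1 := (a + b) / 2) hx.1 (by linarith [hx.1]) h h (by ring)
          linarith [this.1, this.2]
        · have := P.inner_pair hv (x0 := a + b - x) (x1 := x) (y0 := (a + b) / 2)
            (y1 := (a + b) / 2) (by linarith [hx.2]) hx.2 (by linarith) (by linarith) (by ring)
          linarith [this.1, this.2])
    rw [intervalIntegral.integral_add (ch.intervalIntegrable _ _) (c2.intervalIntegrable _ _), e]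
      at this
    simp only [intervalIntegral.integral_const, smul_eq_mul] at this
    linarith
  rcases eq_or_lt_of_le hab with h | h
  · subst h; simp only [intervalIntegral.integral_same]; linarith
  have hm1 : a < (a + b) / 2 := by linarith
  have hm2 : (a + b) / 2 < b := by linarith
  rcases le_total 0 ((a + b) / 2) with hm | hm
  · have hcl : IsClosed {x | (hi x - lo x) * (b - x) ≤ T} :=
      isClosed_le (by fun_prop) continuous_const
    have : Ioo ((a + b) / 2) b ⊆ {x | (hi x - lo x) * (b - x) ≤ T} := by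
      intro x hx
      have := h1 _ (P.hi_mem (x := x) (by linarith [hx.1]) hx.2.le)
        _ (P.lo_mem (x := x) (by linarith [hx.1]) hx.2.le) _ (P.lo_mem hab le_rfl)
        (by simp only; linarith [hx.1]) (by simp only; linarith [hx.1]) (by simp only; linarith)
      simp only [cr, Prod.fst_sub, Prod.snd_sub] at this
      show _ ≤ T
      linarith
    have := hcl.closure_subset_iff.2 this
    rw [closure_Ioo hm2.ne] at this
    have : (hi ((a + b) / 2) - lo ((a + b) / 2)) * (b - (a + b) / 2) ≤ T := this ⟨le_rfl, hm2.le⟩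
    linarith
  · have hcl : IsClosed {x | (hi x - lo x) * (x - a) ≤ T} :=
      isClosed_le (by fun_prop) continuous_const
    have : Ioo a ((a + b) / 2) ⊆ {x | (hi x - lo x) * (x - a) ≤ T} := by
      intro x hx
      have := h2 _ (P.lo_mem (x := x) hx.1.le (by linarith [hx.2]))
        _ (P.hi_mem (x := x) hx.1.le (by linarith [hx.2])) _ (P.lo_mem le_rfl hab)
        (by simp only; linarith [hx.2]) (by simp only; linarith [hx.2]) (by simp only; linarith)
      simp only [cr, Prod.fst_sub, Prod.snd_sub] at this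
      show _ ≤ T
      linarith
    have := hcl.closure_subset_iff.2 this
    rw [closure_Ioo hm1.ne] at this
    have : (hi ((a + b) / 2) - lo ((a + b) / 2)) * ((a + b) / 2 - a) ≤ T := this ⟨hm1.le, le_rfl⟩
    linarith

theorem two_cell {C : Set (ℝ × ℝ)} (hc : IsCompact C) (hv : Convex ℝ C) {T : ℝ} (T0 : 0 ≤ T)
    {D Q : ℝ × ℝ} (hD : D ≠ 0)
    (h1 : ∀ a ∈ C, ∀ b ∈ C, ∀ c ∈ C, 0 < cr D (a - Q) → 0 < cr D (b - Q) → 0 < cr D (c - Q) →
      cr (b - a) (c - a) ≤ T)
    (h2 : ∀ a ∈ C, ∀ b ∈ C, ∀ c ∈ C, cr D (a - Q) < 0 → cr D (b - Q) < 0 → cr D (c - Q) < 0 →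
      cr (b - a) (c - a) ≤ T) :
    volume C ≤ ENNReal.ofReal (2 * T) := by
  have hn : 0 < D.1 ^ 2 + D.2 ^ 2 := by
    by_contra h
    apply hD
    ext <;> simp <;> nlinarith [sq_nonneg D.1, sq_nonneg D.2]
  set n := D.1 ^ 2 + D.2 ^ 2 with hn'
  let E : ℝ × ℝ := (D.2 / n, -D.1 / n)
  have hE : cr E D = 1 := by
    simp only [cr, E]; field_simp; ring
  let N : ℝ × ℝ → ℝ × ℝ := fun x => (cr (x - Q) D, cr E (x - Q))
  have hMN : ∀ x, Q + lin E D (N x) = x := by
    intro x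
    rw [lin_apply]
    simp only [cr] at hE
    ext
    · simp only [N, cr, Prod.fst_add, Prod.smul_fst, smul_eq_mul, Prod.fst_sub, Prod.snd_sub]
      linear_combination (x.1 - Q.1) * hE
    · simp only [N, cr, Prod.snd_add, Prod.smul_snd, smul_eq_mul, Prod.fst_sub, Prod.snd_sub]
      linear_combination (x.2 - Q.2) * hE
  have hcr : ∀ a b c, cr (N b - N a) (N c - N a) = cr (b - a) (c - a) := by
    intro a b c
    simp only [cr] at hE
    simp only [N, cr, Prod.fst_sub, Prod.snd_sub]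
    linear_combination ((b.1 - a.1) * (c.2 - a.2) - (b.2 - a.2) * (c.1 - a.1)) * hE
  have hanti : ∀ x, cr (x - Q) D = -cr D (x - Q) := fun x => by simp only [cr]; ring
  have key := two_cell0 (C := N '' C) (hc.image (by unfold N cr; fun_prop)) (by
      rintro _ ⟨x, hx, rfl⟩ _ ⟨y, hy, rfl⟩ s t hs ht hst
      refine ⟨_, hv hx hy hs ht hst, ?_⟩
      have : t = 1 - s := by linarith
      subst this
      ext <;> simp [N, cr] <;> ring) T0 (by
      rintro _ ⟨a, ha, rfl⟩ _ ⟨b, hb, rfl⟩ _ ⟨c, hc, rfl⟩ a1 b1 c1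
      rw [hcr]
      simp only [N, hanti] at a1 b1 c1
      exact h2 a ha b hb c hc (by linarith) (by linarith) (by linarith)) (by
      rintro _ ⟨a, ha, rfl⟩ _ ⟨b, hb, rfl⟩ _ ⟨c, hc, rfl⟩ a1 b1 c1
      rw [hcr]
      simp only [N, hanti] at a1 b1 c1
      exact h1 a ha b hb c hc (by linarith) (by linarith) (by linarith))
  have hsub : C ⊆ (fun y => Q + y) '' (lin E D '' (N '' C)) := fun x hx =>
    ⟨_, ⟨_, ⟨x, hx, rfl⟩, rfl⟩, hMN x⟩
  refine (measure_mono hsub).trans ?_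
  rwa [image_add_left, measure_preimage_add, volume_image_lin, hE, abs_one, ENNReal.ofReal_one,
    one_mul]

theorem three_cell {C : Set (ℝ × ℝ)} (hc : IsCompact C) (hv : Convex ℝ C) {T : ℝ} (T0 : 0 ≤ T)
    {D Q D' Q' : ℝ × ℝ} (hD : D ≠ 0 ∨ D' ≠ 0) {S1 S2 S3 : Set (ℝ × ℝ)}
    (t1 : ∀ a ∈ S1, ∀ b ∈ S1, ∀ c ∈ S1, cr (b - a) (c - a) ≤ T)
    (t2 : ∀ a ∈ S2, ∀ b ∈ S2, ∀ c ∈ S2, cr (b - a) (c - a) ≤ T)
    (t3 : ∀ a ∈ S3, ∀ b ∈ S3, ∀ c ∈ S3, cr (b - a) (c - a) ≤ T)
    (h1 : ∀ x ∈ C, 0 < cr D (x - Q) → x ∈ S1) (h3 : ∀ x ∈ C, 0 < cr D' (x - Q') → x ∈ S3)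
    (h2 : ∀ x ∈ C, cr D (x - Q) ≤ 0 → cr D' (x - Q') ≤ 0 →
      cr D (x - Q) < 0 ∨ cr D' (x - Q') < 0 → x ∈ S2)
    (hcap : volume {x | x ∈ C ∧ 0 < cr D (x - Q)} ≤ ENNReal.ofReal T) :
    volume C ≤ ENNReal.ofReal (3 * T) := by
  by_cases hD' : D' = 0
  · subst hD'
    have hD : D ≠ 0 := hD.resolve_right (by simp)
    have z : ∀ x : ℝ × ℝ, cr 0 x ≤ 0 := fun x => by simp [cr]
    refine (two_cell hc hv T0 (Q := Q) hD
      (fun a ha b hb c hc a1 b1 c1 => t1 a (h1 a ha a1) b (h1 b hb b1) c (h1 c hc c1))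
      (fun a ha b hb c hc a1 b1 c1 => t2 a (h2 a ha a1.le (z _) (Or.inl a1))
        b (h2 b hb b1.le (z _) (Or.inl b1)) c (h2 c hc c1.le (z _) (Or.inl c1)))).trans
      (ENNReal.ofReal_le_ofReal (by linarith))
  · have key := two_cell (C := C ∩ {x | cr D (x - Q) ≤ 0})
      (hc.inter_right (isClosed_le (by unfold cr; fun_prop) continuous_const))
      (hv.inter (by
        intro x hx y hy s t hs ht hst
        have : t = 1 - s := by linarith
        subst this
        have hx' : cr D (x - Q) ≤ 0 := hx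
        have hy' : cr D (y - Q) ≤ 0 := hy
        show cr D (_ - Q) ≤ 0
        simp only [cr, Prod.fst_sub, Prod.snd_sub, Prod.fst_add, Prod.snd_add, Prod.smul_fst,
          Prod.smul_snd, smul_eq_mul] at hx' hy' ⊢
        nlinarith [mul_nonneg hs (neg_nonneg.2 hx'), mul_nonneg ht (neg_nonneg.2 hy')]))
      T0 (Q := Q') hD'
      (fun a ha b hb c hc a1 b1 c1 => t3 a (h3 a ha.1 a1) b (h3 b hb.1 b1) c (h3 c hc.1 c1))
      (fun a ha b hb c hc a1 b1 c1 => t2 a (h2 a ha.1 ha.2 a1.le (Or.inr a1))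
        b (h2 b hb.1 hb.2 b1.le (Or.inr b1)) c (h2 c hc.1 hc.2 c1.le (Or.inr c1)))
    have hsub : C ⊆ {x | x ∈ C ∧ 0 < cr D (x - Q)} ∪ C ∩ {x | cr D (x - Q) ≤ 0} := fun x hx =>
      (lt_or_ge 0 (cr D (x - Q))).elim (fun h => Or.inl ⟨hx, h⟩) fun h => Or.inr ⟨hx, h⟩
    refine (measure_mono hsub).trans ((measure_union_le _ _).trans ((add_le_add hcap key).trans
      (le_of_eq ?_)))
    rw [← ENNReal.ofReal_add T0 (by linarith)]
    congr 1; ring

theorem tri_mem {S : Set (ℝ × ℝ)} (hv : Convex ℝ S) {A B C X : ℝ × ℝ} (hA : A ∈ S) (hB : B ∈ S)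
    (hC : C ∈ S) (h1 : cr (B - A) (X - A) ≤ 0) (h2 : cr (C - B) (X - B) ≤ 0)
    (h3 : cr (A - C) (X - C) ≤ 0)
    (h : cr (B - A) (X - A) + cr (C - B) (X - B) + cr (A - C) (X - C) < 0) : X ∈ S := by
  set p := -cr (C - B) (X - B) with hp
  set q := -cr (A - C) (X - C) with hq
  set r := -cr (B - A) (X - A) with hr
  have hs : 0 < p + q + r := by linarith
  have := hv.sum_mem (t := Finset.univ) (w := ![p / (p + q + r), q / (p + q + r), r / (p + q + r)])
    (z := ![A, B, C]) (by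
      intro i _
      fin_cases i <;> simp <;> apply div_nonneg <;> linarith) (by
      simp only [Fin.sum_univ_three, Matrix.cons_val_zero, Matrix.cons_val_one, Matrix.cons_val]
      field_simp) (by
      intro i _
      fin_cases i <;> simpa)
  convert this using 1
  simp only [Fin.sum_univ_three, Matrix.cons_val_zero, Matrix.cons_val_one, Matrix.cons_val]
  ext
  · simp only [Prod.fst_add, Prod.smul_fst, smul_eq_mul]
    field_simp
    simp only [hp, hq, hr, cr, Prod.fst_sub, Prod.snd_sub]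
    ring
  · simp only [Prod.snd_add, Prod.smul_snd, smul_eq_mul]
    field_simp
    simp only [hp, hq, hr, cr, Prod.fst_sub, Prod.snd_sub]
    ring

theorem quad_mem {S : Set (ℝ × ℝ)} (hv : Convex ℝ S) {A B C D X : ℝ × ℝ} (hA : A ∈ S) (hB : B ∈ S)
    (hC : C ∈ S) (hD : D ∈ S) (h1 : cr (B - A) (X - A) ≤ 0) (h2 : cr (C - B) (X - B) ≤ 0)
    (h3 : cr (D - C) (X - C) ≤ 0) (h4 : cr (A - D) (X - D) ≤ 0)
    (h : cr (B - A) (X - A) + cr (C - B) (X - B) + cr (D - C) (X - C) + cr (A - D) (X - D) < 0) :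
    X ∈ S := by
  have e : cr (A - C) (X - C) = -cr (C - A) (X - A) := by
    simp only [cr, Prod.fst_sub, Prod.snd_sub]; ring
  rcases lt_trichotomy (cr (C - A) (X - A)) 0 with h5 | h5 | h5
  · exact tri_mem hv hA hC hD h5.le h3 h4 (by linarith)
  · by_cases h6 : cr (B - A) (X - A) + cr (C - B) (X - B) < 0
    · exact tri_mem hv hA hB hC h1 h2 (by linarith) (by linarith)
    · exact tri_mem hv hA hC hD h5.le h3 h4 (by linarith)
  · exact tri_mem hv hA hB hC h1 h2 (by linarith) (by linarith)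

/-- a cap whose supporting lines do not diverge lies in a strip -/
theorem cap_vol {C S : Set (ℝ × ℝ)} {T : ℝ} {P Q s r : ℝ × ℝ} (hP : P ∈ C) (hQ : Q ∈ C)
    (hs : ∀ x ∈ C, cr s (x - P) ≤ 0) (hr : ∀ x ∈ C, cr r (x - Q) ≤ 0) (hsr : cr s r ≤ 0)
    (s0 : s.1 ≠ 0) (r0 : r.1 ≠ 0) (hx : s.1 * r.1 < 0 ∨ 0 ≤ s.1 * (Q.1 - P.1))
    (tS : ∀ a ∈ S, ∀ b ∈ S, ∀ c ∈ S, cr (b - a) (c - a) ≤ T) (PS : P ∈ S) (QS : Q ∈ S)
    (hS : ∀ x ∈ C, 0 < cr (Q - P) (x - P) → x ∈ S) :
    volume {x | x ∈ C ∧ 0 < cr (Q - P) (x - P)} ≤ ENNReal.ofReal T := by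
  refine strip_vol (Q := P) (D := Q - P) (E := s) ?_ fun x hx => by
    rw [abs_of_pos hx.2]; exact tS _ PS _ QS _ (hS x hx.1 hx.2)
  rintro X ⟨hX, hpos⟩
  have a1 := hs _ hQ
  have a2 := hr _ hP
  have a3 := hs _ hX
  have a4 := hr _ hX
  obtain ⟨d1, hd1⟩ : ∃ d, d = Q.1 - P.1 := ⟨_, rfl⟩
  obtain ⟨d2, hd2⟩ : ∃ d, d = Q.2 - P.2 := ⟨_, rfl⟩
  obtain ⟨y1, hy1⟩ : ∃ d, d = X.1 - P.1 := ⟨_, rfl⟩
  obtain ⟨y2, hy2⟩ : ∃ d, d = X.2 - P.2 := ⟨_, rfl⟩
  simp only [cr, Prod.fst_sub, Prod.snd_sub] at a1 a2 a3 a4 hpos hsr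
  rw [show X.1 - Q.1 = y1 - d1 by linarith, show X.2 - Q.2 = y2 - d2 by linarith] at a4
  rw [show P.1 - Q.1 = -d1 by linarith, show P.2 - Q.2 = -d2 by linarith] at a2
  rw [← hd1, ← hd2] at a1
  rw [← hy1, ← hy2] at a3
  rw [← hd1, ← hd2, ← hy1, ← hy2] at hpos
  rw [← hd1] at hx
  rcases eq_or_lt_of_le (show 0 ≤ d1 * s.2 - d2 * s.1 by linarith) with h0 | h0
  · exfalso
    have p1 : (d1 * y2 - d2 * y1) * (s.1 * r.2 - s.2 * r.1) +
        (d1 * r.2 - d2 * r.1) * (y1 * s.2 - y2 * s.1) = 0 := by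
      linear_combination (-(y1 * r.2 - y2 * r.1)) * h0
    have p2 : (d1 * r.2 - d2 * r.1) * (y1 * s.2 - y2 * s.1) ≤ 0 :=
      mul_nonpos_of_nonpos_of_nonneg (by linarith) (by linarith)
    have p3 : s.1 * r.2 - s.2 * r.1 = 0 := by
      by_contra h
      have := mul_neg_of_pos_of_neg hpos (lt_of_le_of_ne hsr h)
      linarith
    have p4 : s.1 * s.1 * (d1 * y2 - d2 * y1) = s.1 * d1 * (s.1 * y2 - s.2 * y1) := by
      linear_combination (-(s.1 * y1)) * h0
    have p5 : s.1 * s.1 * (r.1 * (y2 - d2) - r.2 * (y1 - d1)) = s.1 * r.1 * (s.1 * y2 - s.2 * y1) := by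
      linear_combination (-(s.1 * (y1 - d1))) * p3 - (s.1 * r.1) * h0
    have q0 : 0 < s.1 * s.1 := mul_self_pos.2 s0
    have q1 := mul_pos q0 hpos
    have q2 : s.1 * y2 - s.2 * y1 < 0 := by
      rcases eq_or_lt_of_le a3 with h | h
      · rw [p4, h] at q1; simp at q1
      · exact h
    rcases hx with h | h
    · have := mul_pos_of_neg_of_neg h q2
      have := mul_nonpos_of_nonneg_of_nonpos q0.le a4
      linarith
    · have := mul_nonpos_of_nonneg_of_nonpos h a3
      linarith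
  · refine ⟨(y1 * s.2 - y2 * s.1) / (d1 * s.2 - d2 * s.1), (d1 * y2 - d2 * y1) / (d1 * s.2 - d2 * s.1),
      div_nonneg (by linarith) h0.le, ?_, div_nonneg hpos.le h0.le, ?_⟩
    · rw [div_le_one h0]
      by_contra hlt
      push Not at hlt
      have p1 : (d1 * s.2 - d2 * s.1) * (r.1 * (y2 - d2) - r.2 * (y1 - d1)) =
          (y1 * s.2 - y2 * s.1 - (d1 * s.2 - d2 * s.1)) * (r.1 * d2 - r.2 * d1) +
          (d1 * y2 - d2 * y1) * (r.1 * s.2 - r.2 * s.1) := by ring
      have p2 := mul_nonpos_of_nonneg_of_nonpos h0.le a4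
      have p3 : 0 ≤ (y1 * s.2 - y2 * s.1 - (d1 * s.2 - d2 * s.1)) * (r.1 * d2 - r.2 * d1) :=
        mul_nonneg (by linarith) (by linarith)
      have p4 : 0 ≤ (d1 * y2 - d2 * y1) * (r.1 * s.2 - r.2 * s.1) :=
        mul_nonneg hpos.le (by linarith)
      have p5 : r.1 * d2 - r.2 * d1 = 0 :=
        (mul_eq_zero.1 (show (y1 * s.2 - y2 * s.1 - (d1 * s.2 - d2 * s.1)) * _ = 0 by
          linarith)).resolve_left (by linarith)
      have p6 : r.1 * s.2 - r.2 * s.1 = 0 :=
        (mul_eq_zero.1 (show (d1 * y2 - d2 * y1) * _ = 0 by linarith)).resolve_left hpos.ne'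
      have p7 : r.1 * (d1 * s.2 - d2 * s.1) = 0 := by linear_combination d1 * p6 - s.1 * p5
      exact r0 ((mul_eq_zero.1 p7).resolve_right h0.ne')
    · obtain ⟨δ, hδ⟩ : ∃ d, d = d1 * s.2 - d2 * s.1 := ⟨_, rfl⟩
      rw [← hδ] at h0 ⊢
      have h0' := h0.ne'
      ext
      · simp only [Prod.fst_add, Prod.smul_fst, smul_eq_mul, Prod.fst_sub, ← hd1]
        have : X.1 = P.1 + y1 := by linarith
        rw [this]; field_simp; rw [hδ]; ring
      · simp only [Prod.snd_add, Prod.smul_snd, smul_eq_mul, Prod.snd_sub, ← hd2]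
        have : X.2 = P.2 + y2 := by linarith
        rw [this]; field_simp; rw [hδ]; ring

end Pool.Agent.MP_cab9bb_co

end
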