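import Mathlib
import Pool.Agent.Mg.Fcab9bb.Gbb3c56

section

set_option autoImplicit false

namespace Pool.Agent.MP_cab9bb_co

variable {ι : Type*}

/-- sum of `ω next previous` along a chain -/
def cs (ω : ι → ι → ℝ) : ι → List ι → ℝ
  | _, [] => 0
  | a, c :: l => ω c a + cs ω c l

/-- last element of a chain -/
def lst : ι → List ι → ι
  | a, [] => a
  | _, c :: l => lst c l

theorem lst_mem : ∀ (a : ι) (l : List ι), lst a l ∈ a :: l
  | a, [] => by simp [lst]
  | a, c :: l => List.mem_cons_of_mem _ (lst_mem c l)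

/-- a sorted chain of overlapping intervals which reaches the level `U` -/
def Good (ok : ι → Prop) (rel : ι → ι → Prop) (lo hi : ι → ℝ) (U : ℝ) : ι → List ι → Prop
  | a, [] => ok a ∧ lo a ≤ hi a ∧ lo a ≤ U ∧ U ≤ hi a
  | a, c :: l => ok a ∧ lo a ≤ hi a ∧ lo a ≤ U ∧ lo c ≤ hi a ∧
      (∀ j ∈ c :: l, rel a j ∧ lo a ≤ lo j ∧ hi a ≤ hi j) ∧ Good ok rel lo hi U c l

section
variable {ok : ι → Prop} {rel : ι → ι → Prop} {lo hi : ι → ℝ} {U : ℝ}

theorem Good.head {a : ι} {l : List ι} (h : Good ok rel lo hi U a l) :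
    ok a ∧ lo a ≤ hi a ∧ lo a ≤ U := by
  cases l with
  | nil => exact ⟨h.1, h.2.1, h.2.2.1⟩
  | cons c l => exact ⟨h.1, h.2.1, h.2.2.1⟩

theorem Good.rel_of_mem {a : ι} {l : List ι} (h : Good ok rel lo hi U a l) {j : ι} (hj : j ∈ l) :
    rel a j ∧ lo a ≤ lo j ∧ hi a ≤ hi j := by
  cases l with
  | nil => simp at hj
  | cons c l => exact h.2.2.2.2.1 j hj

theorem Good.all : ∀ {a : ι} {l : List ι}, Good ok rel lo hi U a l → ∀ j ∈ a :: l,
    ok j ∧ lo j ≤ hi j ∧ lo j ≤ U
  | a, [], h, j, hj => by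
    rw [List.mem_singleton] at hj
    subst hj; exact h.head
  | a, c :: l, h, j, hj => by
    rcases List.mem_cons.1 hj with rfl | hj
    · exact h.head
    · exact Good.all h.2.2.2.2.2 j hj

theorem Good.last : ∀ {a : ι} {l : List ι}, Good ok rel lo hi U a l → U ≤ hi (lst a l)
  | _, [], h => h.2.2.2
  | _, c :: l, h => Good.last (a := c) (l := l) h.2.2.2.2.2

end

/-- size of the symmetric difference -/
def sd [DecidableEq ι] (A B : Finset ι) : ℕ := (A \ B).card + (B \ A).card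

theorem sd_comm [DecidableEq ι] (A B : Finset ι) : sd A B = sd B A := by
  unfold sd; omega

theorem sd_insert_mem [DecidableEq ι] {A B : Finset ι} {o : ι} (hB : o ∉ B) (hA : o ∈ A) :
    sd A B = sd A (insert o B) + 1 := by
  unfold sd
  have e1 : A \ B = insert o (A \ insert o B) := by
    ext x
    simp only [Finset.mem_sdiff, Finset.mem_insert]
    by_cases h : x = o
    · subst h; tauto
    · tauto
  have e2 : insert o B \ A = B \ A := Finset.insert_sdiff_of_mem _ hA
  rw [e1, e2, Finset.card_insert_of_notMem (by simp)]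
  omega

theorem sd_insert_notMem [DecidableEq ι] {A B : Finset ι} {o : ι} (hB : o ∉ B) (hA : o ∉ A) :
    sd A (insert o B) = sd A B + 1 := by
  unfold sd
  have e1 : A \ insert o B = A \ B := by
    ext x
    simp only [Finset.mem_sdiff, Finset.mem_insert]
    by_cases h : x = o
    · subst h; tauto
    · tauto
  have e2 : insert o B \ A = insert o (B \ A) := Finset.insert_sdiff_of_notMem _ hA
  rw [e1, e2, Finset.card_insert_of_notMem (by simp [hB])]
  omega

/-- indicator of `a ≠ b` -/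
noncomputable def nq [DecidableEq ι] (a b : ι) : ℝ := if a = b then 0 else 1

theorem zip [DecidableEq ι] {ok : ι → Prop} {rel : ι → ι → Prop} {lo hi : ι → ℝ} {U T : ℝ}
    {ω : ι → ι → ℝ} (hω : ∀ i j, ω i j = -ω j i) (hasym : ∀ i j, rel i j → ¬ rel j i)
    (htri : ∀ i j k, ok i → ok j → ok k → ∀ y, lo i ≤ y → y ≤ hi i → lo j ≤ y → y ≤ hi j →
      lo k ≤ y → y ≤ hi k → ω i j + ω j k + ω k i ≤ T) :
    ∀ (m : ℕ) (o : ι) (O : List ι) (n : ι) (N : List ι), O.length + N.length = m →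
      Good ok rel lo hi U o O → Good ok rel lo hi U n N → lo n ≤ hi o → lo o ≤ hi n →
      cs ω o O - cs ω n N + ω (lst n N) (lst o O) + ω o n ≤
        T * ((sd (n :: N).toFinset (o :: O).toFinset : ℝ) - nq n o - nq (lst n N) (lst o O)) := by
  have hω0 : ∀ i, ω i i = 0 := fun i => by linarith [hω i i]
  have hirr : ∀ i, ¬ rel i i := fun i h => hasym i i h h
  intro m
  induction m with
  | zero =>
    intro o O n N hm _ _ _ _
    have hO : O = [] := List.length_eq_zero_iff.1 (by omega)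
    have hN : N = [] := List.length_eq_zero_iff.1 (by omega)
    subst hO hN
    simp only [cs, lst]
    by_cases h : n = o
    · subst h; simp [sd, nq, hω0]
    · have h' : ¬ o = n := fun e => h e.symm
      have : sd [n].toFinset [o].toFinset = 2 := by
        unfold sd
        simp [Finset.sdiff_singleton_eq_erase, Finset.erase_eq_of_notMem, h, h']
      rw [this, nq, if_neg h, hω n o]
      norm_num
  | succ m ih =>
    intro o O n N hm gO gN r1 r2
    have hcase : (∃ o' O', O = o' :: O' ∧ (o = n ∨ o ∉ n :: N) ∧ lo o' ≤ hi n) ∨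
        (∃ n' N', N = n' :: N' ∧ (n = o ∨ n ∉ o :: O) ∧ lo n' ≤ hi o) := by
      by_cases hno : n = o
      · subst hno
        cases N with
        | cons n' N' => exact Or.inr ⟨n', N', rfl, Or.inl rfl, gN.2.2.2.1⟩
        | nil =>
          cases O with
          | nil => simp at hm
          | cons o' O' => exact Or.inl ⟨o', O', rfl, Or.inl rfl, gO.2.2.2.1⟩
      · have hon : ¬ o = n := fun e => hno e.symm
        by_cases h1 : n ∈ O
        · have h2 : o ∉ N := fun h => hasym _ _ (gO.rel_of_mem h1).1 (gN.rel_of_mem h).1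
          cases O with
          | nil => simp at h1
          | cons o' O' =>
            refine Or.inl ⟨o', O', rfl, Or.inr (by simp [hon, h2]), ?_⟩
            rcases List.mem_cons.1 h1 with rfl | h1
            · exact gN.head.2.1
            · exact (gO.2.2.2.2.2.rel_of_mem h1).2.1.trans gN.head.2.1
        · by_cases h2 : o ∈ N
          · cases N with
            | nil => simp at h2
            | cons n' N' =>
              refine Or.inr ⟨n', N', rfl, Or.inr (by simp [hno, h1]), ?_⟩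
              rcases List.mem_cons.1 h2 with rfl | h2
              · exact gO.head.2.1
              · exact (gN.2.2.2.2.2.rel_of_mem h2).2.1.trans gO.head.2.1
          · have k1 : o ∉ n :: N := by simp [hon, h2]
            have k2 : n ∉ o :: O := by simp [hno, h1]
            cases N with
            | nil =>
              cases O with
              | nil => simp at hm
              | cons o' O' =>
                exact Or.inl ⟨o', O', rfl, Or.inr k1, gO.2.2.2.2.2.head.2.2.trans gN.2.2.2⟩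
            | cons n' N' =>
              cases O with
              | nil =>
                exact Or.inr ⟨n', N', rfl, Or.inr k2, gN.2.2.2.2.2.head.2.2.trans gO.2.2.2⟩
              | cons o' O' =>
                rcases le_total (hi n) (hi o) with h | h
                · exact Or.inr ⟨n', N', rfl, Or.inr k2, gN.2.2.2.1.trans h⟩
                · exact Or.inl ⟨o', O', rfl, Or.inr k1, gO.2.2.2.1.trans h⟩
    rcases hcase with ⟨o', O', rfl, hc, r3⟩ | ⟨n', N', rfl, hc, r3⟩
    · obtain ⟨g1, g2, -, g4, g5, g6⟩ := gO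
      have g7 := g5 o' (by simp)
      have key := ih o' O' n N (by simp at hm; omega) g6 gN (r1.trans g7.2.2) r3
      have hnot : o ∉ (o' :: O').toFinset := fun h => hirr _ (g5 o (List.mem_toFinset.1 h)).1
      have hoo : o ≠ o' := fun h => hnot (by simp [h])
      rw [List.toFinset_cons (a := o)]
      simp only [cs, lst]
      rcases hc with rfl | hc
      · rw [sd_insert_mem hnot (by simp), nq, if_neg hoo] at key
        rw [nq, if_pos rfl, hω0]
        push_cast at key
        linarith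
      · rw [sd_insert_notMem hnot (fun h => hc (List.mem_toFinset.1 h))]
        have hne : n ≠ o := fun h => hc (by simp [h])
        rw [nq, if_neg hne]
        push_cast
        by_cases h : n = o'
        · subst h
          rw [nq, if_pos rfl, hω0] at key
          linarith [hω n o]
        · rw [nq, if_neg h] at key
          have := htri o' o n g6.head.1 g1 gN.head.1 (max (lo o') (lo n)) (le_max_left _ _)
            (max_le g6.head.2.1 (r1.trans g7.2.2)) (g7.2.1.trans (le_max_left _ _))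
            (max_le g4 r1) (le_max_right _ _) (max_le r3 gN.head.2.1)
          linarith [hω n o']
    · obtain ⟨g1, g2, -, g4, g5, g6⟩ := gN
      have g7 := g5 n' (by simp)
      have key := ih o O n' N' (by simp at hm; omega) gO g6 r3 (r2.trans g7.2.2)
      have hnot : n ∉ (n' :: N').toFinset := fun h => hirr _ (g5 n (List.mem_toFinset.1 h)).1
      have hoo : n' ≠ n := fun h => hnot (by simp [h])
      rw [List.toFinset_cons (a := n), sd_comm]
      rw [sd_comm] at key
      simp only [cs, lst]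
      rcases hc with rfl | hc
      · rw [sd_insert_mem hnot (by simp), nq, if_neg hoo] at key
        rw [nq, if_pos rfl, hω0]
        push_cast at key
        linarith [hω n n']
      · rw [sd_insert_notMem hnot (fun h => hc (List.mem_toFinset.1 h))]
        have hne : n ≠ o := fun h => hc (by simp [h])
        rw [nq, if_neg hne]
        push_cast
        by_cases h : n' = o
        · subst h
          rw [nq, if_pos rfl, hω0] at key
          linarith
        · rw [nq, if_neg h] at key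
          have := htri n n' o g1 g6.head.1 gO.head.1 (max (lo n') (lo o))
            (g7.2.1.trans (le_max_left _ _)) (max_le g4 r2) (le_max_left _ _)
            (max_le g6.head.2.1 (r2.trans g7.2.2)) (le_max_right _ _) (max_le r3 gO.head.2.1)
          linarith [hω n n', hω o n']

end Pool.Agent.MP_cab9bb_co

end

section

set_option autoImplicit false
set_option linter.unusedSectionVars false

open Set

namespace Pool.Agent.MP_cab9bb_co

section walk
variable {ι : Type*}

/-- a walk through the labels along a parameter interval -/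
def Wk (cov : ι → ℝ → Prop) : ℝ → ι → List (ℝ × ι) → ℝ → ι → Prop
  | s, a, [], e, z => s ≤ e ∧ a = z ∧ ∀ x, s ≤ x → x ≤ e → cov a x
  | s, a, p :: W, e, z => s ≤ p.1 ∧ a ≠ p.2 ∧ (∀ x, s ≤ x → x ≤ p.1 → cov a x) ∧
      Wk cov p.1 p.2 W e z

variable {cov : ι → ℝ → Prop}

theorem Wk.le : ∀ {s : ℝ} {a : ι} {W : List (ℝ × ι)} {e : ℝ} {z : ι}, Wk cov s a W e z → s ≤ e
  | _, _, [], _, _, h => h.1
  | _, _, p :: W, _, _, h => h.1.trans (Wk.le (s := p.1) (a := p.2) (W := W) h.2.2.2)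

theorem Wk.start {s : ℝ} {a : ι} {W : List (ℝ × ι)} {e : ℝ} {z : ι} (h : Wk cov s a W e z) :
    cov a s := by
  cases W with
  | nil => exact h.2.2 s le_rfl h.1
  | cons p W => exact h.2.2.1 s le_rfl h.1

theorem Wk.ext_left {s s' : ℝ} {a : ι} {W : List (ℝ × ι)} {e : ℝ} {z : ι} (h : Wk cov s a W e z)
    (hs : s' ≤ s) (hc : ∀ x, s' ≤ x → x ≤ s → cov a x) : Wk cov s' a W e z := by
  cases W with
  | nil =>
    exact ⟨hs.trans h.1, h.2.1, fun x h1 h2 =>
      (le_total x s).elim (fun h3 => hc x h1 h3) fun h3 => h.2.2 x h3 h2⟩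
  | cons p W =>
    exact ⟨hs.trans h.1, h.2.1, fun x h1 h2 =>
      (le_total x s).elim (fun h3 => hc x h1 h3) fun h3 => h.2.2.1 x h3 h2, h.2.2.2⟩

theorem Wk.ext_right {e e' : ℝ} {z : ι} (he : e ≤ e') (hc : ∀ x, e ≤ x → x ≤ e' → cov z x) :
    ∀ {s : ℝ} {a : ι} {W : List (ℝ × ι)}, Wk cov s a W e z → Wk cov s a W e' z
  | _, _, [], h => ⟨h.1.trans he, h.2.1, fun x h1 h2 =>
      (le_total x e).elim (fun h3 => h.2.2 x h1 h3) fun h3 => h.2.1 ▸ hc x h3 h2⟩
  | _, _, p :: W, h => ⟨h.1, h.2.1, h.2.2.1,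
      Wk.ext_right he hc (s := p.1) (a := p.2) (W := W) h.2.2.2⟩

variable [DecidableEq ι] {ω : ι → ι → ℝ}

theorem Wk.seam_cons (hω : ∀ i, ω i i = 0) {s : ℝ} {c : ι} {W : List (ℝ × ι)} {e : ℝ} {z : ι}
    (h : Wk cov s c W e z) {a : ι} (ha : cov a s) :
    ∃ W', Wk cov s a W' e z ∧ cs ω a (W'.map Prod.snd) = ω c a + cs ω c (W.map Prod.snd) ∧
      (W'.length : ℝ) = W.length + nq c a := by
  by_cases hca : c = a
  · subst hca
    exact ⟨W, h, by simp [hω], by simp [nq]⟩
  · refine ⟨(s, c) :: W, ⟨le_rfl, fun e => hca e.symm, fun x h1 h2 => ?_, h⟩, rfl, by simp [nq, hca]⟩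
    rw [show x = s from le_antisymm h2 h1]; exact ha

theorem Wk.seam_snoc (hω : ∀ i, ω i i = 0) {e : ℝ} {z z' : ι} (hz : cov z' e) :
    ∀ {s : ℝ} {a : ι} {W : List (ℝ × ι)}, Wk cov s a W e z →
    ∃ W', Wk cov s a W' e z' ∧ cs ω a (W'.map Prod.snd) = cs ω a (W.map Prod.snd) + ω z' z ∧
      (W'.length : ℝ) = W.length + nq z' z
  | s, a, [], h => by
    obtain ⟨h1, rfl, h3⟩ := h
    by_cases hca : z' = a
    · subst hca
      exact ⟨[], ⟨h1, rfl, h3⟩, by simp [hω], by simp [nq]⟩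
    · refine ⟨[(e, z')], ⟨h1, fun e => hca e.symm, h3, le_rfl, rfl, fun x h1 h2 => ?_⟩,
        by simp [cs], by simp [nq, hca]⟩
      rw [show x = e from le_antisymm h2 h1]; exact hz
  | s, a, p :: W, h => by
    obtain ⟨W', h1, h2, h3⟩ := Wk.seam_snoc hω hz (s := p.1) (a := p.2) (W := W) h.2.2.2
    refine ⟨p :: W', ⟨h.1, h.2.1, h.2.2.1, h1⟩, ?_, ?_⟩
    · simp only [List.map_cons, cs, h2]; ring
    · simp only [List.length_cons]; push_cast; linarith

end walk

section chain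
variable {ι : Type*}

theorem exists_sorted [DecidableEq ι] (lo hi : ι → ℝ) (A : Finset ι) :
    (∀ i ∈ A, ∀ j ∈ A, i ≠ j → (lo i < lo j ∧ hi i < hi j) ∨ (lo j < lo i ∧ hi j < hi i)) →
      ∃ l : List ι, l.toFinset = A ∧ l.Pairwise fun i j => lo i < lo j ∧ hi i < hi j := by
  refine Finset.induction_on_min_value lo A (fun _ => ⟨[], rfl, List.Pairwise.nil⟩) ?_
  intro a A ha hmin ih h
  obtain ⟨l, hl, hp⟩ := ih fun i hi j hj =>
    h i (Finset.mem_insert_of_mem hi) j (Finset.mem_insert_of_mem hj)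
  refine ⟨a :: l, by rw [List.toFinset_cons, hl], List.Pairwise.cons (fun j hj => ?_) hp⟩
  have hj' : j ∈ A := hl ▸ List.mem_toFinset.2 hj
  rcases h a (Finset.mem_insert_self _ _) j (Finset.mem_insert_of_mem hj')
    (fun e => ha (e ▸ hj')) with h1 | h1
  · exact h1
  · exact absurd (hmin j hj') (not_le.2 h1.1)

theorem good_of_cover {ok : ι → Prop} {rel : ι → ι → Prop} {lo hi : ι → ℝ} {U : ℝ} :
    ∀ (l : List ι) (a : ι) (L : ℝ), L ≤ U →
      (a :: l).Pairwise (fun i j => rel i j ∧ lo i ≤ lo j ∧ hi i ≤ hi j) →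
      (∀ j ∈ a :: l, ok j ∧ lo j ≤ hi j ∧ lo j ≤ U ∧ L ≤ hi j) →
      (∀ y, L ≤ y → y ≤ U → ∃ j ∈ a :: l, lo j ≤ y ∧ y ≤ hi j) → Good ok rel lo hi U a l
  | [], a, L, hL, _, h1, h2 => by
    obtain ⟨j, hj, -, h4⟩ := h2 U hL le_rfl
    rw [List.mem_singleton] at hj
    subst hj
    have := h1 j (by simp)
    exact ⟨this.1, this.2.1, this.2.2.1, h4⟩
  | c :: l, a, L, hL, hp, h1, h2 => by
    have ha := h1 a (by simp)
    have hc := h1 c (by simp)
    obtain ⟨hp1, hp2⟩ := List.pairwise_cons.1 hp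
    have hlo : ∀ j ∈ c :: l, lo c ≤ lo j ∧ hi c ≤ hi j := by
      intro j hj
      rcases List.mem_cons.1 hj with rfl | hj
      · exact ⟨le_rfl, le_rfl⟩
      · exact ((List.pairwise_cons.1 hp2).1 j hj).2
    refine ⟨ha.1, ha.2.1, ha.2.2.1, ?_, hp1, good_of_cover l c (max L (lo c)) (max_le hL hc.2.2.1)
      hp2 (fun j hj => ?_) fun y y1 y2 => ?_⟩
    · by_contra hlt
      push Not at hlt
      obtain ⟨j, hj, j1, j2⟩ := h2 ((hi a + lo c) / 2) (by linarith [ha.2.2.2])
        (by linarith [hc.2.2.1])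
      rcases List.mem_cons.1 hj with rfl | hj
      · linarith
      · linarith [(hlo j hj).1]
    · have := h1 j (List.mem_cons_of_mem _ hj)
      exact ⟨this.1, this.2.1, this.2.2.1, max_le this.2.2.2 (hc.2.1.trans (hlo j hj).2)⟩
    · obtain ⟨j, hj, j1, j2⟩ := h2 y ((le_max_left _ _).trans y1) y2
      rcases List.mem_cons.1 hj with rfl | hj
      · exact ⟨c, by simp, (le_max_right _ _).trans y1, j2.trans (hp1 c (by simp)).2.2⟩
      · exact ⟨j, hj, j1, j2⟩

theorem isClosed_good {ok : ℝ → ι → Prop} {rel : ι → ι → Prop} {lo hi : ℝ → ι → ℝ} {U : ℝ → ℝ}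
    (h1 : ∀ j, IsClosed {s | ok s j}) (h2 : ∀ j, Continuous fun s => lo s j)
    (h3 : ∀ j, Continuous fun s => hi s j) (h4 : Continuous U) :
    ∀ (l : List ι) (a : ι), IsClosed {s | Good (ok s) rel (lo s) (hi s) (U s) a l}
  | [], a => (h1 a).inter ((isClosed_le (h2 a) (h3 a)).inter
      ((isClosed_le (h2 a) h4).inter (isClosed_le h4 (h3 a))))
  | c :: l, a => by
    refine (h1 a).inter ((isClosed_le (h2 a) (h3 a)).inter ((isClosed_le (h2 a) h4).inter
      ((isClosed_le (h2 c) (h3 a)).inter (IsClosed.inter ?_ (isClosed_good h1 h2 h3 h4 l c)))))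
    have : {s | ∀ j ∈ c :: l, rel a j ∧ lo s a ≤ lo s j ∧ hi s a ≤ hi s j} =
        ⋂ j ∈ c :: l, ({_s | rel a j} ∩ ({s | lo s a ≤ lo s j} ∩ {s | hi s a ≤ hi s j})) := by
      ext s; simp only [mem_iInter]; rfl
    change IsClosed {s | ∀ j ∈ c :: l, rel a j ∧ lo s a ≤ lo s j ∧ hi s a ≤ hi s j}
    rw [this]
    exact isClosed_biInter fun j _ => isClosed_const.inter
      ((isClosed_le (h2 a) (h2 j)).inter (isClosed_le (h3 a) (h3 j)))

end chain

/-- the boundary of `C`, clockwise from the leftmost point -/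
noncomputable def gam (s1 : ℝ) (L U : ℝ → ℝ) (τ : ℝ) : ℝ × ℝ :=
  if τ ≤ s1 then (τ, U τ) else (2 * s1 - τ, L (2 * s1 - τ))

theorem gam_top {s1 : ℝ} (L U : ℝ → ℝ) {τ : ℝ} (h : τ ≤ s1) : gam s1 L U τ = (τ, U τ) :=
  if_pos h

theorem gam_bot {s1 : ℝ} {L U : ℝ → ℝ} (h1 : L s1 = U s1) {τ : ℝ} (h : s1 ≤ τ) :
    gam s1 L U τ = (2 * s1 - τ, L (2 * s1 - τ)) := by
  rcases eq_or_lt_of_le h with h | h
  · subst h
    rw [gam_top _ _ le_rfl, show 2 * s1 - s1 = s1 by ring, h1]
  · exact if_neg (not_le.2 h)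

section sweep
variable {ι : Type*}

/-- the boundary point with parameter `τ` lies in the translate `a` -/
def bcov (K : Set (ℝ × ℝ)) (s1 : ℝ) (L U : ℝ → ℝ) (b : ι → ℝ × ℝ) (a : ι) (τ : ℝ) : Prop :=
  gam s1 L U τ - b a ∈ K

/-- cross product of two centres -/
def om (b : ι → ℝ × ℝ) (i j : ι) : ℝ := cr (b i) (b j)

theorem om_self (b : ι → ℝ × ℝ) (i : ι) : om b i i = 0 := by simp only [om, cr]; ring

theorem bcov_top {K : Set (ℝ × ℝ)} {s1 : ℝ} {L U : ℝ → ℝ} {b : ι → ℝ × ℝ} {a : ι} {τ : ℝ}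
    (h : τ ≤ s1) (hK : (τ, U τ) - b a ∈ K) : bcov K s1 L U b a τ := by
  unfold bcov; rwa [gam_top _ _ h]

theorem bcov_bot {K : Set (ℝ × ℝ)} {s1 : ℝ} {L U : ℝ → ℝ} {b : ι → ℝ × ℝ} {a : ι} {τ : ℝ}
    (h1 : L s1 = U s1) (h : s1 ≤ τ) (hK : (2 * s1 - τ, L (2 * s1 - τ)) - b a ∈ K) :
    bcov K s1 L U b a τ := by
  unfold bcov; rwa [gam_bot h1 h]

/-- the translated profile -/
def slo (f : ℝ → ℝ) (b : ι → ℝ × ℝ) (s : ℝ) (j : ι) : ℝ := f (s - (b j).1) + (b j).2

/-- the slice of the translate `j` at time `s` is not empty -/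
def sdom (w : ℝ) (b : ι → ℝ × ℝ) (s : ℝ) (j : ι) : Prop := -w ≤ s - (b j).1 ∧ s - (b j).1 ≤ w

/-- at some time the slice of `i` is strictly below the slice of `j` -/
def srel (w : ℝ) (l u : ℝ → ℝ) (b : ι → ℝ × ℝ) (i j : ι) : Prop :=
  ∃ s, sdom w b s i ∧ sdom w b s j ∧ slo l b s i < slo l b s j ∧ slo u b s i < slo u b s j

/-- the slice of `i` contains the slice of `j` -/
def Dm [LinearOrder ι] (w : ℝ) (l u : ℝ → ℝ) (b : ι → ℝ × ℝ) (s : ℝ) (i j : ι) : Prop :=
  sdom w b s i ∧ slo l b s i ≤ slo l b s j ∧ slo u b s j ≤ slo u b s i ∧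
    (slo l b s i = slo l b s j → slo u b s i = slo u b s j → i < j)

/-- the label `j` is active at time `s` -/
def act [LinearOrder ι] (w : ℝ) (l u : ℝ → ℝ) (b : ι → ℝ × ℝ) (s0 s1 : ℝ) (L U : ℝ → ℝ) (s : ℝ)
    (j : ι) : Prop :=
  (s0 ≤ s ∧ s ≤ s1) ∧ sdom w b s j ∧ slo l b s j ≤ U s ∧ L s ≤ slo u b s j ∧
    ∀ i, ¬ Dm w l u b s i j

variable {K C : Set (ℝ × ℝ)} {w s0 s1 : ℝ} {l u L U : ℝ → ℝ} {b : ι → ℝ × ℝ}

theorem slice_mem (P : Prof K (-w) w l u) (s y : ℝ) (j : ι) :
    (s, y) - b j ∈ K ↔ sdom w b s j ∧ slo l b s j ≤ y ∧ y ≤ slo u b s j := by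
  rw [P.mem]
  simp only [sdom, slo, Prod.fst_sub, Prod.snd_sub, le_sub_iff_add_le, sub_le_iff_le_add]

theorem slo_le (P : Prof K (-w) w l u) {s : ℝ} {j : ι} (h : sdom w b s j) :
    slo l b s j ≤ slo u b s j := by
  unfold slo; linarith [P.lohi _ h.1 h.2]

theorem slo_mono (hv : Convex ℝ K) (P : Prof K (-w) w l u) {i j : ι} (hij : (b i).1 ≤ (b j).1)
    {s s' : ℝ} (hs : s ≤ s') (hj : -w ≤ s - (b j).1) (hi : s' - (b i).1 ≤ w) :
    slo l b s i - slo l b s j ≤ slo l b s' i - slo l b s' j ∧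
      slo u b s' i - slo u b s' j ≤ slo u b s i - slo u b s j := by
  have := P.inner_pair hv hj hi (y0 := s - (b i).1) (y1 := s' - (b j).1) (by linarith)
    (by linarith) (by ring)
  unfold slo
  constructor <;> linarith [this.1, this.2]

theorem srel_asymm (hv : Convex ℝ K) (P : Prof K (-w) w l u) (i j : ι) :
    srel w l u b i j → ¬ srel w l u b j i := by
  rintro ⟨s, a1, a2, a3, a4⟩ ⟨s', b1, b2, b3, b4⟩
  rcases le_total (b i).1 (b j).1 with h | h <;> rcases le_total s s' with h' | h'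
  · linarith [(slo_mono hv P h h' a2.1 b2.2).2]
  · linarith [(slo_mono hv P h h' b1.1 a1.2).1]
  · linarith [(slo_mono hv P h h' a1.1 b1.2).1]
  · linarith [(slo_mono hv P h h' b2.1 a2.2).2]

variable [LinearOrder ι]

theorem act_conn (hv : Convex ℝ K) (P : Prof K (-w) w l u) (hvC : Convex ℝ C)
    (PC : Prof C s0 s1 L U) {j : ι} {x y s : ℝ} (hx : act w l u b s0 s1 L U x j)
    (hy : act w l u b s0 s1 L U y j) (h1 : x ≤ s) (h2 : s ≤ y) : act w l u b s0 s1 L U s j := by
  have hd : sdom w b s j := ⟨by linarith [hx.2.1.1], by linarith [hy.2.1.2]⟩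
  have pt : ∀ z, act w l u b s0 s1 L U z j →
      (z, max (slo l b z j) (L z)) ∈ C ∧ (z, max (slo l b z j) (L z)) - b j ∈ K := by
    intro z hz
    exact ⟨(PC.mem _).2 ⟨hz.1, le_max_right _ _, max_le hz.2.2.1 (PC.lohi z hz.1.1 hz.1.2)⟩,
      (slice_mem P _ _ _).2 ⟨hz.2.1, le_max_left _ _, max_le (slo_le P hz.2.1) hz.2.2.2.1⟩⟩
  have hmeet : ∃ v, (s, v) ∈ C ∧ (s, v) - b j ∈ K := by
    rcases eq_or_lt_of_le (h1.trans h2) with h | h
    · have : s = x := by linarith
      exact ⟨_, this ▸ pt x hx⟩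
    · have hd' : 0 < y - x := by linarith
      have t0 : 0 ≤ (s - x) / (y - x) := div_nonneg (by linarith) hd'.le
      have t1 : (s - x) / (y - x) ≤ 1 := (div_le_one hd').2 (by linarith)
      have e1 : x + (s - x) / (y - x) * (y - x) = s := by field_simp; ring
      have m1 := seg_mem hvC (pt x hx).1 (pt y hy).1 t0 t1
      have m2 := seg_mem hv (pt x hx).2 (pt y hy).2 t0 t1
      simp only [e1] at m1
      refine ⟨_, m1, ?_⟩
      convert m2 using 1
      ext
      · simp only [Prod.fst_sub]; linarith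
      · simp only [Prod.snd_sub]; ring
  obtain ⟨v, v1, v2⟩ := hmeet
  have v1 := (PC.mem _).1 v1
  have v2 := (slice_mem P _ _ _).1 v2
  refine ⟨⟨hx.1.1.trans h1, h2.trans hy.1.2⟩, hd, v2.2.1.trans v1.2.2, v1.2.1.trans v2.2.2, ?_⟩
  rintro i ⟨d1, d2, d3, d4⟩
  rcases le_total (b i).1 (b j).1 with h | h
  · have := slo_mono hv P h h1 hx.2.1.1 d1.2
    exact hx.2.2.2.2 i ⟨⟨by linarith [hx.2.1.1], by linarith [d1.2]⟩, by linarith [this.1],
      by linarith [this.2], fun e1 e2 => d4 (by linarith [this.1]) (by linarith [this.2])⟩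
  · have := slo_mono hv P h h2 d1.1 hy.2.1.2
    exact hy.2.2.2.2 i ⟨⟨by linarith [d1.1], by linarith [hy.2.1.2]⟩, by linarith [this.1],
      by linarith [this.2], fun e1 e2 => d4 (by linarith [this.1]) (by linarith [this.2])⟩

theorem act_sep {s : ℝ} {i j : ι} (hi : act w l u b s0 s1 L U s i) (hj : act w l u b s0 s1 L U s j)
    (hij : i ≠ j) : (slo l b s i < slo l b s j ∧ slo u b s i < slo u b s j) ∨
      (slo l b s j < slo l b s i ∧ slo u b s j < slo u b s i) := by
  have h1 := hj.2.2.2.2 i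
  have h2 := hi.2.2.2.2 j
  unfold Dm at h1 h2
  push Not at h1 h2
  have h1 := h1 hi.2.1
  have h2 := h2 hj.2.1
  rcases lt_trichotomy (slo l b s i) (slo l b s j) with a | a | a <;>
    rcases lt_trichotomy (slo u b s i) (slo u b s j) with c | c | c
  · exact Or.inl ⟨a, c⟩
  · exact absurd (h1 a.le c.ge).1 a.ne
  · exact absurd (h1 a.le c.le).1 a.ne
  · exact absurd (h2 a.ge c.le).2.1 c.ne'
  · exact absurd (le_antisymm (h2 a.ge c.le).2.2 (h1 a.le c.ge).2.2) hij
  · exact absurd (h1 a.le c.le).2.1 c.ne'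
  · exact absurd (h2 a.le c.le).1 a.ne
  · exact absurd (h2 a.le c.le).1 a.ne
  · exact Or.inr ⟨a, c⟩

variable [Fintype ι]

theorem act_cover (P : Prof K (-w) w l u) (PC : Prof C s0 s1 L U)
    (hcov : ∀ x ∈ C, ∃ i, x - b i ∈ K) {s y : ℝ} (h0 : s0 ≤ s) (h1 : s ≤ s1) (y0 : L s ≤ y)
    (y1 : y ≤ U s) : ∃ j, act w l u b s0 s1 L U s j ∧ slo l b s j ≤ y ∧ y ≤ slo u b s j := by
  classical
  let A : Finset ι := Finset.univ.filter fun j => (s, y) - b j ∈ K
  obtain ⟨i0, hi0⟩ := hcov (s, y) ((PC.mem _).2 ⟨⟨h0, h1⟩, y0, y1⟩)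
  obtain ⟨j0, hj0, hmax⟩ := A.exists_max_image (fun j => slo u b s j - slo l b s j)
    ⟨i0, by simp [A, hi0]⟩
  let B : Finset ι := A.filter fun j => slo u b s j - slo l b s j = slo u b s j0 - slo l b s j0
  have hB : B.Nonempty := ⟨j0, Finset.mem_filter.2 ⟨hj0, rfl⟩⟩
  have hj := Finset.mem_filter.1 (B.min'_mem hB)
  have hjK := (slice_mem P _ _ _).1 (Finset.mem_filter.1 hj.1).2
  refine ⟨B.min' hB, ⟨⟨h0, h1⟩, hjK.1, hjK.2.1.trans y1, y0.trans hjK.2.2, ?_⟩, hjK.2⟩
  rintro i ⟨d1, d2, d3, d4⟩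
  have hiA : i ∈ A := Finset.mem_filter.2 ⟨Finset.mem_univ _,
    (slice_mem P _ _ _).2 ⟨d1, d2.trans hjK.2.1, hjK.2.2.trans d3⟩⟩
  have := hmax i hiA
  have hiB : i ∈ B := Finset.mem_filter.2 ⟨hiA, by linarith [hj.2]⟩
  exact absurd (d4 (by linarith [hj.2]) (by linarith [hj.2])) (not_lt.2 (B.min'_le i hiB))

/-- a chain which covers the chord of `C` at time `s` -/
def Valid (w : ℝ) (l u : ℝ → ℝ) (b : ι → ℝ × ℝ) (L U : ℝ → ℝ) (s : ℝ) (a : ι) (t : List ι) :
    Prop :=
  Good (sdom w b s) (srel w l u b) (slo l b s) (slo u b s) (U s) a t ∧ slo l b s a ≤ L s ∧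
    L s ≤ slo u b s a

theorem exists_phase (hv : Convex ℝ K) (P : Prof K (-w) w l u) (PC : Prof C s0 s1 L U)
    (hcov : ∀ x ∈ C, ∃ i, x - b i ∈ K) {e e' : ℝ} (h0 : s0 ≤ e) (hee : e < e') (h1 : e' ≤ s1)
    (hconst : ∀ s s', e < s → s < e' → e < s' → s' < e' → ∀ j, act w l u b s0 s1 L U s j →
      act w l u b s0 s1 L U s' j) :
    ∃ a t, (∀ s, e ≤ s → s ≤ e' → Valid w l u b L U s a t) ∧
      ∀ s, e < s → s < e' → ∀ j, act w l u b s0 s1 L U s j ↔ j ∈ a :: t := by
  classical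
  have m0 : e < (e + e') / 2 := by linarith
  have m1 : (e + e') / 2 < e' := by linarith
  obtain ⟨lst0, hl, hp⟩ := exists_sorted (slo l b ((e + e') / 2)) (slo u b ((e + e') / 2))
    (Finset.univ.filter fun j => act w l u b s0 s1 L U ((e + e') / 2) j)
    (fun i hi j hj hij => act_sep (Finset.mem_filter.1 hi).2 (Finset.mem_filter.1 hj).2 hij)
  have hmem : ∀ s, e < s → s < e' → ∀ j, act w l u b s0 s1 L U s j ↔ j ∈ lst0 := by
    intro s a1 a2 j
    rw [← List.mem_toFinset, hl, Finset.mem_filter]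
    exact ⟨fun h => ⟨Finset.mem_univ _, hconst _ _ a1 a2 m0 m1 j h⟩,
      fun h => hconst _ _ m0 m1 a1 a2 j h.2⟩
  cases lst0 with
  | nil =>
    obtain ⟨j, hj, -⟩ := act_cover P PC hcov (s := (e + e') / 2) (by linarith) (by linarith) le_rfl
      (PC.lohi _ (by linarith) (by linarith))
    simpa using (hmem _ m0 m1 j).1 hj
  | cons a t =>
    refine ⟨a, t, ?_, hmem⟩
    have hrel : (a :: t).Pairwise (srel w l u b) :=
      hp.imp_of_mem fun {i j} hi hj h =>
        ⟨_, ((hmem _ m0 m1 i).2 hi).2.1, ((hmem _ m0 m1 j).2 hj).2.1, h⟩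
    have hopen : ∀ s ∈ Ioo e e', Valid w l u b L U s a t := by
      intro s hs
      have s0' : s0 ≤ s := by linarith [hs.1]
      have s1' : s ≤ s1 := by linarith [hs.2]
      have hp' : (a :: t).Pairwise fun i j => srel w l u b i j ∧ slo l b s i ≤ slo l b s j ∧
          slo u b s i ≤ slo u b s j := hrel.imp_of_mem fun {i j} hi hj h => by
        have ai := (hmem s hs.1 hs.2 i).2 hi
        have aj := (hmem s hs.1 hs.2 j).2 hj
        have hij : i ≠ j := fun e => srel_asymm hv P i j h (e ▸ h)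
        rcases act_sep ai aj hij with h' | h'
        · exact ⟨h, h'.1.le, h'.2.le⟩
        · exact absurd ⟨s, aj.2.1, ai.2.1, h'⟩ (srel_asymm hv P i j h)
      have hc : ∀ y, L s ≤ y → y ≤ U s → ∃ j ∈ a :: t, slo l b s j ≤ y ∧ y ≤ slo u b s j := by
        intro y y0 y1
        obtain ⟨j, hj, hj2⟩ := act_cover P PC hcov s0' s1' y0 y1
        exact ⟨j, (hmem s hs.1 hs.2 j).1 hj, hj2⟩
      refine ⟨good_of_cover t a (L s) (PC.lohi s s0' s1') hp' (fun j hj => ?_) hc, ?_,
        ((hmem s hs.1 hs.2 a).2 (by simp)).2.2.2.1⟩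
      · have aj := (hmem s hs.1 hs.2 j).2 hj
        exact ⟨aj.2.1, slo_le P aj.2.1, aj.2.2.1, aj.2.2.2.1⟩
      · obtain ⟨j, hj, j1, -⟩ := hc (L s) le_rfl (PC.lohi s s0' s1')
        rcases List.mem_cons.1 hj with rfl | hj
        · exact j1
        · exact ((List.pairwise_cons.1 hp').1 j hj).2.1.trans j1
    have c1 : ∀ j, Continuous fun s => slo l b s j := fun j => by
      have := P.clo; unfold slo; fun_prop
    have c2 : ∀ j, Continuous fun s => slo u b s j := fun j => by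
      have := P.chi; unfold slo; fun_prop
    have c0 : ∀ j, IsClosed {s | sdom w b s j} := fun j =>
      (isClosed_le (f := fun _ => -w) (g := fun s => s - (b j).1) continuous_const
        (by fun_prop)).inter
        (isClosed_le (f := fun s => s - (b j).1) (g := fun _ => w) (by fun_prop) continuous_const)
    have hcl : IsClosed {s | Valid w l u b L U s a t} :=
      (isClosed_good (ok := sdom w b) (rel := srel w l u b) c0 c1 c2 PC.chi t a).inter
        ((isClosed_le (c1 a) PC.clo).inter (isClosed_le PC.clo (c2 a)))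
    intro s a1 a2
    have := hcl.closure_subset_iff.2 hopen
    rw [closure_Ioo hee.ne] at this
    exact this ⟨a1, a2⟩

theorem exists_events (hv : Convex ℝ K) (P : Prof K (-w) w l u) (hvC : Convex ℝ C)
    (PC : Prof C s0 s1 L U) : ∃ E : Finset ℝ, s1 ∈ E ∧ ∀ e e', (∀ x ∈ E, e < x → e' ≤ x) →
      ∀ s s', e < s → s < e' → e < s' → s' < e' → ∀ j, act w l u b s0 s1 L U s j →
        act w l u b s0 s1 L U s' j := by
  classical
  refine ⟨insert s1 ((Finset.univ.image fun j => sInf {s | act w l u b s0 s1 L U s j}) ∪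
    Finset.univ.image fun j => sSup {s | act w l u b s0 s1 L U s j}), by simp, ?_⟩
  intro e e' hE s s' a1 a2 a3 a4 j hj
  have hne : {s | act w l u b s0 s1 L U s j}.Nonempty := ⟨s, hj⟩
  rcases le_total s s' with h | h
  · have h1 : s ≤ sSup {s | act w l u b s0 s1 L U s j} := le_csSup ⟨s1, fun x hx => hx.1.2⟩ hj
    have h2 := hE _ (by simp) (a1.trans_le h1)
    obtain ⟨x, hx, hx2⟩ := exists_lt_of_lt_csSup hne (a4.trans_le h2)
    exact act_conn hv P hvC PC hj hx h hx2.le
  · have h1 : sInf {s | act w l u b s0 s1 L U s j} ≤ s := csInf_le ⟨s0, fun x hx => hx.1.1⟩ hj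
    have h2 : sInf {s | act w l u b s0 s1 L U s j} ≤ e := by
      by_contra hlt
      have := hE _ (by simp) (not_le.1 hlt)
      linarith
    obtain ⟨x, hx, hx2⟩ := exists_lt_of_csInf_lt hne (h2.trans_lt a3)
    exact act_conn hv P hvC PC hx hj hx2.le h

theorem Valid.top (P : Prof K (-w) w l u) {s : ℝ} {a : ι} {t : List ι}
    (h : Valid w l u b L U s a t) : (s, U s) - b (lst a t) ∈ K := by
  have := h.1.all _ (lst_mem a t)
  exact (slice_mem P _ _ _).2 ⟨this.1, this.2.2, h.1.last⟩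

theorem Valid.bot (P : Prof K (-w) w l u) {s : ℝ} {a : ι} {t : List ι}
    (h : Valid w l u b L U s a t) : (s, L s) - b a ∈ K :=
  (slice_mem P _ _ _).2 ⟨h.1.head.1, h.2.1, h.2.2⟩

theorem Valid.single {s : ℝ} {a : ι} {t : List ι} (h : Valid w l u b L U s a t) (e : L s = U s) :
    Valid w l u b L U s a [] :=
  ⟨⟨h.1.head.1, h.1.head.2.1, h.1.head.2.2, e ▸ h.2.2⟩, h.2⟩

theorem tri_centres {t : ℝ} (ht : ∀ a ∈ K, ∀ b ∈ K, ∀ c ∈ K, cr (b - a) (c - a) ≤ 2 * t)
    {z x y v : ℝ × ℝ} (hx : z - x ∈ K) (hy : z - y ∈ K) (hv : z - v ∈ K) :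
    cr x y + cr y v + cr v x ≤ 2 * t := by
  have := ht _ hx _ hy _ hv
  unfold cr at this ⊢
  simp only [Prod.fst_sub, Prod.snd_sub] at this
  linarith

theorem Valid.zip (hv : Convex ℝ K) (P : Prof K (-w) w l u) {t : ℝ}
    (ht : ∀ a ∈ K, ∀ b ∈ K, ∀ c ∈ K, cr (b - a) (c - a) ≤ 2 * t) {s : ℝ} {o n : ι} {O N : List ι}
    (hO : Valid w l u b L U s o O) (hN : Valid w l u b L U s n N) :
    cs (om b) o O - cs (om b) n N +
        om b (lst n N) (lst o O) + om b o n ≤
      2 * t * ((sd (n :: N).toFinset (o :: O).toFinset : ℝ) - nq n o - nq (lst n N) (lst o O)) :=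
  Pool.Agent.MP_cab9bb_co.zip (ω := om b)
    (fun i j => by unfold om cr; ring) (srel_asymm hv P)
    (fun _ _ _ hi hj hk y a1 a2 a3 a4 a5 a6 => tri_centres ht (z := (s, y))
      ((slice_mem P _ _ _).2 ⟨hi, a1, a2⟩) ((slice_mem P _ _ _).2 ⟨hj, a3, a4⟩)
      ((slice_mem P _ _ _).2 ⟨hk, a5, a6⟩))
    _ o O n N rfl hO.1 hN.1 (hN.2.1.trans hO.2.2) (hO.2.1.trans hN.2.2)

theorem nq_comm (a c : ι) : nq a c = nq c a := by
  unfold nq; simp only [eq_comm]

theorem sweep (hv : Convex ℝ K) (P : Prof K (-w) w l u) (hvC : Convex ℝ C)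
    (PC : Prof C s0 s1 L U) (h01 : s0 < s1) (e0 : L s0 = U s0) (e1 : L s1 = U s1)
    (hcov : ∀ x ∈ C, ∃ i, x - b i ∈ K) {t : ℝ} (t0 : 0 ≤ t)
    (ht : ∀ a ∈ K, ∀ b ∈ K, ∀ c ∈ K, cr (b - a) (c - a) ≤ 2 * t) :
    ∃ z W, Wk (bcov K s1 L U b) s0 z W (2 * s1 - s0) z ∧
      cs (om b) z (W.map Prod.snd) ≤
        2 * t * (2 * Fintype.card ι - 2 - W.length) := by
  classical
  obtain ⟨E, hE1, hE⟩ := exists_events (b := b) hv P hvC PC
  have hω0 := om_self b
  let rem : ℝ → Finset ι := fun e =>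
    Finset.univ.filter fun j => ∃ s, e < s ∧ s < s1 ∧ act w l u b s0 s1 L U s j
  have nxt : ∀ e, s0 ≤ e → e < s1 → ∃ e' ∈ E, e < e' ∧ e' ≤ s1 ∧ ∃ a t,
      (∀ s, e ≤ s → s ≤ e' → Valid w l u b L U s a t) ∧
      ∀ s, e < s → s < e' → ∀ j, act w l u b s0 s1 L U s j ↔ j ∈ a :: t := by
    intro e h0 h1
    have hne : (E.filter fun x => e < x).Nonempty := ⟨s1, Finset.mem_filter.2 ⟨hE1, h1⟩⟩
    have hm := Finset.mem_filter.1 (Finset.min'_mem _ hne)
    have hle : ∀ x ∈ E, e < x → (E.filter fun x => e < x).min' hne ≤ x := fun x hx h =>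
      Finset.min'_le _ _ (Finset.mem_filter.2 ⟨hx, h⟩)
    exact ⟨_, hm.1, hm.2, hle _ hE1 h1,
      exists_phase hv P PC hcov h0 hm.2 (hle _ hE1 h1) (hE _ _ hle)⟩
  have key : ∀ (n : ℕ) (e : ℝ) (a : ι) (T : List ι), (E.filter fun x => e < x).card = n →
      s0 ≤ e → e ≤ s1 → Valid w l u b L U e a T →
      (∀ j ∈ a :: T, ∀ s s', e < s → s ≤ s' → act w l u b s0 s1 L U s' j →
        act w l u b s0 s1 L U s j) →
      ∃ W, Wk (bcov K s1 L U b) e (lst a T) W (2 * s1 - e) a ∧
        cs (om b) (lst a T) (W.map Prod.snd) +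
          cs (om b) a T ≤
        2 * t * (2 * ((rem e ∪ (a :: T).toFinset).card : ℝ) - (a :: T).toFinset.card - 1 -
          W.length) := by
    intro n
    induction n using Nat.strong_induction_on with
    | _ n ih =>
    intro e a T hn h0 h1 hV hI
    rcases eq_or_lt_of_le h1 with h1' | h1'
    · subst h1'
      have hz := Valid.zip hv P ht hV (hV.single e1)
      have w0 : Wk (bcov K e L U b) e a [] e a := ⟨le_rfl, rfl, fun x x1 x2 => by
        rw [show x = e from le_antisymm x2 x1]; exact bcov_top le_rfl (e1 ▸ hV.bot P)⟩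
      obtain ⟨W, w1, w2, w3⟩ := w0.seam_cons hω0 (a := lst a T)
        (bcov_top le_rfl (hV.top P))
      refine ⟨W, by rwa [show 2 * e - e = e by ring], ?_⟩
      have hc : ((a :: T).toFinset.card : ℝ) ≤ (rem e ∪ (a :: T).toFinset).card := by
        exact_mod_cast Finset.card_le_card Finset.subset_union_right
      have hs : (sd [a].toFinset (a :: T).toFinset : ℝ) + 1 = (a :: T).toFinset.card := by
        have := sd_insert_mem (A := (a :: T).toFinset) (B := ∅) (o := a) (by simp) (by simp)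
        rw [sd_comm]
        simp only [sd, Finset.sdiff_empty, Finset.empty_sdiff, Finset.card_empty, add_zero] at this
        simp only [sd, List.toFinset_cons (a := a) (l := []), List.toFinset_nil]
        exact_mod_cast this.symm
      rw [w2, w3]
      simp only [lst, cs, List.map_nil, List.length_nil, hω0 a] at hz ⊢
      have hn0 : nq a a = 0 := if_pos rfl
      rw [hn0] at hz
      push_cast
      nlinarith
    · obtain ⟨e', he'E, hee, he1, a', T', hV', hA⟩ := nxt e h0 h1'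
      have m0 : e < (e + e') / 2 := by linarith
      have m1 : (e + e') / 2 < e' := by linarith
      have hlt : (E.filter fun x => e' < x).card < n := by
        rw [← hn]
        refine Finset.card_lt_card ⟨fun x hx => ?_, fun h => ?_⟩
        · exact Finset.mem_filter.2 ⟨(Finset.mem_filter.1 hx).1,
            hee.trans (Finset.mem_filter.1 hx).2⟩
        · exact lt_irrefl _ (Finset.mem_filter.1 (h (Finset.mem_filter.2 ⟨he'E, hee⟩))).2
      obtain ⟨W, w0, hW⟩ := ih _ hlt e' a' T' rfl (by linarith) he1 (hV' e' hee.le le_rfl)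
        (fun j hj s s' a1 a2 a3 =>
          act_conn hv P hvC PC ((hA _ m0 m1 j).2 hj) a3 (by linarith) a2)
      have w1 := w0.ext_left hee.le (fun x x1 x2 =>
        bcov_top (x2.trans he1) ((hV' x x1 x2).top P))
      have w2 := w1.ext_right (e' := 2 * s1 - e) (by linarith) (fun x x1 x2 =>
        bcov_bot e1 (by linarith) ((hV' _ (by linarith) (by linarith)).bot P))
      obtain ⟨W1, w3, c3, l3⟩ := w2.seam_cons hω0 (a := lst a T)
        (bcov_top h1 (hV.top P))
      obtain ⟨W2, w4, c4, l4⟩ := w3.seam_snoc hω0 (z' := a) (bcov_bot e1 (by linarith) (by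
        rw [show 2 * s1 - (2 * s1 - e) = e by ring]; exact hV.bot P))
      refine ⟨W2, w4, ?_⟩
      have hz := Valid.zip hv P ht hV (hV' e le_rfl hee.le)
      have hcard : ((a :: T).toFinset \ (a' :: T').toFinset).card +
          (rem e' ∪ (a' :: T').toFinset).card ≤ (rem e ∪ (a :: T).toFinset).card := by
        rw [← Finset.card_union_of_disjoint]
        · refine Finset.card_le_card fun j hj => ?_
          rcases Finset.mem_union.1 hj with hj | hj
          · exact Finset.mem_union_right _ (Finset.mem_sdiff.1 hj).1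
          · refine Finset.mem_union_left _ (Finset.mem_filter.2 ⟨Finset.mem_univ _, ?_⟩)
            rcases Finset.mem_union.1 hj with hj | hj
            · obtain ⟨s, a1, a2, a3⟩ := (Finset.mem_filter.1 hj).2
              exact ⟨s, hee.trans a1, a2, a3⟩
            · exact ⟨_, m0, by linarith, (hA _ m0 m1 j).2 (List.mem_toFinset.1 hj)⟩
        · rw [Finset.disjoint_left]
          intro j hj hj'
          obtain ⟨j1, j2⟩ := Finset.mem_sdiff.1 hj
          rcases Finset.mem_union.1 hj' with hj' | hj'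
          · obtain ⟨s, a1, -, a3⟩ := (Finset.mem_filter.1 hj').2
            exact j2 (List.mem_toFinset.2 ((hA _ m0 m1 j).1
              (hI j (List.mem_toFinset.1 j1) _ s m0 (by linarith) a3)))
          · exact j2 hj'
      have hs1 := Finset.card_sdiff_add_card_inter (a :: T).toFinset (a' :: T').toFinset
      have hs2 := Finset.card_sdiff_add_card_inter (a' :: T').toFinset (a :: T).toFinset
      rw [Finset.inter_comm] at hs2
      have hcount : (sd (a' :: T').toFinset (a :: T).toFinset : ℝ) +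
          2 * ((rem e' ∪ (a' :: T').toFinset).card : ℝ) - (a' :: T').toFinset.card ≤
          2 * ((rem e ∪ (a :: T).toFinset).card : ℝ) - (a :: T).toFinset.card := by
        have : sd (a' :: T').toFinset (a :: T).toFinset + 2 * (rem e' ∪ (a' :: T').toFinset).card +
            (a :: T).toFinset.card ≤
            2 * (rem e ∪ (a :: T).toFinset).card + (a' :: T').toFinset.card := by
          unfold sd; omega
        have : (sd (a' :: T').toFinset (a :: T).toFinset : ℝ) +
            2 * ((rem e' ∪ (a' :: T').toFinset).card : ℝ) + (a :: T).toFinset.card ≤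
            2 * ((rem e ∪ (a :: T).toFinset).card : ℝ) + (a' :: T').toFinset.card := by
          exact_mod_cast this
        linarith
      rw [c4, c3, l4, l3, nq_comm a a']
      nlinarith
  obtain ⟨e', -, hee, he1, a, T, hV, hA⟩ := nxt s0 le_rfl h01
  obtain ⟨W, w0, hW⟩ := key _ s0 a [] rfl le_rfl h01.le ((hV s0 le_rfl hee.le).single e0) (by
    intro j hj s s' a1 a2 a3
    rw [List.mem_singleton] at hj
    subst hj
    rcases lt_or_ge s e' with h | h
    · exact (hA s a1 h j).2 (by simp)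
    · exact act_conn hv P hvC PC ((hA ((s0 + e') / 2) (by linarith) (by linarith) j).2 (by simp))
        a3 (by linarith) a2)
  refine ⟨a, W, w0, ?_⟩
  have hc : ((rem s0 ∪ [a].toFinset).card : ℝ) ≤ Fintype.card ι := by
    exact_mod_cast Finset.card_le_univ _
  simp only [lst, cs, List.toFinset_cons, List.toFinset_nil, insert_empty_eq,
    Finset.card_singleton] at hW hc
  push_cast at hW
  nlinarith

end sweep

end Pool.Agent.MP_cab9bb_co

end

section

set_option autoImplicit false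

open MeasureTheory Set

namespace Pool.Agent.MP_cab9bb_co

theorem vol_box (a b c d : ℝ) (hab : a ≤ b) :
    volume (Icc a b ×ˢ Icc c d : Set (ℝ × ℝ)) = ENNReal.ofReal ((b - a) * (d - c)) := by
  rw [Measure.volume_eq_prod, Measure.prod_prod, Real.volume_Icc, Real.volume_Icc,
    ENNReal.ofReal_mul (sub_nonneg.2 hab)]

/-- the area in the coordinates `(cr Z d, cr Z e)` -/
theorem vol_coord {K R : Set (ℝ × ℝ)} (d e : ℝ × ℝ) (h : ∀ Z ∈ K, (cr Z d, cr Z e) ∈ R) :
    ENNReal.ofReal |cr d e| * volume K ≤ volume R := by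
  have h1 := volume_image_lin (d.2, e.2) (-d.1, -e.1) K
  have h2 : cr (d.2, e.2) (-d.1, -e.1) = cr d e := by unfold cr; ring
  rw [h2] at h1
  rw [← h1]
  refine measure_mono ?_
  rintro _ ⟨Z, hZ, rfl⟩
  convert h Z hZ using 1
  rw [lin_apply]
  unfold cr
  ext <;> simp <;> ring

/-- a band and two side boxes -/
theorem vol_three {K : Set (ℝ × ℝ)} {V : ℝ} (hV : volume K = ENNReal.ofReal V)
    (d e : ℝ × ℝ) {p a b lo hi : ℝ} (hp : 0 ≤ p) (hpa : p ≤ a) (hb : 0 ≤ b) (hl : lo ≤ hi)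
    (hD : 0 ≤ cr d e)
    (h : ∀ Z ∈ K, (cr Z d, cr Z e) ∈ (Icc (-p) p ×ˢ Icc (-b) b ∪ Icc p a ×ˢ Icc lo hi ∪
      Icc (-a) (-p) ×ˢ Icc (-hi) (-lo) : Set (ℝ × ℝ))) :
    cr d e * V ≤ 4 * p * b + 2 * (a - p) * (hi - lo) := by
  have h1 := vol_coord d e h
  have h2 := (measure_union_le (μ := (volume : Measure (ℝ × ℝ)))
    (Icc (-p) p ×ˢ Icc (-b) b ∪ Icc p a ×ˢ Icc lo hi) (Icc (-a) (-p) ×ˢ Icc (-hi) (-lo))).trans
    (add_le_add_left (measure_union_le _ _) _)
  rw [vol_box _ _ _ _ (by linarith), vol_box _ _ _ _ hpa, vol_box _ _ _ _ (by linarith)] at h2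
  have n1 : 0 ≤ (p - -p) * (b - -b) := mul_nonneg (by linarith) (by linarith)
  have n2 : 0 ≤ (a - p) * (hi - lo) := mul_nonneg (by linarith) (by linarith)
  have n3 : 0 ≤ (-p - -a) * (-lo - -hi) := mul_nonneg (by linarith) (by linarith)
  rw [← ENNReal.ofReal_add n1 n2, ← ENNReal.ofReal_add (add_nonneg n1 n2) n3] at h2
  rw [hV, abs_of_nonneg hD, ← ENNReal.ofReal_mul hD] at h1
  have := (ENNReal.ofReal_le_ofReal_iff (add_nonneg (add_nonneg n1 n2) n3)).1 (h1.trans h2)
  linarith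

theorem vol_flat {K : Set (ℝ × ℝ)} (h : ∀ a ∈ K, ∀ b ∈ K, cr a b = 0) : volume K = 0 := by
  by_cases h0 : ∀ a ∈ K, a = 0
  · exact measure_mono_null (t := {0}) (fun a ha => h0 a ha) (measure_singleton _)
  · push Not at h0
    obtain ⟨a, ha, hne⟩ := h0
    have h1 := vol_coord (K := K) (R := ({0} ×ˢ univ : Set (ℝ × ℝ))) a (-a.2, a.1)
      (fun Z hZ => ⟨h Z hZ a ha, mem_univ _⟩)
    rw [Measure.volume_eq_prod (α := ℝ) (β := ℝ), Measure.prod_prod, measure_singleton,
      zero_mul, nonpos_iff_eq_zero, mul_eq_zero] at h1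
    rcases h1 with h1 | h1
    · exfalso
      rw [ENNReal.ofReal_eq_zero, abs_nonpos_iff] at h1
      unfold cr at h1
      simp only at h1
      apply hne
      ext
      · simp only [Prod.fst_zero]; nlinarith [sq_nonneg a.1, sq_nonneg a.2]
      · simp only [Prod.snd_zero]; nlinarith [sq_nonneg a.1, sq_nonneg a.2]
    · exact h1

/-- The two seam inequality. -/
theorem J2 {K : Set (ℝ × ℝ)} (hc : IsCompact K) (hs : ∀ x ∈ K, -x ∈ K) {V t : ℝ}
    (hV : volume K = ENNReal.ofReal V)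
    (ht : ∀ a ∈ K, ∀ b ∈ K, ∀ c ∈ K, cr (b - a) (c - a) ≤ 2 * t)
    {A C A' C' : ℝ × ℝ} (hA : A ∈ K) (hC : C ∈ K) (hA' : A' ∈ K) (hC' : C' ∈ K) :
    V + cr (C - A) (C' - A') + 2 * cr A C + 2 * cr A' C' ≤ 8 * t := by
  let F : (ℝ × ℝ) × (ℝ × ℝ) × (ℝ × ℝ) × (ℝ × ℝ) → ℝ := fun z =>
    cr (z.2.1 - z.1) (z.2.2.2 - z.2.2.1) + 2 * cr z.1 z.2.1 + 2 * cr z.2.2.1 z.2.2.2
  have hF : Continuous F := by unfold F cr; fun_prop
  obtain ⟨⟨u, w, u', w'⟩, ⟨hu, hw, hu', hw'⟩, hmax⟩ :=
    (hc.prod (hc.prod (hc.prod hc))).exists_isMaxOn ⟨(A, C, A', C'), hA, hC, hA', hC'⟩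
      hF.continuousOn
  simp only at hu hw hu' hw'
  have hM : ∀ a ∈ K, ∀ b ∈ K, ∀ a' ∈ K, ∀ b' ∈ K,
      cr (b - a) (b' - a') + 2 * cr a b + 2 * cr a' b' ≤
        cr (w - u) (w' - u') + 2 * cr u w + 2 * cr u' w' :=
    fun a ha b hb a' ha' b' hb' => hmax (a := (a, b, a', b')) ⟨ha, hb, ha', hb'⟩
  have h6 : ∀ a ∈ K, ∀ b ∈ K, 6 * cr a b ≤ cr (w - u) (w' - u') + 2 * cr u w + 2 * cr u' w' := by
    intro a ha b hb
    have := hM a ha b hb b hb (-a) (hs a ha)
    have e : cr (b - a) (-a - b) + 2 * cr a b + 2 * cr b (-a) = 6 * cr a b := by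
      unfold cr; simp; ring
    linarith
  have htri : ∀ a ∈ K, ∀ b ∈ K, ∀ Z ∈ K, cr Z (b - a) ≤ 2 * t - cr a b := by
    intro a ha b hb Z hZ
    have := ht a ha b hb (-Z) (hs Z hZ)
    have e : cr (b - a) (-Z - a) = cr Z (b - a) + cr a b := by unfold cr; simp; ring
    linarith
  have hneg : ∀ Z d : ℝ × ℝ, cr (-Z) d = -cr Z d := by intro Z d; unfold cr; simp; ring
  suffices hfin : V + (cr (w - u) (w' - u') + 2 * cr u w + 2 * cr u' w') ≤ 8 * t by
    have := hM A hA C hC A' hA' C' hC'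
    linarith
  set d := w - u with hd
  set e := w' - u' with he
  set D := cr d e with hD
  set p := cr u w with hp
  set p' := cr u' w' with hp'
  have a1 := h6 u hu w hw
  have a2 := h6 u' hu' w' hw'
  have hp0 : 0 ≤ p := by
    have := hM (-w) (hs w hw) (-u) (hs u hu) u' hu' w' hw'
    have e1 : cr (-u - -w) (w' - u') = D := by rw [hD, hd, he]; unfold cr; simp; ring
    have e2 : cr (-w) (-u) = -p := by rw [hp]; unfold cr; simp; ring
    linarith
  have hDe : D = cr w e - cr u e := by rw [hD, hd]; unfold cr; simp; ring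
  have hψu : cr u e ≤ 0 := by
    have := hM (-w) (hs w hw) u hu u' hu' w' hw'
    have e1 : cr (u - -w) (w' - u') = cr u e + cr w e := by rw [he]; unfold cr; simp; ring
    have e2 : cr (-w) u = p := by rw [hp]; unfold cr; simp; ring
    linarith
  have hψw : 0 ≤ cr w e := by
    have := hM w hw (-u) (hs u hu) u' hu' w' hw'
    have e1 : cr (-u - w) (w' - u') = -cr u e - cr w e := by rw [he]; unfold cr; simp; ring
    have e2 : cr w (-u) = p := by rw [hp]; unfold cr; simp; ring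
    linarith
  have ht0 : 0 ≤ t := by
    have := ht u hu u hu u hu
    unfold cr at this; simp at this; linarith
  have hD2 : 2 * p ≤ D := by linarith
  rcases eq_or_lt_of_le (show 0 ≤ D by linarith) with hD0 | hD0
  · have hz : ∀ a ∈ K, ∀ b ∈ K, cr a b = 0 := by
      intro a ha b hb
      have b1 := h6 a ha b hb
      have b2 := h6 (-a) (hs a ha) b hb
      rw [hneg] at b2
      linarith
    have := vol_flat hz
    rw [hV, ENNReal.ofReal_eq_zero] at this
    linarith
  have hφ : ∀ Z ∈ K, cr Z d ≤ 2 * t - p := fun Z hZ => htri u hu w hw Z hZ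
  have hψ : ∀ Z ∈ K, cr Z e ≤ 2 * t - p' := fun Z hZ => htri u' hu' w' hw' Z hZ
  have hφu : cr u d = p := by rw [hd, hp]; unfold cr; simp; ring
  have hφw : cr w d = p := by rw [hd, hp]; unfold cr; simp; ring
  have hpl : ∀ Z W : ℝ × ℝ, D * cr Z W = cr Z d * cr W e - cr Z e * cr W d := by
    intro Z W; rw [hD]; unfold cr; ring
  have hcap : ∀ Z ∈ K, p ≤ cr Z d → cr u e ≤ cr Z e ∧ cr Z e ≤ cr w e := by
    intro Z hZ hZp
    have hpos : 0 < D + 2 * p := by linarith
    constructor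
    · have m := hM Z hZ w hw u' hu' w' hw'
      have e1 : cr (w - Z) (w' - u') = cr w e - cr Z e := by rw [he]; unfold cr; simp; ring
      have e2 := hpl Z w
      rw [hφw] at e2
      rw [e1] at m
      have m2 := mul_le_mul_of_nonneg_left m hD0.le
      have : (D + 2 * p) * (cr u e - cr Z e) ≤ 0 := by
        nlinarith [mul_nonneg hψw (sub_nonneg.2 hZp)]
      by_contra hcon
      push Not at hcon
      nlinarith [mul_pos hpos (sub_pos.2 hcon)]
    · have m := hM u hu Z hZ u' hu' w' hw'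
      have e1 : cr (Z - u) (w' - u') = cr Z e - cr u e := by rw [he]; unfold cr; simp; ring
      have e2 := hpl u Z
      rw [hφu] at e2
      rw [e1] at m
      have m2 := mul_le_mul_of_nonneg_left m hD0.le
      have : (D + 2 * p) * (cr Z e - cr w e) ≤ 0 := by
        nlinarith [mul_nonneg (neg_nonneg.2 hψu) (sub_nonneg.2 hZp)]
      by_contra hcon
      push Not at hcon
      nlinarith [mul_pos hpos (sub_pos.2 hcon)]
  have b1 := hψ w hw
  have b2 := hψ (-u) (hs u hu)
  rw [hneg] at b2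
  have b3 := hφ u hu
  rw [hφu] at b3
  have key := vol_three hV d e (p := p) (a := 2 * t - p) (b := 2 * t - p') (lo := cr u e)
    (hi := cr w e) hp0 b3 (by linarith) (by linarith) hD0.le (by
      intro Z hZ
      have c1 := hφ Z hZ
      have c2 := hφ (-Z) (hs Z hZ)
      have c3 := hψ Z hZ
      have c4 := hψ (-Z) (hs Z hZ)
      rw [hneg] at c2 c4
      by_cases h1 : p ≤ cr Z d
      · exact Or.inl (Or.inr ⟨⟨h1, c1⟩, hcap Z hZ h1⟩)
      · by_cases h2 : cr Z d ≤ -p
        · have := hcap (-Z) (hs Z hZ) (by rw [hneg]; linarith)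
          rw [hneg] at this
          refine Or.inr ⟨⟨?_, h2⟩, ?_, ?_⟩ <;> simp only <;> linarith [this.1, this.2]
        · refine Or.inl (Or.inl ⟨⟨?_, ?_⟩, ?_, c3⟩) <;> simp only <;> linarith)
  rw [← hD, ← hDe] at key
  have : D * V ≤ D * (8 * t - (D + 2 * p + 2 * p')) := by
    nlinarith [mul_nonneg (sub_nonneg.2 hD2) (show 0 ≤ 4 * t - 2 * p' - D by linarith)]
  have := le_of_mul_le_mul_left this hD0
  linarith

/-- `V ≤ 8 t - 6 q`. -/
theorem A1 {K : Set (ℝ × ℝ)} (hc : IsCompact K) (hs : ∀ x ∈ K, -x ∈ K) {V t : ℝ}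
    (hV : volume K = ENNReal.ofReal V)
    (ht : ∀ a ∈ K, ∀ b ∈ K, ∀ c ∈ K, cr (b - a) (c - a) ≤ 2 * t)
    {A C : ℝ × ℝ} (hA : A ∈ K) (hC : C ∈ K) : V + 6 * cr A C ≤ 8 * t := by
  have := J2 hc hs hV ht hA hC hC (hs A hA)
  have e : cr (C - A) (-A - C) + 2 * cr A C + 2 * cr C (-A) = 6 * cr A C := by
    unfold cr; simp; ring
  linarith

end Pool.Agent.MP_cab9bb_co

end
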