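import Pool.Agent.Mg.Fcab9bb.Ge8321a
import Pool.Agent.Mg.Fcab9bb.Gc07b4c
import Pool.Agent.Mg.Fcab9bb.Gbb3c56

section

set_option autoImplicit false

open MeasureTheory Set

namespace Pool.Agent.MP_cab9bb_co

/-- the seam estimate -/
def SeamStar (K : Set (ℝ × ℝ)) (w : ℝ) (l u : ℝ → ℝ) : Prop :=
  ∀ A ∈ K, ∀ C ∈ K, ∀ σ : ℝ, 0 ≤ A.2 - σ * A.1 → 0 ≤ C.2 - σ * C.1 →
    ∃ A' ∈ K, ∃ C' ∈ K, A' - C' = A - C ∧
      pot w l u A.1 A.2 σ - pot w l u C.1 C.2 σ ≤ A.1 * A.2 - C.1 * C.2 - cr A C + 2 * cr A' C'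

/-- supporting slopes along the upper and the lower boundary -/
structure Slopes (s0 s1 : ℝ) (L U σT σB : ℝ → ℝ) : Prop where
  top : ∀ s, s0 ≤ s → s ≤ s1 → ∀ x, s0 ≤ x → x ≤ s1 → U x ≤ U s + σT s * (x - s)
  bot : ∀ s, s0 ≤ s → s ≤ s1 → ∀ x, s0 ≤ x → x ≤ s1 → L s + σB s * (x - s) ≤ L x

theorem Slopes.top_anti {s0 s1 : ℝ} {L U σT σB : ℝ → ℝ} (S : Slopes s0 s1 L U σT σB) {x y : ℝ}
    (h0 : s0 ≤ x) (h : x ≤ y) (h1 : y ≤ s1) : σT y ≤ σT x := by
  rcases eq_or_lt_of_le h with h | h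
  · rw [h]
  · have a := S.top x h0 (by linarith) y (by linarith) h1
    have c := S.top y (by linarith) h1 x h0 (by linarith)
    by_contra hc
    push Not at hc
    nlinarith

theorem Slopes.bot_mono {s0 s1 : ℝ} {L U σT σB : ℝ → ℝ} (S : Slopes s0 s1 L U σT σB) {x y : ℝ}
    (h0 : s0 ≤ x) (h : x ≤ y) (h1 : y ≤ s1) : σB x ≤ σB y := by
  rcases eq_or_lt_of_le h with h | h
  · rw [h]
  · have a := S.bot x h0 (by linarith) y (by linarith) h1
    have c := S.bot y (by linarith) h1 x h0 (by linarith)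
    by_contra hc
    push Not at hc
    nlinarith

theorem exists_pi {ι : Type*} {K : Set (ℝ × ℝ)} (hc : IsCompact K) (b : ι → ℝ × ℝ) :
    ∃ π : ι → ι → ℝ, ∀ i j, ∀ A ∈ K, ∀ C ∈ K, A - C = b j - b i →
      cr A C ≤ π j i ∧ ∃ A' ∈ K, ∃ C' ∈ K, A' - C' = b j - b i ∧ cr A' C' = π j i := by
  have : ∀ d : ℝ × ℝ, ∃ r : ℝ, ∀ A ∈ K, ∀ C ∈ K, A - C = d →
      cr A C ≤ r ∧ ∃ A' ∈ K, ∃ C' ∈ K, A' - C' = d ∧ cr A' C' = r := by
    intro d
    by_cases h : ∃ A ∈ K, ∃ C ∈ K, A - C = d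
    · obtain ⟨A0, hA0, C0, hC0, h0⟩ := h
      have hcomp : IsCompact ((K ×ˢ K) ∩ {p | p.1 - p.2 = d}) :=
        (hc.prod hc).inter_right (isClosed_eq (by fun_prop) continuous_const)
      obtain ⟨p, hp, hmax⟩ := hcomp.exists_isMaxOn (f := fun p => cr p.1 p.2)
        ⟨(A0, C0), ⟨hA0, hC0⟩, h0⟩ (by unfold cr; fun_prop)
      exact ⟨cr p.1 p.2, fun A hA C hC h => ⟨hmax (a := (A, C)) ⟨⟨hA, hC⟩, h⟩,
        p.1, hp.1.1, p.2, hp.1.2, hp.2, rfl⟩⟩
    · exact ⟨0, fun A hA C hC h' => absurd ⟨A, hA, C, hC, h'⟩ h⟩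
  choose r hr using this
  exact ⟨fun j i => r (b j - b i), fun i j => hr _⟩

section
variable {ι : Type*} {K C : Set (ℝ × ℝ)} {w s0 s1 : ℝ} {l u L U σT σB : ℝ → ℝ} {b : ι → ℝ × ℝ}

/-- the potential along the boundary -/
noncomputable def psi (w : ℝ) (l u : ℝ → ℝ) (s1 : ℝ) (L U σT σB : ℝ → ℝ) (c : ℝ × ℝ) (τ : ℝ) : ℝ :=
  if τ ≤ s1 then pot w l u (τ - c.1) (U τ - c.2) (σT τ) + 2 * c.2 * τ - c.1 * c.2
  else pot w l u (τ - (2 * s1 - c.1)) (-L (2 * s1 - τ) - -c.2) (σB (2 * s1 - τ)) +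
    2 * c.2 * (2 * s1 - τ) - c.1 * c.2 + ∫ ξ in (-w)..w, (u ξ - l ξ)

/-- the area swept along the boundary -/
noncomputable def swept (s0 s1 : ℝ) (L U : ℝ → ℝ) (τ : ℝ) : ℝ :=
  if τ ≤ s1 then ∫ x in s0..τ, U x else (∫ x in s0..s1, U x) + ∫ x in s1..τ, -L (2 * s1 - x)

theorem psi_step (P : Prof K (-w) w l u) (hs : ∀ x ∈ K, -x ∈ K) (PC : Prof C s0 s1 L U)
    (e1 : L s1 = U s1) (S : Slopes s0 s1 L U σT σB) {a : ι} {τ τ' : ℝ} (h0 : s0 ≤ τ)
    (h : τ ≤ τ') (h1 : τ' ≤ 2 * s1 - s0) (hc : ∀ x, τ ≤ x → x ≤ τ' → bcov K s1 L U b a x) :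
    2 * (swept s0 s1 L U τ' - swept s0 s1 L U τ) ≤
      psi w l u s1 L U σT σB (b a) τ' - psi w l u s1 L U σT σB (b a) τ := by
  have cL : Continuous fun x => -L (2 * s1 - x) := by have := PC.clo; fun_prop
  have top : ∀ x y, τ ≤ x → x ≤ y → y ≤ τ' → y ≤ s1 → 2 * ∫ ξ in x..y, U ξ ≤
      pot w l u (y - (b a).1) (U y - (b a).2) (σT y) -
        pot w l u (x - (b a).1) (U x - (b a).2) (σT x) + 2 * (b a).2 * (y - x) := by
    intro x y a1 a2 a3 a4
    refine pot_step P PC.chi a2 (fun z z1 z2 => ?_)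
      (fun z z1 z2 => S.top x (by linarith) (by linarith) z (by linarith) (by linarith))
      (fun z z1 z2 => S.top y (by linarith) a4 z (by linarith) (by linarith))
      (S.top_anti (by linarith) a2 a4)
    have := hc z (by linarith) (by linarith)
    unfold bcov at this
    rwa [gam_top _ _ (by linarith)] at this
  have bot : ∀ x y, τ ≤ x → x ≤ y → y ≤ τ' → s1 ≤ x → 2 * ∫ ξ in x..y, -L (2 * s1 - ξ) ≤
      pot w l u (y - (2 * s1 - (b a).1)) (-L (2 * s1 - y) - -(b a).2) (σB (2 * s1 - y)) -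
        pot w l u (x - (2 * s1 - (b a).1)) (-L (2 * s1 - x) - -(b a).2) (σB (2 * s1 - x)) +
          2 * (-(b a).2) * (y - x) := by
    intro x y a1 a2 a3 a4
    refine pot_step P (g := fun x => -L (2 * s1 - x)) cL a2 (fun z z1 z2 => ?_)
      (fun z z1 z2 => by
        have := S.bot (2 * s1 - x) (by linarith) (by linarith) (2 * s1 - z) (by linarith)
          (by linarith)
        linarith)
      (fun z z1 z2 => by
        have := S.bot (2 * s1 - y) (by linarith) (by linarith) (2 * s1 - z) (by linarith)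
          (by linarith)
        linarith)
      (S.bot_mono (by linarith) (by linarith) (by linarith))
    have := hc z (by linarith) (by linarith)
    unfold bcov at this
    rw [gam_bot e1 (by linarith)] at this
    convert hs _ this using 1
    ext <;> simp <;> ring
  unfold swept psi
  by_cases c2 : τ' ≤ s1
  · rw [if_pos c2, if_pos c2, if_pos (h.trans c2), if_pos (h.trans c2)]
    have := top τ τ' le_rfl h le_rfl c2
    have adj := intervalIntegral.integral_add_adjacent_intervals (μ := volume)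
      (PC.chi.intervalIntegrable s0 τ) (PC.chi.intervalIntegrable τ τ')
    linarith
  · rw [if_neg c2, if_neg c2]
    push Not at c2
    by_cases c1 : τ ≤ s1
    · rw [if_pos c1, if_pos c1]
      have t1 := top τ s1 le_rfl c1 c2.le le_rfl
      have t2 := bot s1 τ' c1 c2.le le_rfl le_rfl
      have adj := intervalIntegral.integral_add_adjacent_intervals (μ := volume)
        (PC.chi.intervalIntegrable s0 τ) (PC.chi.intervalIntegrable τ s1)
      have hm := hc s1 c1 c2.le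
      unfold bcov at hm
      rw [gam_top _ _ le_rfl] at hm
      have hm := ((P.mem _).1 hm).1
      have t3 := pot_turn P hs hm.1 hm.2 (U s1 - (b a).2) (σT s1) (-L (2 * s1 - s1) - -(b a).2)
        (σB (2 * s1 - s1))
      simp only [Prod.fst_sub] at t3
      rw [show -(s1 - (b a).1) = s1 - (2 * s1 - (b a).1) by ring] at t3
      linarith
    · rw [if_neg c1, if_neg c1]
      push Not at c1
      have t2 := bot τ τ' le_rfl h le_rfl c1.le
      have adj := intervalIntegral.integral_add_adjacent_intervals (μ := volume)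
        (cL.intervalIntegrable s1 τ) (cL.intervalIntegrable τ τ')
      linarith

theorem psi_seam (hs : ∀ x ∈ K, -x ∈ K) (PC : Prof C s0 s1 L U) (S : Slopes s0 s1 L U σT σB)
    (hstar : SeamStar K w l u) (hb : ∀ i, b i ∈ C) {π : ι → ι → ℝ}
    (hπ : ∀ i j, ∀ A ∈ K, ∀ C ∈ K, A - C = b j - b i → cr A C ≤ π j i) {i j : ι} {τ : ℝ}
    (h0 : s0 ≤ τ) (h1 : τ ≤ 2 * s1 - s0) (hi : bcov K s1 L U b i τ) (hj : bcov K s1 L U b j τ) :
    psi w l u s1 L U σT σB (b i) τ - psi w l u s1 L U σT σB (b j) τ ≤ om b j i + 2 * π j i := by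
  unfold bcov at hi hj
  have mi := (PC.mem _).1 (hb i)
  have mj := (PC.mem _).1 (hb j)
  unfold psi
  by_cases c1 : τ ≤ s1
  · rw [gam_top _ _ c1] at hi hj
    rw [if_pos c1, if_pos c1]
    have si := S.top τ h0 c1 _ mi.1.1 mi.1.2
    have sj := S.top τ h0 c1 _ mj.1.1 mj.1.2
    obtain ⟨A', hA', C', hC', e, h⟩ := hstar _ hi _ hj (σT τ)
      (by simp only [Prod.fst_sub, Prod.snd_sub]; linarith [mi.2.2])
      (by simp only [Prod.fst_sub, Prod.snd_sub]; linarith [mj.2.2])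
    have := hπ i j A' hA' C' hC' (by rw [e]; abel)
    simp only [Prod.fst_sub, Prod.snd_sub, cr, om] at h this ⊢
    linarith
  · rw [if_neg c1, if_neg c1]
    rw [gam, if_neg c1] at hi hj
    push Not at c1
    have si := S.bot (2 * s1 - τ) (by linarith) (by linarith) _ mi.1.1 mi.1.2
    have sj := S.bot (2 * s1 - τ) (by linarith) (by linarith) _ mj.1.1 mj.1.2
    obtain ⟨A', hA', C', hC', e, h⟩ := hstar _ (hs _ hi) _ (hs _ hj) (σB (2 * s1 - τ))
      (by simp only [Prod.fst_sub, Prod.snd_sub, Prod.fst_neg, Prod.snd_neg]; linarith [mi.2.1])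
      (by simp only [Prod.fst_sub, Prod.snd_sub, Prod.fst_neg, Prod.snd_neg]; linarith [mj.2.1])
    have := hπ i j _ (hs _ hA') _ (hs _ hC') (by rw [neg_sub_neg, ← neg_sub, e]; abel)
    simp only [Prod.fst_sub, Prod.snd_sub, Prod.fst_neg, Prod.snd_neg] at h
    rw [show -(2 * s1 - τ - (b i).1) = τ - (2 * s1 - (b i).1) by ring,
      show -(2 * s1 - τ - (b j).1) = τ - (2 * s1 - (b j).1) by ring,
      show -(L (2 * s1 - τ) - (b i).2) = -L (2 * s1 - τ) - -(b i).2 by ring,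
      show -(L (2 * s1 - τ) - (b j).2) = -L (2 * s1 - τ) - -(b j).2 by ring] at h
    simp only [Prod.fst_sub, Prod.snd_sub, Prod.fst_neg, Prod.snd_neg, cr, om] at h this ⊢
    linarith

theorem psi_walk (P : Prof K (-w) w l u) (hs : ∀ x ∈ K, -x ∈ K) (PC : Prof C s0 s1 L U)
    (e1 : L s1 = U s1) (S : Slopes s0 s1 L U σT σB) (hstar : SeamStar K w l u)
    (hb : ∀ i, b i ∈ C) {π : ι → ι → ℝ}
    (hπ : ∀ i j, ∀ A ∈ K, ∀ C ∈ K, A - C = b j - b i → cr A C ≤ π j i) {e : ℝ} {z : ι}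
    (h1 : e ≤ 2 * s1 - s0) : ∀ {W : List (ℝ × ι)} {s : ℝ} {a : ι}, s0 ≤ s →
      Wk (bcov K s1 L U b) s a W e z → 2 * (swept s0 s1 L U e - swept s0 s1 L U s) ≤
        psi w l u s1 L U σT σB (b z) e - psi w l u s1 L U σT σB (b a) s +
          cs (om b) a (W.map Prod.snd) + 2 * cs π a (W.map Prod.snd)
  | [], s, a, h0, h => by
    obtain ⟨a1, rfl, a3⟩ := h
    simpa [cs] using psi_step P hs PC e1 S h0 a1 h1 a3
  | p :: W, s, a, h0, h => by
    obtain ⟨a1, -, a3, a4⟩ := h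
    have t1 := psi_step P hs PC e1 S h0 a1 (a4.le.trans h1) a3
    have t2 := psi_seam hs PC S hstar hb hπ (h0.trans a1) (a4.le.trans h1) (a3 _ a1 le_rfl) a4.start
    have t3 := psi_walk P hs PC e1 S hstar hb hπ h1 (h0.trans a1) a4
    simp only [List.map_cons, cs]
    linarith

theorem walk_ineq (P : Prof K (-w) w l u) (hs : ∀ x ∈ K, -x ∈ K) (PC : Prof C s0 s1 L U)
    (h01 : s0 < s1) (e1 : L s1 = U s1) (S : Slopes s0 s1 L U σT σB) (hstar : SeamStar K w l u)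
    (hb : ∀ i, b i ∈ C) {π : ι → ι → ℝ}
    (hπ : ∀ i j, ∀ A ∈ K, ∀ C ∈ K, A - C = b j - b i → cr A C ≤ π j i) {z : ι}
    {W : List (ℝ × ι)} (h : Wk (bcov K s1 L U b) s0 z W (2 * s1 - s0) z) :
    2 * ∫ x in s0..s1, (U x - L x) ≤ 2 * (∫ ξ in (-w)..w, (u ξ - l ξ)) +
      cs (om b) z (W.map Prod.snd) + 2 * cs π z (W.map Prod.snd) := by
  have t := psi_walk P hs PC e1 S hstar hb hπ le_rfl le_rfl h
  have hm := h.start
  unfold bcov at hm
  rw [gam_top _ _ h01.le] at hm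
  have hm := ((P.mem _).1 hm).1
  simp only [Prod.fst_sub] at hm
  have n1 : ¬ 2 * s1 - s0 ≤ s1 := by linarith
  unfold swept psi at t
  rw [if_neg n1, if_neg n1, if_pos h01.le, if_pos h01.le] at t
  have t3 := pot_turn P hs (x := 2 * s1 - s0 - (2 * s1 - (b z).1)) (by linarith [hm.2])
    (by linarith [hm.1]) (-L (2 * s1 - (2 * s1 - s0)) - -(b z).2) (σB (2 * s1 - (2 * s1 - s0)))
    (U s0 - (b z).2) (σT s0)
  rw [show -(2 * s1 - s0 - (2 * s1 - (b z).1)) = s0 - (b z).1 by ring] at t3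
  rw [intervalIntegral.integral_neg, intervalIntegral.integral_comp_sub_left L,
    show 2 * s1 - s1 = s1 by ring, intervalIntegral.integral_same] at t
  rw [show 2 * s1 - (2 * s1 - s0) = s0 by ring] at t t3
  rw [intervalIntegral.integral_sub (PC.chi.intervalIntegrable _ _) (PC.clo.intervalIntegrable _ _)]
  linarith

end

end Pool.Agent.MP_cab9bb_co

end

section

set_option autoImplicit false

open MeasureTheory Set

namespace Pool.Agent.MP_cab9bb_co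

theorem vert_mem {S : Set (ℝ × ℝ)} (hv : Convex ℝ S) {x y1 y2 y : ℝ} (h1 : (x, y1) ∈ S)
    (h2 : (x, y2) ∈ S) (a1 : y1 ≤ y) (a2 : y ≤ y2) : (x, y) ∈ S := by
  rcases eq_or_lt_of_le (a1.trans a2) with h | h
  · rwa [show y = y1 by linarith]
  · have hd : 0 < y2 - y1 := by linarith
    have := seg_mem hv h1 h2 (θ := (y - y1) / (y2 - y1)) (div_nonneg (by linarith) hd.le)
      ((div_le_one hd).2 (by linarith))
    convert this using 2
    · simp
    · simp only; field_simp; ring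

theorem chord_pt {S : Set (ℝ × ℝ)} (hv : Convex ℝ S) {P Q : ℝ × ℝ} (hP : P ∈ S) (hQ : Q ∈ S)
    {x : ℝ} (hx : (P.1 ≤ x ∧ x ≤ Q.1) ∨ (Q.1 ≤ x ∧ x ≤ P.1)) :
    ∃ y', (x, y') ∈ S ∧ ∀ y, cr (Q - P) ((x, y) - P) = (Q.1 - P.1) * (y - y') := by
  by_cases h : Q.1 = P.1
  · have : x = P.1 := by rcases hx with hx | hx <;> linarith [hx.1, hx.2]
    subst this
    exact ⟨P.2, hP, fun y => by simp [cr, h]⟩
  · have hd : Q.1 - P.1 ≠ 0 := sub_ne_zero.2 h
    have t : 0 ≤ (x - P.1) / (Q.1 - P.1) ∧ (x - P.1) / (Q.1 - P.1) ≤ 1 := by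
      rcases hx with hx | hx
      · have : 0 < Q.1 - P.1 := lt_of_le_of_ne (by linarith [hx.1, hx.2]) hd.symm
        exact ⟨div_nonneg (by linarith [hx.1]) this.le, (div_le_one this).2 (by linarith [hx.2])⟩
      · have : Q.1 - P.1 < 0 := lt_of_le_of_ne (by linarith [hx.1, hx.2]) hd
        exact ⟨div_nonneg_of_nonpos (by linarith [hx.2]) this.le,
          (div_le_one_of_neg this).2 (by linarith [hx.1])⟩
    have := seg_mem hv hP hQ t.1 t.2
    rw [show P.1 + (x - P.1) / (Q.1 - P.1) * (Q.1 - P.1) = x by field_simp; ring] at this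
    refine ⟨_, this, fun y => ?_⟩
    simp only [cr, Prod.fst_sub, Prod.snd_sub]
    field_simp
    ring

variable {C : Set (ℝ × ℝ)} {s0 s1 : ℝ} {L U σT σB : ℝ → ℝ}

theorem three_top (hv : Convex ℝ C) (PC : Prof C s0 s1 L U) {X Y : ℝ × ℝ} (hX : X ∈ C)
    (hY : Y ∈ C) {α : ℝ} (h1 : X.1 ≤ α) (h2 : α ≤ Y.1) : 0 ≤ cr (Y - X) ((α, U α) - X) := by
  obtain ⟨y, hy, e⟩ := chord_pt hv hX hY (Or.inl ⟨h1, h2⟩)
  rw [e]
  exact mul_nonneg (by linarith) (sub_nonneg.2 ((PC.mem _).1 hy).2.2)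

theorem three_bot (hv : Convex ℝ C) (PC : Prof C s0 s1 L U) {X Y : ℝ × ℝ} (hX : X ∈ C)
    (hY : Y ∈ C) {α : ℝ} (h1 : X.1 ≤ α) (h2 : α ≤ Y.1) : cr (Y - X) ((α, L α) - X) ≤ 0 := by
  obtain ⟨y, hy, e⟩ := chord_pt hv hX hY (Or.inl ⟨h1, h2⟩)
  rw [e]
  exact mul_nonpos_of_nonneg_of_nonpos (by linarith) (sub_nonpos.2 ((PC.mem _).1 hy).2.1)

theorem gam_mem (PC : Prof C s0 s1 L U) {τ : ℝ} (h0 : s0 ≤ τ) (h1 : τ ≤ 2 * s1 - s0) :
    gam s1 L U τ ∈ C := by
  unfold gam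
  split_ifs with h
  · exact PC.hi_mem h0 h
  · exact PC.lo_mem (by linarith) (by linarith)

theorem gam_fst_ge {τ x : ℝ} (h0 : x ≤ τ) (h1 : τ ≤ 2 * s1 - x) : x ≤ (gam s1 L U τ).1 := by
  unfold gam
  split_ifs with h
  · exact h0
  · simp only; linarith

theorem orient (hv : Convex ℝ C) (PC : Prof C s0 s1 L U) (e1 : L s1 = U s1) {a b c : ℝ}
    (h0 : s0 ≤ a) (hab : a ≤ b) (hbc : b ≤ c) (h1 : c ≤ 2 * s1 - s0) :
    cr (gam s1 L U b - gam s1 L U a) (gam s1 L U c - gam s1 L U a) ≤ 0 := by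
  have ma := gam_mem PC h0 (by linarith)
  have mb := gam_mem PC (τ := b) (by linarith) (by linarith)
  have mc := gam_mem PC (τ := c) (by linarith) h1
  rcases le_total c s1 with c1 | c1
  · rw [gam_top _ _ c1] at *
    rw [gam_top (τ := b) _ _ (by linarith)] at *
    rw [gam_top (τ := a) _ _ (by linarith)] at *
    have := three_top hv PC ma mc hab hbc
    simp only [cr, Prod.fst_sub, Prod.snd_sub] at this ⊢
    linarith
  rw [gam_bot e1 c1] at *
  rcases le_total b s1 with b1 | b1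
  · rw [gam_top _ _ b1] at *
    rw [gam_top (τ := a) _ _ (by linarith)] at *
    rcases le_total b (2 * s1 - c) with h | h
    · have := three_top hv PC ma mc hab h
      simp only [cr, Prod.fst_sub, Prod.snd_sub] at this ⊢
      linarith
    rcases le_total a (2 * s1 - c) with h' | h'
    · have := three_bot hv PC ma mb h' h
      simp only [cr, Prod.fst_sub, Prod.snd_sub] at this ⊢
      linarith
    · have := three_top hv PC mc mb h' hab
      simp only [cr, Prod.fst_sub, Prod.snd_sub] at this ⊢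
      linarith
  rw [gam_bot e1 b1] at *
  rcases le_total a s1 with a1 | a1
  · rw [gam_top _ _ a1] at *
    rcases le_total a (2 * s1 - c) with h | h
    · have := three_bot hv PC ma mb h (by simp only; linarith)
      simp only [cr, Prod.fst_sub, Prod.snd_sub] at this ⊢
      linarith
    rcases le_total a (2 * s1 - b) with h' | h'
    · have := three_top hv PC mc mb h h'
      simp only [cr, Prod.fst_sub, Prod.snd_sub] at this ⊢
      linarith
    · have := three_bot hv PC mc ma (α := 2 * s1 - b) (by simp only; linarith) h'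
      simp only [cr, Prod.fst_sub, Prod.snd_sub] at this ⊢
      linarith
  · rw [gam_bot e1 a1] at *
    have := three_bot hv PC mc ma (α := 2 * s1 - b) (by simp only; linarith)
      (by simp only; linarith)
    simp only [cr, Prod.fst_sub, Prod.snd_sub] at this ⊢
    linarith

theorem cr_between {D P : ℝ × ℝ} {x y y1 y2 : ℝ} (a1 : y1 ≤ y) (a2 : y ≤ y2) :
    (cr D ((x, y1) - P) ≤ 0 → cr D ((x, y2) - P) ≤ 0 → cr D ((x, y) - P) ≤ 0) ∧
      (0 ≤ cr D ((x, y1) - P) → 0 ≤ cr D ((x, y2) - P) → 0 ≤ cr D ((x, y) - P)) := by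
  simp only [cr, Prod.fst_sub, Prod.snd_sub]
  rcases le_total 0 D.1 with h | h <;> constructor <;> intro h1 h2 <;> nlinarith

theorem orient_out (hv : Convex ℝ C) (PC : Prof C s0 s1 L U) (e1 : L s1 = U s1) {a b c : ℝ}
    (h0 : s0 ≤ a) (hab : a ≤ b) (h1 : b ≤ 2 * s1 - s0) (c0 : s0 ≤ c) (c1 : c ≤ 2 * s1 - s0)
    (hc : c ≤ a ∨ b ≤ c) :
    cr (gam s1 L U b - gam s1 L U a) (gam s1 L U c - gam s1 L U a) ≤ 0 := by
  rcases hc with h | h
  · have := orient hv PC e1 c0 h hab h1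
    simp only [cr, Prod.fst_sub, Prod.snd_sub] at this ⊢
    linarith
  · exact orient hv PC e1 h0 hab h c1

theorem orient_in (hv : Convex ℝ C) (PC : Prof C s0 s1 L U) (e1 : L s1 = U s1) {a b c : ℝ}
    (h0 : s0 ≤ a) (h1 : b ≤ 2 * s1 - s0) (c0 : a ≤ c) (c1 : c ≤ b) :
    0 ≤ cr (gam s1 L U b - gam s1 L U a) (gam s1 L U c - gam s1 L U a) := by
  have := orient hv PC e1 h0 c0 c1 h1
  simp only [cr, Prod.fst_sub, Prod.snd_sub] at this ⊢
  linarith

theorem arc_inner (hv : Convex ℝ C) (PC : Prof C s0 s1 L U) (e1 : L s1 = U s1) {a b : ℝ}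
    (h0 : s0 ≤ a) (hab : a ≤ b) (h1 : b ≤ 2 * s1 - s0) {S : Set (ℝ × ℝ)} (hS : Convex ℝ S)
    (hin : ∀ τ, a ≤ τ → τ ≤ b → gam s1 L U τ ∈ S) :
    ∀ X ∈ C, 0 < cr (gam s1 L U b - gam s1 L U a) (X - gam s1 L U a) → X ∈ S := by
  rintro ⟨x, y⟩ hX hpos
  obtain ⟨⟨x0, x1⟩, y0, y1⟩ := (PC.mem _).1 hX
  simp only at x0 x1 y0 y1
  have gt : gam s1 L U x = (x, U x) := gam_top _ _ x1
  have gb : gam s1 L U (2 * s1 - x) = (x, L x) := by
    rw [gam_bot e1 (by linarith), show 2 * s1 - (2 * s1 - x) = x by ring]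
  have no : x ≤ a ∨ b ≤ x → 2 * s1 - x ≤ a ∨ b ≤ 2 * s1 - x → False := fun p q => by
    have p := orient_out hv PC e1 h0 hab h1 x0 (by linarith) p
    have q := orient_out hv PC e1 h0 hab h1 (by linarith) (by linarith) q
    rw [gt] at p
    rw [gb] at q
    exact absurd ((cr_between y0 y1).1 q p) (not_le.2 hpos)
  have ma := hin a le_rfl hab
  have mb := hin b hab le_rfl
  rcases le_total a x with p1 | p1
  · rcases le_total b x with p2 | p2
    · exact (no (Or.inr p2) (Or.inr (by linarith))).elim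
    rcases le_total (2 * s1 - x) b with p3 | p3
    · exact vert_mem hS (gb ▸ hin _ (by linarith) p3) (gt ▸ hin _ p1 p2) y0 y1
    · have q1 : (gam s1 L U a).1 ≤ x := by rw [gam_top _ _ (p1.trans x1)]; exact p1
      have q2 : x ≤ (gam s1 L U b).1 := gam_fst_ge p2 p3
      obtain ⟨y', hy', e⟩ := chord_pt hS ma mb (Or.inl ⟨q1, q2⟩)
      rw [e] at hpos
      exact vert_mem hS hy' (gt ▸ hin _ p1 p2) (by nlinarith) y1
  · rcases le_total (2 * s1 - x) a with p2 | p2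
    · exact (no (Or.inl p1) (Or.inl p2)).elim
    rcases le_total b (2 * s1 - x) with p3 | p3
    · exact (no (Or.inl p1) (Or.inr p3)).elim
    · have q1 : (gam s1 L U b).1 ≤ x := by rw [gam_bot e1 (by linarith)]; simp only; linarith
      have q2 : x ≤ (gam s1 L U a).1 := gam_fst_ge p1 p2
      obtain ⟨y', hy', e⟩ := chord_pt hS ma mb (Or.inr ⟨q1, q2⟩)
      rw [e] at hpos
      exact vert_mem hS (gb ▸ hin _ p2 p3) hy' y0 (by nlinarith)

theorem arc_outer (hv : Convex ℝ C) (PC : Prof C s0 s1 L U) (e1 : L s1 = U s1) {a b : ℝ}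
    (h0 : s0 ≤ a) (hab : a ≤ b) (h1 : b ≤ 2 * s1 - s0) {S : Set (ℝ × ℝ)} (hS : Convex ℝ S)
    (ho1 : ∀ τ, s0 ≤ τ → τ ≤ a → gam s1 L U τ ∈ S)
    (ho2 : ∀ τ, b ≤ τ → τ ≤ 2 * s1 - s0 → gam s1 L U τ ∈ S) :
    ∀ X ∈ C, 0 < cr (gam s1 L U a - gam s1 L U b) (X - gam s1 L U b) → X ∈ S := by
  rintro ⟨x, y⟩ hX hpos
  have hneg : cr (gam s1 L U b - gam s1 L U a) ((x, y) - gam s1 L U a) < 0 := by
    simp only [cr, Prod.fst_sub, Prod.snd_sub] at hpos ⊢
    linarith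
  obtain ⟨⟨x0, x1⟩, y0, y1⟩ := (PC.mem _).1 hX
  simp only at x0 x1 y0 y1
  have gt : gam s1 L U x = (x, U x) := gam_top _ _ x1
  have gb : gam s1 L U (2 * s1 - x) = (x, L x) := by
    rw [gam_bot e1 (by linarith), show 2 * s1 - (2 * s1 - x) = x by ring]
  have ma := ho1 a h0 le_rfl
  have mb := ho2 b le_rfl h1
  rcases le_total a x with p1 | p1
  · rcases le_total b x with p2 | p2
    · exact vert_mem hS (gb ▸ ho2 _ (by linarith) (by linarith)) (gt ▸ ho2 _ p2 (by linarith)) y0 y1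
    rcases le_total (2 * s1 - x) b with p3 | p3
    · have p := orient_in hv PC e1 h0 h1 p1 p2
      have q := orient_in hv PC e1 h0 h1 (c := 2 * s1 - x) (by linarith) p3
      rw [gt] at p
      rw [gb] at q
      exact absurd ((cr_between y0 y1).2 q p) (not_le.2 hneg)
    · have q1 : (gam s1 L U a).1 ≤ x := by rw [gam_top _ _ (p1.trans x1)]; exact p1
      have q2 : x ≤ (gam s1 L U b).1 := gam_fst_ge p2 p3
      obtain ⟨y', hy', e⟩ := chord_pt hS ma mb (Or.inl ⟨q1, q2⟩)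
      rw [e] at hneg
      exact vert_mem hS (gb ▸ ho2 _ p3 (by linarith)) hy' y0 (by nlinarith)
  · rcases le_total (2 * s1 - x) a with p2 | p2
    · exact vert_mem hS (gb ▸ ho1 _ (by linarith) p2) (gt ▸ ho1 _ x0 p1) y0 y1
    rcases le_total b (2 * s1 - x) with p3 | p3
    · exact vert_mem hS (gb ▸ ho2 _ p3 (by linarith)) (gt ▸ ho1 _ x0 p1) y0 y1
    · have q1 : (gam s1 L U b).1 ≤ x := by rw [gam_bot e1 (by linarith)]; simp only; linarith
      have q2 : x ≤ (gam s1 L U a).1 := gam_fst_ge p1 p2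
      obtain ⟨y', hy', e⟩ := chord_pt hS ma mb (Or.inr ⟨q1, q2⟩)
      rw [e] at hneg
      exact vert_mem hS hy' (gt ▸ ho1 _ x0 p1) (by nlinarith) y1

theorem all_in (PC : Prof C s0 s1 L U) (e1 : L s1 = U s1) {S : Set (ℝ × ℝ)} (hS : Convex ℝ S)
    (h : ∀ τ, s0 ≤ τ → τ ≤ 2 * s1 - s0 → gam s1 L U τ ∈ S) : C ⊆ S := by
  rintro ⟨x, y⟩ hX
  obtain ⟨⟨x0, x1⟩, y0, y1⟩ := (PC.mem _).1 hX
  simp only at x0 x1 y0 y1
  have gt : gam s1 L U x = (x, U x) := gam_top _ _ x1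
  have gb : gam s1 L U (2 * s1 - x) = (x, L x) := by
    rw [gam_bot e1 (by linarith), show 2 * s1 - (2 * s1 - x) = x by ring]
  exact vert_mem hS (gb ▸ h _ (by linarith) (by linarith)) (gt ▸ h _ x0 (by linarith)) y0 y1

theorem thin (hv : Convex ℝ C) (PC : Prof C s0 s1 L U) {x : ℝ} (h0 : s0 < x) (h1 : x < s1)
    (h : L x = U x) : volume C = 0 := by
  rw [PC.vol]
  have : ∫ y in s0..s1, (U y - L y) = ∫ y in s0..s1, (0 : ℝ) := by
    refine intervalIntegral.integral_congr fun y hy => ?_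
    rw [uIcc_of_le PC.le] at hy
    have hl := PC.lohi y hy.1 hy.2
    show U y - L y = 0
    rcases le_total y x with p | p
    · have a := three_top hv PC (PC.hi_mem hy.1 hy.2) (PC.hi_mem PC.le le_rfl) p h1.le
      have c := three_bot hv PC (PC.lo_mem hy.1 hy.2) (PC.hi_mem PC.le le_rfl) p h1.le
      simp only [cr, Prod.fst_sub, Prod.snd_sub, h] at a c
      nlinarith
    · have a := three_top hv PC (PC.hi_mem le_rfl PC.le) (PC.hi_mem hy.1 hy.2) h0.le p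
      have c := three_bot hv PC (PC.hi_mem le_rfl PC.le) (PC.lo_mem hy.1 hy.2) h0.le p
      simp only [cr, Prod.fst_sub, Prod.snd_sub, h] at a c
      nlinarith
  rw [this]; simp

theorem gam_inj (hfat : ∀ x, s0 < x → x < s1 → L x ≠ U x) {a b : ℝ} (h0 : s0 ≤ a) (hab : a ≤ b)
    (h : gam s1 L U b - gam s1 L U a = 0) : a = b ∨ (a = s0 ∧ b = 2 * s1 - s0) := by
  rw [sub_eq_zero] at h
  unfold gam at h
  split_ifs at h with h1 h2 h2
  · exact Or.inl (congrArg Prod.fst h).symm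
  · linarith
  · have e1 : 2 * s1 - b = a := congrArg Prod.fst h
    have e2 : L (2 * s1 - b) = U a := congrArg Prod.snd h
    rw [e1] at e2
    rcases eq_or_lt_of_le h0 with p | p
    · exact Or.inr ⟨p.symm, by linarith⟩
    · exact absurd e2 (hfat a p (by linarith))
  · have e1 : 2 * s1 - b = 2 * s1 - a := congrArg Prod.fst h
    exact Or.inl (by linarith)

theorem cap_inner (hv : Convex ℝ C) (PC : Prof C s0 s1 L U) (e1 : L s1 = U s1)
    (Sl : Slopes s0 s1 L U σT σB) {a b : ℝ} (h0 : s0 ≤ a) (hab : a ≤ b) (h1 : b ≤ 2 * s1 - s0)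
    (hc : b ≤ s1 ∨ s1 ≤ a ∨ (a ≤ s1 ∧ s1 ≤ b ∧ σT a ≤ σB (2 * s1 - b))) {S : Set (ℝ × ℝ)}
    (hS : Convex ℝ S) {T : ℝ} (tS : ∀ a ∈ S, ∀ b ∈ S, ∀ c ∈ S, cr (b - a) (c - a) ≤ T)
    (hin : ∀ τ, a ≤ τ → τ ≤ b → gam s1 L U τ ∈ S) :
    volume {x | x ∈ C ∧ 0 < cr (gam s1 L U b - gam s1 L U a) (x - gam s1 L U a)} ≤
      ENNReal.ofReal T := by
  have top : ∀ τ, s0 ≤ τ → τ ≤ s1 → ∀ x ∈ C, cr (1, σT τ) (x - gam s1 L U τ) ≤ 0 := by
    intro τ p q x hx
    have m := (PC.mem _).1 hx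
    have := Sl.top τ p q _ m.1.1 m.1.2
    rw [gam_top _ _ q]
    simp only [cr, Prod.fst_sub, Prod.snd_sub]
    linarith [m.2.2]
  have bot : ∀ τ, s1 ≤ τ → τ ≤ 2 * s1 - s0 → ∀ x ∈ C,
      cr (-1, -σB (2 * s1 - τ)) (x - gam s1 L U τ) ≤ 0 := by
    intro τ p q x hx
    have m := (PC.mem _).1 hx
    have := Sl.bot (2 * s1 - τ) (by linarith) (by linarith) _ m.1.1 m.1.2
    rw [gam_bot e1 p]
    simp only [cr, Prod.fst_sub, Prod.snd_sub]
    linarith [m.2.1]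
  have ma := gam_mem PC h0 (hab.trans h1)
  have mb := gam_mem PC (h0.trans hab) h1
  have hi := arc_inner hv PC e1 h0 hab h1 hS hin
  rcases hc with h | h | ⟨p, q, h⟩
  · refine cap_vol ma mb (top a h0 (hab.trans h)) (top b (h0.trans hab) h) ?_ one_ne_zero
      one_ne_zero (Or.inr ?_) tS (hin a le_rfl hab) (hin b hab le_rfl) hi
    · simp only [cr]; linarith [Sl.top_anti h0 hab h]
    · rw [gam_top _ _ h, gam_top _ _ (hab.trans h)]; simp only; linarith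
  · refine cap_vol ma mb (bot a h (hab.trans h1)) (bot b (h.trans hab) h1) ?_ (by simp)
      (by simp) (Or.inr ?_) tS (hin a le_rfl hab) (hin b hab le_rfl) hi
    · simp only [cr]
      linarith [Sl.bot_mono (x := 2 * s1 - b) (y := 2 * s1 - a) (by linarith) (by linarith)
        (by linarith)]
    · rw [gam_bot e1 h, gam_bot e1 (h.trans hab)]; simp only; linarith
  · refine cap_vol ma mb (top a h0 p) (bot b q h1) ?_ one_ne_zero (by simp) (Or.inl (by simp))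
      tS (hin a le_rfl hab) (hin b hab le_rfl) hi
    simp only [cr]; linarith

theorem cap_outer (hv : Convex ℝ C) (PC : Prof C s0 s1 L U) (e1 : L s1 = U s1)
    (Sl : Slopes s0 s1 L U σT σB) {a b : ℝ} (h0 : s0 ≤ a) (ha : a ≤ s1) (hb : s1 ≤ b)
    (h1 : b ≤ 2 * s1 - s0) (hc : σB (2 * s1 - b) ≤ σT a) {S : Set (ℝ × ℝ)}
    (hS : Convex ℝ S) {T : ℝ} (tS : ∀ a ∈ S, ∀ b ∈ S, ∀ c ∈ S, cr (b - a) (c - a) ≤ T)
    (ho1 : ∀ τ, s0 ≤ τ → τ ≤ a → gam s1 L U τ ∈ S)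
    (ho2 : ∀ τ, b ≤ τ → τ ≤ 2 * s1 - s0 → gam s1 L U τ ∈ S) :
    volume {x | x ∈ C ∧ 0 < cr (gam s1 L U a - gam s1 L U b) (x - gam s1 L U b)} ≤
      ENNReal.ofReal T := by
  refine cap_vol (s := (-1, -σB (2 * s1 - b))) (r := (1, σT a)) (gam_mem PC (by linarith) h1)
    (gam_mem PC h0 (by linarith)) (fun x hx => ?_) (fun x hx => ?_) ?_ (by simp) one_ne_zero
    (Or.inl (by simp)) tS (ho2 b le_rfl h1) (ho1 a h0 le_rfl)
    (arc_outer hv PC e1 h0 (ha.trans hb) h1 hS ho1 ho2)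
  · have m := (PC.mem _).1 hx
    have := Sl.bot (2 * s1 - b) (by linarith) (by linarith) _ m.1.1 m.1.2
    rw [gam_bot e1 hb]
    simp only [cr, Prod.fst_sub, Prod.snd_sub]
    linarith [m.2.1]
  · have m := (PC.mem _).1 hx
    have := Sl.top a h0 ha _ m.1.1 m.1.2
    rw [gam_top _ _ ha]
    simp only [cr, Prod.fst_sub, Prod.snd_sub]
    linarith [m.2.2]
  · simp only [cr]; linarith

theorem two_seams (hc : IsCompact C) (hv : Convex ℝ C) (PC : Prof C s0 s1 L U) (e1 : L s1 = U s1)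
    (hfat : ∀ x, s0 < x → x < s1 → L x ≠ U x) {T : ℝ} (T0 : 0 ≤ T) {S0 S1 : Set (ℝ × ℝ)}
    (v0 : Convex ℝ S0) (v1 : Convex ℝ S1)
    (t0 : ∀ a ∈ S0, ∀ b ∈ S0, ∀ c ∈ S0, cr (b - a) (c - a) ≤ T)
    (t1 : ∀ a ∈ S1, ∀ b ∈ S1, ∀ c ∈ S1, cr (b - a) (c - a) ≤ T)
    (n0 : ¬ C ⊆ S0) (n1 : ¬ C ⊆ S1) {a b : ℝ} (h0 : s0 ≤ a) (hab : a ≤ b) (h1 : b ≤ 2 * s1 - s0)
    (c0 : ∀ τ, s0 ≤ τ → τ ≤ a → gam s1 L U τ ∈ S0) (c1 : ∀ τ, a ≤ τ → τ ≤ b → gam s1 L U τ ∈ S1)
    (c2 : ∀ τ, b ≤ τ → τ ≤ 2 * s1 - s0 → gam s1 L U τ ∈ S0) :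
    volume C ≤ ENNReal.ofReal (2 * T) := by
  have hi := arc_inner hv PC e1 h0 hab h1 v1 c1
  have ho := arc_outer hv PC e1 h0 hab h1 v0 c0 c2
  have e : ∀ x, cr (gam s1 L U a - gam s1 L U b) (x - gam s1 L U b) =
      -cr (gam s1 L U b - gam s1 L U a) (x - gam s1 L U a) := fun x => by
    simp only [cr, Prod.fst_sub, Prod.snd_sub]; ring
  simp only [e, neg_pos] at ho
  refine two_cell hc hv T0 (D := gam s1 L U b - gam s1 L U a) (Q := gam s1 L U a) (fun h => ?_)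
    (fun x hx y hy z hz p q r => t1 x (hi x hx p) y (hi y hy q) z (hi z hz r))
    (fun x hx y hy z hz p q r => t0 x (ho x hx p) y (ho y hy q) z (ho z hz r))
  rcases gam_inj hfat h0 hab h with rfl | ⟨rfl, rfl⟩
  · exact n0 (all_in PC e1 v0 fun τ p q => (le_total τ a).elim (c0 τ p) fun r => c2 τ r q)
  · exact n1 (all_in PC e1 v1 c1)

theorem four_seams (hc : IsCompact C) (hv : Convex ℝ C) (PC : Prof C s0 s1 L U) (e1 : L s1 = U s1)
    (Sl : Slopes s0 s1 L U σT σB)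
    (hfat : ∀ x, s0 < x → x < s1 → L x ≠ U x) {T : ℝ} (T0 : 0 ≤ T) {S0 S1 S2 S3 : Set (ℝ × ℝ)}
    (v0 : Convex ℝ S0) (v1 : Convex ℝ S1) (v2 : Convex ℝ S2) (v3 : Convex ℝ S3)
    (t0 : ∀ a ∈ S0, ∀ b ∈ S0, ∀ c ∈ S0, cr (b - a) (c - a) ≤ T)
    (t1 : ∀ a ∈ S1, ∀ b ∈ S1, ∀ c ∈ S1, cr (b - a) (c - a) ≤ T)
    (t2 : ∀ a ∈ S2, ∀ b ∈ S2, ∀ c ∈ S2, cr (b - a) (c - a) ≤ T)
    (t3 : ∀ a ∈ S3, ∀ b ∈ S3, ∀ c ∈ S3, cr (b - a) (c - a) ≤ T)
    (n0 : ¬ C ⊆ S0) (n1 : ¬ C ⊆ S1) (n2 : ¬ C ⊆ S2) (n3 : ¬ C ⊆ S3) {a b c d : ℝ} (h0 : s0 ≤ a)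
    (hab : a ≤ b)
    (hbc : b ≤ c) (hcd : c ≤ d) (h1 : d ≤ 2 * s1 - s0)
    (c0 : ∀ τ, s0 ≤ τ → τ ≤ a → gam s1 L U τ ∈ S0) (c1 : ∀ τ, a ≤ τ → τ ≤ b → gam s1 L U τ ∈ S1)
    (c2 : ∀ τ, b ≤ τ → τ ≤ c → gam s1 L U τ ∈ S2) (c3 : ∀ τ, c ≤ τ → τ ≤ d → gam s1 L U τ ∈ S3)
    (c4 : ∀ τ, d ≤ τ → τ ≤ 2 * s1 - s0 → gam s1 L U τ ∈ S0) (hrep : S0 = S2 ∨ S1 = S3) :
    volume C ≤ ENNReal.ofReal (3 * T) := by
  have i1 := arc_inner hv PC e1 h0 hab (by linarith) v1 c1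
  have i2 := arc_inner hv PC e1 (by linarith) hbc (by linarith) v2 c2
  have i3 := arc_inner hv PC e1 (by linarith) hcd h1 v3 c3
  have i0 := arc_outer hv PC e1 h0 (by linarith) h1 v0 c0 c4
  rcases hrep with rfl | rfl
  · have mid : ∀ x ∈ C, cr (gam s1 L U b - gam s1 L U a) (x - gam s1 L U a) ≤ 0 →
        cr (gam s1 L U d - gam s1 L U c) (x - gam s1 L U c) ≤ 0 →
        cr (gam s1 L U b - gam s1 L U a) (x - gam s1 L U a) < 0 ∨
          cr (gam s1 L U d - gam s1 L U c) (x - gam s1 L U c) < 0 → x ∈ S0 := by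
      intro x hx p q r
      by_contra hn
      have p2 := not_lt.1 fun h => hn (i2 x hx h)
      have p0 := not_lt.1 fun h => hn (i0 x hx h)
      exact hn (quad_mem v0 (c0 a h0 le_rfl) (c2 b le_rfl hbc) (c2 c hbc le_rfl) (c4 d le_rfl h1)
        p p2 q p0 (by rcases r with r | r <;> linarith))
    have hD : gam s1 L U b - gam s1 L U a ≠ 0 ∨ gam s1 L U d - gam s1 L U c ≠ 0 := by
      by_contra h
      push Not at h
      rcases gam_inj hfat h0 hab h.1 with rfl | ⟨rfl, rfl⟩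
      · rcases gam_inj hfat (by linarith) hcd h.2 with rfl | ⟨rfl, rfl⟩
        · exact n0 (all_in PC e1 v0 fun τ p q => (le_total τ a).elim (c0 τ p) fun r =>
            (le_total τ c).elim (c2 τ r) fun r => c4 τ r q)
        · exact n3 (all_in PC e1 v3 c3)
      · exact n1 (all_in PC e1 v1 c1)
    rcases le_total b s1 with h | h
    · exact three_cell hc hv T0 hD t1 t0 t3 i1 i3 mid
        (cap_inner hv PC e1 Sl h0 hab (by linarith) (Or.inl h) v1 t1 c1)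
    · exact three_cell hc hv T0 hD.symm t3 t0 t1 i3 i1
        (fun x hx p q r => mid x hx q p r.symm)
        (cap_inner hv PC e1 Sl (by linarith) hcd h1 (Or.inr (Or.inl (by linarith))) v3 t3 c3)
  · have mid : ∀ x ∈ C, cr (gam s1 L U c - gam s1 L U b) (x - gam s1 L U b) ≤ 0 →
        cr (gam s1 L U a - gam s1 L U d) (x - gam s1 L U d) ≤ 0 →
        cr (gam s1 L U c - gam s1 L U b) (x - gam s1 L U b) < 0 ∨
          cr (gam s1 L U a - gam s1 L U d) (x - gam s1 L U d) < 0 → x ∈ S1 := by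
      intro x hx p q r
      by_contra hn
      have p1 := not_lt.1 fun h => hn (i1 x hx h)
      have p3 := not_lt.1 fun h => hn (i3 x hx h)
      exact hn (quad_mem v1 (c1 a le_rfl hab) (c1 b hab le_rfl) (c3 c le_rfl hcd) (c3 d hcd le_rfl)
        p1 p p3 q (by rcases r with r | r <;> linarith))
    have hD : gam s1 L U c - gam s1 L U b ≠ 0 ∨ gam s1 L U a - gam s1 L U d ≠ 0 := by
      by_contra h
      push Not at h
      have h2 : gam s1 L U d - gam s1 L U a = 0 := by rw [← neg_sub, h.2, neg_zero]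
      rcases gam_inj hfat h0 (by linarith) h2 with rfl | ⟨rfl, rfl⟩
      · exact n0 (all_in PC e1 v0 fun τ p q => (le_total τ a).elim (c0 τ p) fun r => c4 τ r q)
      · rcases gam_inj hfat hab hbc h.1 with rfl | ⟨rfl, rfl⟩
        · exact n1 (all_in PC e1 v1 fun τ p q => (le_total τ b).elim (c1 τ p) fun r => c3 τ r q)
        · exact n2 (all_in PC e1 v2 c2)
    by_cases h : c ≤ s1 ∨ s1 ≤ b ∨ (b ≤ s1 ∧ s1 ≤ c ∧ σT b ≤ σB (2 * s1 - c))
    · exact three_cell hc hv T0 hD t2 t1 t0 i2 i0 mid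
        (cap_inner hv PC e1 Sl (by linarith) hbc (by linarith) h v2 t2 c2)
    · push Not at h
      obtain ⟨p, q, r⟩ := h
      have r := r q.le p.le
      exact three_cell hc hv T0 hD.symm t0 t1 t2 i0 i2
        (fun x hx p q r => mid x hx q p r.symm)
        (cap_outer hv PC e1 Sl h0 (by linarith) (by linarith) h1 (by
          have := Sl.top_anti h0 hab q.le
          have := Sl.bot_mono (x := 2 * s1 - d) (y := 2 * s1 - c) (by linarith) (by linarith)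
            (by linarith)
          linarith) v0 t0 c0 c4)

end Pool.Agent.MP_cab9bb_co

end

section

set_option autoImplicit false

open MeasureTheory Set

namespace Pool.Agent.MP_cab9bb_co

/-- the inequality for three seams -/
def M3 (K : Set (ℝ × ℝ)) (V t : ℝ) : Prop :=
  ∀ A1 ∈ K, ∀ C1 ∈ K, ∀ A2 ∈ K, ∀ C2 ∈ K, ∀ A3 ∈ K, ∀ C3 ∈ K,
    (A1 - C1) + (A2 - C2) + (A3 - C3) = 0 →
      2 * V - cr (A1 - C1) (A2 - C2) + 2 * (cr A1 C1 + cr A2 C2 + cr A3 C3) ≤ 12 * t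

/-- the inequality for five seams -/
def M5 (K : Set (ℝ × ℝ)) (V t : ℝ) : Prop :=
  ∀ A1 ∈ K, ∀ C1 ∈ K, ∀ A2 ∈ K, ∀ C2 ∈ K, ∀ A3 ∈ K, ∀ C3 ∈ K, ∀ A4 ∈ K, ∀ C4 ∈ K,
    ∀ A5 ∈ K, ∀ C5 ∈ K, (A1 - C1) + (A2 - C2) + (A3 - C3) + (A4 - C4) + (A5 - C5) = 0 →
      V + (cr A1 C1 + cr A2 C2 + cr A3 C3 + cr A4 C4 + cr A5 C5) ≤ 7 * t

theorem cs_le {ι : Type*} {cov : ι → ℝ → Prop} {π : ι → ι → ℝ} {r : ℝ}
    (h : ∀ i j τ, cov i τ → cov j τ → π j i ≤ r) {e : ℝ} {z : ι} :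
    ∀ {W : List (ℝ × ι)} {s : ℝ} {a : ι}, Wk cov s a W e z → cs π a (W.map Prod.snd) ≤ r * W.length
  | [], _, _, _ => by simp [cs]
  | p :: W, s, a, hW => by
    have := cs_le h hW.2.2.2
    have := h a p.2 p.1 (hW.2.2.1 _ hW.1 le_rfl) hW.2.2.2.start
    simp only [List.map_cons, cs, List.length_cons]
    push_cast
    linarith

theorem vol_le_four {K : Set (ℝ × ℝ)} (hc : IsCompact K) (hv : Convex ℝ K) {t : ℝ} (t0 : 0 ≤ t)
    (ht : ∀ a ∈ K, ∀ b ∈ K, ∀ c ∈ K, cr (b - a) (c - a) ≤ 2 * t) :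
    volume K ≤ ENNReal.ofReal (4 * t) := by
  have := two_cell hc hv (T := 2 * t) (by linarith) (D := (1, 0)) (Q := 0) (by simp)
    (fun a ha b hb c hc _ _ _ => ht a ha b hb c hc) (fun a ha b hb c hc _ _ _ => ht a ha b hb c hc)
  rwa [show 2 * (2 * t) = 4 * t by ring] at this

theorem core {K C : Set (ℝ × ℝ)} {w s0 s1 : ℝ} {l u L U σT σB : ℝ → ℝ} (hKc : IsCompact K)
    (hK : Convex ℝ K) (hs : ∀ x ∈ K, -x ∈ K) (P : Prof K (-w) w l u) {t : ℝ}
    (ht : ∀ a ∈ K, ∀ b ∈ K, ∀ c ∈ K, cr (b - a) (c - a) ≤ 2 * t) (hstar : SeamStar K w l u)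
    (h3 : M3 K (∫ ξ in (-w)..w, (u ξ - l ξ)) t) (h5 : M5 K (∫ ξ in (-w)..w, (u ξ - l ξ)) t)
    {k : ℕ} (hk : 2 ≤ k) (hCc : IsCompact C) (hC : Convex ℝ C) (PC : Prof C s0 s1 L U)
    (h01 : s0 < s1) (e0 : L s0 = U s0) (e1 : L s1 = U s1) (Sl : Slopes s0 s1 L U σT σB)
    {b : Fin k → ℝ × ℝ} (hb : ∀ i, b i ∈ C) (hcov : ∀ x ∈ C, ∃ i, x - b i ∈ K) :
    volume C ≤ ENNReal.ofReal (2 * k * t) := by
  have t0 : 0 ≤ t := by
    have m := P.hi_mem le_rfl P.le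
    have := ht _ m _ m _ m
    simp only [cr, sub_self, Prod.fst_zero, Prod.snd_zero] at this
    linarith
  have hk' : (2 : ℝ) ≤ k := by exact_mod_cast hk
  let S : Fin k → Set (ℝ × ℝ) := fun i => {x | x - b i ∈ K}
  have vS : ∀ i, Convex ℝ (S i) := by
    intro i x hx y hy p q hp hq hpq
    have := hK hx hy hp hq hpq
    show _ - _ ∈ K
    convert this using 1
    have : q = 1 - p := by linarith
    subst this
    ext <;> simp <;> ring
  have tS : ∀ i, ∀ x ∈ S i, ∀ y ∈ S i, ∀ z ∈ S i, cr (y - x) (z - x) ≤ 2 * t := by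
    intro i x hx y hy z hz
    simpa only [sub_sub_sub_cancel_right] using ht _ hx _ hy _ hz
  by_cases hn : ∃ i, C ⊆ S i
  · obtain ⟨i, hi⟩ := hn
    refine (measure_mono hi).trans ?_
    have : volume (S i) = volume K := by
      rw [← measure_preimage_add_right volume (-b i) K]
      simp only [S, ← sub_eq_add_neg]
      rfl
    rw [this]
    exact (vol_le_four hKc hK t0 ht).trans (ENNReal.ofReal_le_ofReal (by nlinarith))
  push Not at hn
  by_cases hfat : ∃ x, s0 < x ∧ x < s1 ∧ L x = U x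
  · obtain ⟨x, x0, x1, hx⟩ := hfat
    rw [thin hC PC x0 x1 hx]; exact zero_le
  push Not at hfat
  obtain ⟨z, W, hW, hcount⟩ := sweep hK P hC PC h01 e0 e1 hcov t0 ht
  obtain ⟨π, hπ⟩ := exists_pi hKc b
  have main := walk_ineq P hs PC h01 e1 Sl hstar hb (fun i j A hA C hC h => (hπ i j A hA C hC h).1) hW
  have pair : ∀ i j τ, bcov K s1 L U b i τ → bcov K s1 L U b j τ →
      ∃ A' ∈ K, ∃ C' ∈ K, A' - C' = b j - b i ∧ cr A' C' = π j i := fun i j τ hi hj =>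
    (hπ i j _ hi _ hj (by abel)).2
  set V := ∫ ξ in (-w)..w, (u ξ - l ξ) with hV
  rw [Fintype.card_fin] at hcount
  have fin : 2 * ∫ x in s0..s1, (U x - L x) ≤ 4 * k * t → volume C ≤ ENNReal.ofReal (2 * k * t) :=
    fun h => by rw [PC.vol]; exact ENNReal.ofReal_le_ofReal (by linarith)
  match W, hW, hcount, main with
  | [], hW, _, _ => exact absurd (all_in PC e1 (vS z) hW.2.2) (hn z)
  | [p], hW, _, _ => exact absurd hW.2.2.2.2.1.symm hW.2.1
  | [p1, p2], ⟨a1, _, c1, a2, _, c2, a3, e, c3⟩, _, _ =>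
    subst e
    exact (two_seams hCc hC PC e1 hfat (by linarith) (vS _) (vS _) (tS _) (tS _) (hn _) (hn _)
      a1 a2 a3 c1 c2 c3).trans (ENNReal.ofReal_le_ofReal (by nlinarith))
  | [p1, p2, p3], ⟨a1, n1, c1, a2, n2, c2, a3, n3, c3, a4, e, c4⟩, _, main =>
    subst e
    obtain ⟨A1, hA1, C1, hC1, d1, q1⟩ := pair _ _ _ (c1 _ a1 le_rfl) (c2 _ le_rfl a2)
    obtain ⟨A2, hA2, C2, hC2, d2, q2⟩ := pair _ _ _ (c2 _ a2 le_rfl) (c3 _ le_rfl a3)
    obtain ⟨A3, hA3, C3, hC3, d3, q3⟩ := pair _ _ _ (c3 _ a3 le_rfl) (c4 _ le_rfl a4)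
    have := h3 A1 hA1 C1 hC1 A2 hA2 C2 hC2 A3 hA3 C3 hC3 (by rw [d1, d2, d3]; abel)
    rw [d1, d2, q1, q2, q3] at this
    have hk3 : (3 : ℝ) ≤ k := by
      have := p1.2.2
      have := p2.2.2
      have := p3.2.2
      rw [Ne, Fin.ext_iff] at n1 n2 n3
      exact_mod_cast (by omega : 3 ≤ k)
    simp only [List.map_cons, List.map_nil, cs, om, cr, Prod.fst_sub, Prod.snd_sub] at main this
    exact fin (by nlinarith)
  | [p1, p2, p3, p4], ⟨a1, n1, c1, a2, n2, c2, a3, n3, c3, a4, n4, c4, a5, e, c5⟩, hcount, main =>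
    subst e
    rcases Nat.lt_or_ge k 4 with hk4 | hk4
    · have hrep : p4.2 = p2.2 ∨ p1.2 = p3.2 := by
        have := p1.2.2
        have := p2.2.2
        have := p3.2.2
        have := p4.2.2
        rw [Ne, Fin.ext_iff] at n1 n2 n3 n4
        rw [Fin.ext_iff, Fin.ext_iff]
        omega
      refine (four_seams hCc hC PC e1 Sl hfat (by linarith) (vS _) (vS _) (vS _) (vS _) (tS _) (tS _)
        (tS _) (tS _) (hn _) (hn _) (hn _) (hn _) a1 a2 a3 a4 a5 c1 c2 c3 c4 c5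
        (hrep.imp (congrArg S) (congrArg S))).trans (ENNReal.ofReal_le_ofReal ?_)
      rcases Nat.lt_or_ge k 3 with hk3 | hk3
      · have hrep : p4.2 = p2.2 ∧ p1.2 = p3.2 := by
          have := p1.2.2
          have := p2.2.2
          have := p3.2.2
          have := p4.2.2
          rw [Ne, Fin.ext_iff] at n1 n2 n3 n4
          rw [Fin.ext_iff, Fin.ext_iff]
          omega
        have hk2 : (k : ℝ) = 2 := by exact_mod_cast (by omega : k = 2)
        simp only [List.map_cons, List.map_nil, cs, om, cr, hrep.1, hrep.2, hk2, List.length_cons,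
          List.length_nil] at hcount
        rw [hk2]
        push_cast at hcount
        linarith
      · have : (3 : ℝ) ≤ k := by exact_mod_cast hk3
        nlinarith
    · obtain ⟨A1, hA1, C1, hC1, d1, q1⟩ := pair _ _ _ (c1 _ a1 le_rfl) (c2 _ le_rfl a2)
      obtain ⟨A2, hA2, C2, hC2, d2, q2⟩ := pair _ _ _ (c2 _ a2 le_rfl) (c3 _ le_rfl a3)
      obtain ⟨A3, hA3, C3, hC3, d3, q3⟩ := pair _ _ _ (c3 _ a3 le_rfl) (c4 _ le_rfl a4)
      obtain ⟨A4, hA4, C4, hC4, d4, q4⟩ := pair _ _ _ (c4 _ a4 le_rfl) (c5 _ le_rfl a5)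
      have j1 := J2 hKc hs P.vol ht hA2 hC2 hA1 hC1
      have j2 := J2 hKc hs P.vol ht hA4 hC4 hA3 hC3
      rw [← neg_sub A1, ← neg_sub A2, d1, d2, q1, q2] at j1
      rw [← neg_sub A3, ← neg_sub A4, d3, d4, q3, q4] at j2
      have : (4 : ℝ) ≤ k := by exact_mod_cast hk4
      simp only [List.map_cons, List.map_nil, cs, om, cr, Prod.fst_sub, Prod.snd_sub, Prod.fst_neg,
        Prod.snd_neg] at main j1 j2
      exact fin (by nlinarith)
  | [p1, p2, p3, p4, p5],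
      ⟨a1, _, c1, a2, _, c2, a3, _, c3, a4, _, c4, a5, _, c5, a6, e, c6⟩, hcount, main =>
    subst e
    obtain ⟨A1, hA1, C1, hC1, d1, q1⟩ := pair _ _ _ (c1 _ a1 le_rfl) (c2 _ le_rfl a2)
    obtain ⟨A2, hA2, C2, hC2, d2, q2⟩ := pair _ _ _ (c2 _ a2 le_rfl) (c3 _ le_rfl a3)
    obtain ⟨A3, hA3, C3, hC3, d3, q3⟩ := pair _ _ _ (c3 _ a3 le_rfl) (c4 _ le_rfl a4)
    obtain ⟨A4, hA4, C4, hC4, d4, q4⟩ := pair _ _ _ (c4 _ a4 le_rfl) (c5 _ le_rfl a5)
    obtain ⟨A5, hA5, C5, hC5, d5, q5⟩ := pair _ _ _ (c5 _ a5 le_rfl) (c6 _ le_rfl a6)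
    have := h5 A1 hA1 C1 hC1 A2 hA2 C2 hC2 A3 hA3 C3 hC3 A4 hA4 C4 hC4 A5 hA5 C5 hC5
      (by rw [d1, d2, d3, d4, d5]; abel)
    rw [q1, q2, q3, q4, q5] at this
    simp only [List.map_cons, List.map_nil, cs, List.length_cons, List.length_nil] at main hcount
    push_cast at hcount
    exact fin (by linarith)
  | p1 :: p2 :: p3 :: p4 :: p5 :: p6 :: W', hW, hcount, main =>
    have hr := cs_le (π := π) (r := min t ((8 * t - V) / 6)) (fun i j τ hi hj => by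
      obtain ⟨A, hA, C, hC, -, q⟩ := pair i j τ hi hj
      have r1 := A1 hKc hs P.vol ht hA hC
      have r2 := ht _ (hs _ hA) _ hA _ hC
      rw [← q]
      refine le_min ?_ (by linarith)
      simp only [cr, Prod.fst_sub, Prod.snd_sub, Prod.fst_neg, Prod.snd_neg] at r2 ⊢
      linarith) hW
    have hm : (6 : ℝ) ≤ (p1 :: p2 :: p3 :: p4 :: p5 :: p6 :: W').length := by
      simp only [List.length_cons]; push_cast; linarith [Nat.cast_nonneg (α := ℝ) W'.length]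
    refine fin ?_
    generalize ((p1 :: p2 :: p3 :: p4 :: p5 :: p6 :: W').length : ℝ) = m at *
    have r1 := min_le_left t ((8 * t - V) / 6)
    have r2 := min_le_right t ((8 * t - V) / 6)
    nlinarith

theorem exists_slope {f : ℝ → ℝ} {a b M : ℝ}
    (h3 : ∀ x s y, a ≤ x → x ≤ s → s ≤ y → y ≤ b → (f y - f x) * (s - x) ≤ (y - x) * (f s - f x))
    (ha : ∀ x, a ≤ x → x ≤ b → f x ≤ f a + M * (x - a))
    (hb : ∀ x, a ≤ x → x ≤ b → f x ≤ f b + M * (b - x)) :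
    ∃ σ : ℝ → ℝ, ∀ s, a ≤ s → s ≤ b → ∀ x, a ≤ x → x ≤ b → f x ≤ f s + σ s * (x - s) := by
  have : ∀ s, ∃ σ : ℝ, a ≤ s → s ≤ b → ∀ x, a ≤ x → x ≤ b → f x ≤ f s + σ * (x - s) := by
    intro s
    by_cases h0 : s = a
    · subst h0; exact ⟨M, fun _ _ => ha⟩
    by_cases h1 : s = b
    · subst h1; exact ⟨-M, fun _ _ x p q => by linarith [hb x p q]⟩
    refine ⟨sSup ((fun y => (f y - f s) / (y - s)) '' Ioc s b), fun p q x x0 x1 => ?_⟩
    have p' : a < s := lt_of_le_of_ne p (Ne.symm h0)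
    have q' : s < b := lt_of_le_of_ne q h1
    have bd : ∀ x, a ≤ x → x < s → (f s - f x) / (s - x) ∈
        upperBounds ((fun y => (f y - f s) / (y - s)) '' Ioc s b) := by
      rintro x x0 x1 _ ⟨y, hy, rfl⟩
      have := h3 x s y x0 x1.le hy.1.le hy.2
      rw [div_le_div_iff₀ (by linarith [hy.1]) (by linarith)]
      linarith
    rcases lt_trichotomy x s with h | h | h
    · have := csSup_le ((nonempty_Ioc.2 q').image _) (bd x x0 h)
      rw [le_div_iff₀ (by linarith)] at this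
      linarith
    · subst h; simp
    · have := le_csSup ⟨_, bd a le_rfl p'⟩ ⟨x, ⟨h, x1⟩, rfl⟩
      simp only at this
      rw [div_le_iff₀ (by linarith)] at this
      linarith
  choose σ hσ using this
  exact ⟨σ, hσ⟩

theorem core_cone {K C : Set (ℝ × ℝ)} {w : ℝ} {l u : ℝ → ℝ} (hKc : IsCompact K)
    (hK : Convex ℝ K) (hs : ∀ x ∈ K, -x ∈ K) (P : Prof K (-w) w l u) {t : ℝ}
    (ht : ∀ a ∈ K, ∀ b ∈ K, ∀ c ∈ K, cr (b - a) (c - a) ≤ 2 * t) (hstar : SeamStar K w l u)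
    (h3 : M3 K (∫ ξ in (-w)..w, (u ξ - l ξ)) t) (h5 : M5 K (∫ ξ in (-w)..w, (u ξ - l ξ)) t)
    {k : ℕ} (hk : 2 ≤ k) (hCc : IsCompact C) (hC : Convex ℝ C) {s0 s1 y0 y1 M : ℝ} (h01 : s0 < s1)
    (m0 : (s0, y0) ∈ C) (m1 : (s1, y1) ∈ C)
    (c0 : ∀ p ∈ C, |p.2 - y0| ≤ M * (p.1 - s0)) (c1 : ∀ p ∈ C, |p.2 - y1| ≤ M * (s1 - p.1))
    (hM : 0 < M) {b : Fin k → ℝ × ℝ} (hcov : ∀ x ∈ C, ∃ i, x - b i ∈ K) :
    volume C ≤ ENNReal.ofReal (2 * k * t) := by
  obtain ⟨a, c, L, U, PC⟩ := exists_prof hCc hC ⟨_, m0⟩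
  have ea : a = s0 := by
    have h1 := ((PC.mem _).1 m0).1.1
    have h2 := (abs_nonneg _).trans (c0 _ (PC.hi_mem le_rfl PC.le))
    have := nonneg_of_mul_nonneg_right h2 hM
    simp only at h1 this
    linarith
  have ec : c = s1 := by
    have h1 := ((PC.mem _).1 m1).1.2
    have h2 := (abs_nonneg _).trans (c1 _ (PC.hi_mem PC.le le_rfl))
    have := nonneg_of_mul_nonneg_right h2 hM
    simp only at h1 this
    linarith
  subst ea ec
  have u0 : U a = y0 := by simpa [sub_eq_zero] using c0 _ (PC.hi_mem le_rfl PC.le)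
  have l0 : L a = y0 := by simpa [sub_eq_zero] using c0 _ (PC.lo_mem le_rfl PC.le)
  have u1 : U c = y1 := by simpa [sub_eq_zero] using c1 _ (PC.hi_mem PC.le le_rfl)
  have l1 : L c = y1 := by simpa [sub_eq_zero] using c1 _ (PC.lo_mem PC.le le_rfl)
  obtain ⟨σT, hT⟩ := exists_slope (f := U) (a := a) (b := c) (M := M) (fun x s y p q r v => by
      have := three_top hC PC (PC.hi_mem p (by linarith)) (PC.hi_mem (x := y) (by linarith) v) q r
      simp only [cr, Prod.fst_sub, Prod.snd_sub] at this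
      linarith)
    (fun x p q => by linarith [(abs_le.1 (c0 _ (PC.hi_mem p q))).2])
    (fun x p q => by linarith [(abs_le.1 (c1 _ (PC.hi_mem p q))).2])
  obtain ⟨σB, hB⟩ := exists_slope (f := fun x => -L x) (a := a) (b := c) (M := M)
    (fun x s y p q r v => by
      have := three_bot hC PC (PC.lo_mem p (by linarith)) (PC.lo_mem (x := y) (by linarith) v) q r
      simp only [cr, Prod.fst_sub, Prod.snd_sub] at this
      linarith)
    (fun x p q => by linarith [(abs_le.1 (c0 _ (PC.lo_mem p q))).1])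
    (fun x p q => by linarith [(abs_le.1 (c1 _ (PC.lo_mem p q))).1])
  choose b' hb' hb2 using fun i => exists_centre_mem hKc hK hs hCc hC ⟨_, m0⟩ (b i)
  exact core (σT := σT) (σB := fun s => -σB s) hKc hK hs P ht hstar h3 h5 hk hCc hC PC h01
    (l0.trans u0.symm) (l1.trans u1.symm)
    ⟨hT, fun s p q x r v => by linarith [hB s p q x r v]⟩ hb'
    (fun x hx => (hcov x hx).imp fun i hi => hb2 i x hx hi)

theorem core_all {K C : Set (ℝ × ℝ)} {w : ℝ} {l u : ℝ → ℝ} (hKc : IsCompact K)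
    (hK : Convex ℝ K) (hs : ∀ x ∈ K, -x ∈ K) (P : Prof K (-w) w l u) {t : ℝ}
    (ht : ∀ a ∈ K, ∀ b ∈ K, ∀ c ∈ K, cr (b - a) (c - a) ≤ 2 * t) (hstar : SeamStar K w l u)
    (h3 : M3 K (∫ ξ in (-w)..w, (u ξ - l ξ)) t) (h5 : M5 K (∫ ξ in (-w)..w, (u ξ - l ξ)) t)
    {k : ℕ} (hk : 2 ≤ k) (hCc : IsCompact C) (hC : Convex ℝ C) (hne : C.Nonempty)
    {b : Fin k → ℝ × ℝ} (hcov : ∀ x ∈ C, ∃ i, x - b i ∈ K) :
    volume C ≤ ENNReal.ofReal (2 * k * t) := by
  obtain ⟨s0, s1, L, U, PC⟩ := exists_prof hCc hC hne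
  rcases eq_or_lt_of_le PC.le with h01 | h01
  · rw [PC.vol, h01]; simp
  obtain ⟨R0, hR0⟩ := hCc.isBounded.exists_norm_le
  have hR : ∀ p ∈ C, ∀ q ∈ C, |p.2 - q.2| ≤ 2 * R0 := by
    intro p hp q hq
    have a1 := abs_le.1 ((norm_snd_le p).trans (hR0 p hp))
    have a2 := abs_le.1 ((norm_snd_le q).trans (hR0 q hq))
    rw [abs_le]; constructor <;> linarith [a1.1, a1.2, a2.1, a2.2]
  set R := 2 * R0 with hRdef
  have m0 := PC.lo_mem le_rfl PC.le
  have m1 := PC.lo_mem PC.le le_rfl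
  have R0' : 0 ≤ R := (abs_nonneg _).trans (hR _ m0 _ m0)
  refine ENNReal.le_of_forall_pos_le_add fun ε hε _ => ?_
  have hε' : (0 : ℝ) < ε := hε
  obtain ⟨M, hM, M1, M2⟩ : ∃ M : ℝ, 0 < M ∧ R ≤ M * (s1 - s0) ∧ 4 * R ^ 2 ≤ M * ε := by
    have d : 0 < s1 - s0 := by linarith
    refine ⟨R / (s1 - s0) + 4 * R ^ 2 / ε + 1, by positivity, ?_, ?_⟩
    · have : 0 ≤ 4 * R ^ 2 / ε * (s1 - s0) := by positivity
      rw [add_mul, add_mul, div_mul_cancel₀ _ d.ne']; linarith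
    · have : 0 ≤ R / (s1 - s0) * ε := by positivity
      rw [add_mul, add_mul, div_mul_cancel₀ _ hε'.ne']; linarith
  let C' := C ∩ ({p | |p.2 - L s0| ≤ M * (p.1 - s0)} ∩ {p | |p.2 - L s1| ≤ M * (s1 - p.1)})
  have key := core_cone (C := C') hKc hK hs P ht hstar h3 h5 hk
    (hCc.inter_right ((isClosed_le (by fun_prop) (by fun_prop)).inter
      (isClosed_le (by fun_prop) (by fun_prop))))
    (hC.inter (by
      rintro x ⟨x1, x2⟩ y ⟨y1, y2⟩ p q hp hq hpq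
      have : q = 1 - p := by linarith
      subst this
      simp only [mem_ofPred_eq, abs_le] at x1 x2 y1 y2
      refine ⟨?_, ?_⟩ <;>
        simp only [mem_ofPred_eq, abs_le, Prod.fst_add, Prod.snd_add, Prod.smul_fst, Prod.smul_snd,
          smul_eq_mul] <;> constructor <;>
        nlinarith [mul_le_mul_of_nonneg_left x1.1 hp, mul_le_mul_of_nonneg_left x1.2 hp,
          mul_le_mul_of_nonneg_left x2.1 hp, mul_le_mul_of_nonneg_left x2.2 hp,
          mul_le_mul_of_nonneg_left y1.1 hq, mul_le_mul_of_nonneg_left y1.2 hq,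
          mul_le_mul_of_nonneg_left y2.1 hq, mul_le_mul_of_nonneg_left y2.2 hq]))
    h01 (y0 := L s0) (y1 := L s1) (M := M)
    ⟨m0, by simp, (hR _ m0 _ m1).trans M1⟩ ⟨m1, (hR _ m1 _ m0).trans M1, by simp⟩
    (fun p hp => hp.2.1) (fun p hp => hp.2.2) hM (b := b) (fun x hx => hcov x hx.1)
  have hsub : C ⊆ C' ∪ (Icc s0 (s0 + R / M) ×ˢ Icc (L s0 - R) (L s0 + R) ∪
      Icc (s1 - R / M) s1 ×ˢ Icc (L s1 - R) (L s1 + R)) := by
    intro p hp
    have hm := ((PC.mem p).1 hp).1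
    have a0 := hR _ hp _ m0
    have a1 := hR _ hp _ m1
    by_cases q0 : p.1 ≤ s0 + R / M
    · exact Or.inr (Or.inl ⟨⟨hm.1, q0⟩, by linarith [(abs_le.1 a0).1], by linarith [(abs_le.1 a0).2]⟩)
    by_cases q1 : s1 - R / M ≤ p.1
    · exact Or.inr (Or.inr ⟨⟨q1, hm.2⟩, by linarith [(abs_le.1 a1).1], by linarith [(abs_le.1 a1).2]⟩)
    push Not at q0 q1
    refine Or.inl ⟨hp, a0.trans ?_, a1.trans ?_⟩
    · rw [mul_comm, ← div_le_iff₀ hM]; linarith
    · rw [mul_comm, ← div_le_iff₀ hM]; linarith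
  have hd : 0 ≤ R / M := div_nonneg R0' hM.le
  refine (measure_mono hsub).trans ((measure_union_le _ _).trans (add_le_add key
    ((measure_union_le _ _).trans ?_)))
  rw [vol_box _ _ _ _ (by linarith), vol_box _ _ _ _ (by linarith),
    ← ENNReal.ofReal_add (by nlinarith) (by nlinarith), ← ENNReal.ofReal_coe_nnreal]
  refine ENNReal.ofReal_le_ofReal ?_
  have : 4 * R ^ 2 / M ≤ ε := by rw [div_le_iff₀ hM]; linarith
  calc _ = 4 * R ^ 2 / M := by ring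
    _ ≤ ε := this

end Pool.Agent.MP_cab9bb_co

end
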