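import Pool.Agent.Mg.Fcab9bb.Gbb3c56

section

set_option autoImplicit false

open MeasureTheory Set

namespace Pool.Agent.MP_cab9bb_co

/-- the potential of a point `(x, y)` with slope `σ` -/
noncomputable def pot (w : ℝ) (l u : ℝ → ℝ) (x y σ : ℝ) : ℝ :=
  (∫ ξ in (-w)..x, med (l ξ) (u ξ) (y + σ * (ξ - x))) -
    ∫ ξ in x..w, med (l ξ) (u ξ) (y + σ * (ξ - x))

variable {K : Set (ℝ × ℝ)} {w : ℝ} {l u : ℝ → ℝ}

theorem pot_step0 (P : Prof K (-w) w l u) {g : ℝ → ℝ} (hg : Continuous g) {x1 x2 σ1 σ2 : ℝ}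
    (h12 : x1 ≤ x2) (hK : ∀ x, x1 ≤ x → x ≤ x2 → (x, g x) ∈ K)
    (s1 : ∀ x, x1 ≤ x → x ≤ x2 → g x ≤ g x1 + σ1 * (x - x1))
    (s2 : ∀ x, x1 ≤ x → x ≤ x2 → g x ≤ g x2 + σ2 * (x - x2)) (hσ : σ2 ≤ σ1) :
    2 * ∫ x in x1..x2, g x ≤ pot w l u x2 (g x2) σ2 - pot w l u x1 (g x1) σ1 := by
  have ha : -w ≤ x1 := ((P.mem _).1 (hK x1 le_rfl h12)).1.1
  have hb : x2 ≤ w := ((P.mem _).1 (hK x2 h12 le_rfl)).1.2
  have c1 : Continuous fun ξ => med (l ξ) (u ξ) (g x1 + σ1 * (ξ - x1)) :=
    continuous_med P.clo P.chi (by fun_prop)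
  have c2 : Continuous fun ξ => med (l ξ) (u ξ) (g x2 + σ2 * (ξ - x2)) :=
    continuous_med P.clo P.chi (by fun_prop)
  unfold pot
  rw [← intervalIntegral.integral_add_adjacent_intervals (c2.intervalIntegrable (-w) x1)
      (c2.intervalIntegrable x1 x2),
    ← intervalIntegral.integral_add_adjacent_intervals (c1.intervalIntegrable x1 x2)
      (c1.intervalIntegrable x2 w)]
  have i1 := intervalIntegral.integral_mono_on ha (c1.intervalIntegrable (μ := volume) _ _)
    (c2.intervalIntegrable _ _) (fun x hx => med_mono _ _ (by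
      have := s2 x1 le_rfl h12
      nlinarith [hx.2]))
  have i2 := intervalIntegral.integral_mono_on hb (c2.intervalIntegrable (μ := volume) _ _)
    (c1.intervalIntegrable _ _) (fun x hx => med_mono _ _ (by
      have := s1 x2 h12 le_rfl
      nlinarith [hx.1]))
  have i3 := intervalIntegral.integral_mono_on h12 (hg.intervalIntegrable (μ := volume) _ _)
    (c1.intervalIntegrable _ _) (fun x hx => by
      have hm := (P.mem _).1 (hK x hx.1 hx.2)
      exact (med_eq hm.2.1 hm.2.2).symm.le.trans (med_mono _ _ (s1 x hx.1 hx.2)))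
  have i4 := intervalIntegral.integral_mono_on h12 (hg.intervalIntegrable (μ := volume) _ _)
    (c2.intervalIntegrable _ _) (fun x hx => by
      have hm := (P.mem _).1 (hK x hx.1 hx.2)
      exact (med_eq hm.2.1 hm.2.2).symm.le.trans (med_mono _ _ (s2 x hx.1 hx.2)))
  linarith

theorem pot_step (P : Prof K (-w) w l u) {g : ℝ → ℝ} (hg : Continuous g) {x1 x2 σ1 σ2 c1 c2 : ℝ}
    (h12 : x1 ≤ x2) (hK : ∀ x, x1 ≤ x → x ≤ x2 → (x - c1, g x - c2) ∈ K)
    (s1 : ∀ x, x1 ≤ x → x ≤ x2 → g x ≤ g x1 + σ1 * (x - x1))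
    (s2 : ∀ x, x1 ≤ x → x ≤ x2 → g x ≤ g x2 + σ2 * (x - x2)) (hσ : σ2 ≤ σ1) :
    2 * ∫ x in x1..x2, g x ≤ pot w l u (x2 - c1) (g x2 - c2) σ2 -
      pot w l u (x1 - c1) (g x1 - c2) σ1 + 2 * c2 * (x2 - x1) := by
  have := pot_step0 P (g := fun x => g (x + c1) - c2) (by fun_prop) (x1 := x1 - c1)
    (x2 := x2 - c1) (σ1 := σ1) (σ2 := σ2) (by linarith)
    (fun x h1 h2 => by simpa using hK (x + c1) (by linarith) (by linarith))
    (fun x h1 h2 => by
      have := s1 (x + c1) (by linarith) (by linarith)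
      simp only [sub_add_cancel]; linarith)
    (fun x h1 h2 => by
      have := s2 (x + c1) (by linarith) (by linarith)
      simp only [sub_add_cancel]; linarith) hσ
  rw [intervalIntegral.integral_sub ((by fun_prop : Continuous fun x => g (x + c1)).intervalIntegrable _ _)
    (by simp), intervalIntegral.integral_comp_add_right] at this
  simp only [sub_add_cancel, intervalIntegral.integral_const, smul_eq_mul] at this
  linarith

theorem pot_turn (P : Prof K (-w) w l u) (hs : ∀ x ∈ K, -x ∈ K) {x : ℝ} (h1 : -w ≤ x)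
    (h2 : x ≤ w) (y σ y' σ' : ℝ) :
    pot w l u x y σ ≤ pot w l u (-x) y' σ' + ∫ ξ in (-w)..w, (u ξ - l ξ) := by
  have c1 : Continuous fun ξ => med (l ξ) (u ξ) (y + σ * (ξ - x)) :=
    continuous_med P.clo P.chi (by fun_prop)
  have c2 : Continuous fun ξ => med (l ξ) (u ξ) (y' + σ' * (ξ - -x)) :=
    continuous_med P.clo P.chi (by fun_prop)
  have i1 := intervalIntegral.integral_mono_on h1 (c1.intervalIntegrable _ _)
    (P.chi.intervalIntegrable (μ := volume) _ _)
    (fun ξ hξ => med_le (P.lohi ξ hξ.1 (hξ.2.trans h2)) _)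
  have i2 := intervalIntegral.integral_mono_on h2 (P.clo.intervalIntegrable (μ := volume) _ _)
    (c1.intervalIntegrable _ _) (fun ξ _ => le_med _ _ _)
  have i3 := intervalIntegral.integral_mono_on (show -w ≤ -x by linarith)
    (P.clo.intervalIntegrable (μ := volume) _ _) (c2.intervalIntegrable _ _)
    (fun ξ _ => le_med _ _ _)
  have i4 := intervalIntegral.integral_mono_on (show -x ≤ w by linarith)
    (c2.intervalIntegrable _ _) (P.chi.intervalIntegrable (μ := volume) _ _)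
    (fun ξ hξ => med_le (P.lohi ξ (by linarith [hξ.1]) hξ.2) _)
  have e1 : ∫ ξ in (-w)..(-x), l ξ = -∫ ξ in x..w, u ξ := by
    rw [← intervalIntegral.integral_comp_neg, ← intervalIntegral.integral_neg]
    refine intervalIntegral.integral_congr fun ξ hξ => ?_
    rw [uIcc_of_le h2] at hξ
    simpa using P.symm_lo hs (x := -ξ) (by linarith [hξ.2]) (by linarith [hξ.1])
  have e2 : ∫ ξ in (-x)..w, u ξ = -∫ ξ in (-w)..x, l ξ := by
    have := intervalIntegral.integral_comp_neg (a := -w) (b := x) u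
    rw [neg_neg] at this
    rw [← this, ← intervalIntegral.integral_neg]
    refine intervalIntegral.integral_congr fun ξ hξ => ?_
    rw [uIcc_of_le h1] at hξ
    have := P.symm_lo hs (x := ξ) hξ.1 (hξ.2.trans h2)
    simp only [this, neg_neg]
  rw [intervalIntegral.integral_sub (P.chi.intervalIntegrable _ _) (P.clo.intervalIntegrable _ _),
    ← intervalIntegral.integral_add_adjacent_intervals (P.chi.intervalIntegrable (-w) x)
      (P.chi.intervalIntegrable x w),
    ← intervalIntegral.integral_add_adjacent_intervals (P.clo.intervalIntegrable (-w) x)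
      (P.clo.intervalIntegrable x w)]
  unfold pot
  linarith

theorem const_of_sq {f : ℝ → ℝ} {C : ℝ}
    (h : ∀ s t, 0 ≤ s → s ≤ 1 → 0 ≤ t → t ≤ 1 → |f s - f t| ≤ C * (s - t) ^ 2) : f 1 = f 0 := by
  have key : ∀ N : ℕ, 0 < N → |f 1 - f 0| ≤ C / N := by
    intro N hN
    have hN' : (0 : ℝ) < N := by exact_mod_cast hN
    have : ∀ j : ℕ, j ≤ N → |f (j / N) - f 0| ≤ j * (C / N ^ 2) := by
      intro j
      induction j with
      | zero => simp
      | succ j ih =>
        intro hj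
        have hj' : (j : ℝ) + 1 ≤ N := by exact_mod_cast hj
        have h1 := ih (by omega)
        have h2 := h (((j + 1 : ℕ) : ℝ) / N) (j / N) (by positivity)
          (by rw [div_le_one hN']; push_cast; linarith) (by positivity)
          (by rw [div_le_one hN']; linarith)
        have e : C * ((((j + 1 : ℕ) : ℝ) / N) - j / N) ^ 2 = C / N ^ 2 := by
          push_cast; field_simp; ring
        rw [e] at h2
        have := abs_sub_le (f (((j + 1 : ℕ) : ℝ) / N)) (f (j / N)) (f 0)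
        push_cast at this h2 ⊢
        linarith
    have h3 := this N le_rfl
    rw [div_self hN'.ne'] at h3
    convert h3 using 1
    field_simp
  have hlim : Filter.Tendsto (fun N : ℕ => C / N) Filter.atTop (nhds 0) :=
    tendsto_const_div_atTop_nhds_zero_nat C
  have := ge_of_tendsto hlim (Filter.eventually_atTop.2 ⟨1, fun N hN => key N hN⟩)
  have := abs_nonpos_iff.1 this
  linarith

theorem exists_theta {x0 x1 ξ : ℝ} (h : ξ ∈ uIoc x0 x1) :
    ∃ θ, 0 ≤ θ ∧ θ ≤ 1 ∧ x0 + θ * (x1 - x0) = ξ := by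
  rcases mem_uIoc.1 h with ⟨h1, h2⟩ | ⟨h1, h2⟩
  · have hd : 0 < x1 - x0 := by linarith
    exact ⟨(ξ - x0) / (x1 - x0), div_nonneg (by linarith) hd.le,
      (div_le_one hd).2 (by linarith), by field_simp; ring⟩
  · have hd : 0 < x0 - x1 := by linarith
    exact ⟨(x0 - ξ) / (x0 - x1), div_nonneg (by linarith) hd.le,
      (div_le_one hd).2 (by linarith), by field_simp; ring⟩

variable {H : ℝ} {L R : ℝ → ℝ}

theorem rect_eq' (P : Prof K (-w) w l u) (Q : Prof (Prod.swap ⁻¹' K) (-H) H L R)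
    {x1 x2 h0 h1 : ℝ} (ha : -w ≤ x1) (h12 : x1 ≤ x2) (hb : x2 ≤ w) (c0 : -H ≤ h0) (d0 : h0 ≤ H)
    (c1 : -H ≤ h1) (d1 : h1 ≤ H) :
    ∫ x in x1..x2, (med (l x) (u x) h1 - med (l x) (u x) h0) =
      ∫ y in h0..h1, (med (L y) (R y) x2 - med (L y) (R y) x1) := by
  rcases le_total h0 h1 with h | h
  · exact rect_eq P Q ha h12 hb c0 h d1
  · rw [intervalIntegral.integral_symm h1 h0, ← rect_eq P Q ha h12 hb c1 h d0,
      ← intervalIntegral.integral_neg]
    simp

theorem pot_local (hv : Convex ℝ K) (P : Prof K (-w) w l u)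
    (Q : Prof (Prod.swap ⁻¹' K) (-H) H L R) {x0 h0 x1 h1 : ℝ} (m0 : (x0, h0) ∈ K)
    (m1 : (x1, h1) ∈ K) :
    |(pot w l u x1 h1 0 - 2 * x1 * h1 + ∫ y in (0 : ℝ)..h1, (R y + L y)) -
      (pot w l u x0 h0 0 - 2 * x0 * h0 + ∫ y in (0 : ℝ)..h0, (R y + L y))| ≤
      4 * (|x1 - x0| * |h1 - h0|) := by
  have p0 := ((P.mem _).1 m0).1
  have q0 := ((Q.mem (h0, x0)).1 m0).1
  have q1 := ((Q.mem (h1, x1)).1 m1).1
  have c1 : Continuous fun ξ => med (l ξ) (u ξ) h1 := continuous_med P.clo P.chi continuous_const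
  have c0 : Continuous fun ξ => med (l ξ) (u ξ) h0 := continuous_med P.clo P.chi continuous_const
  have d0 : Continuous fun y => med (L y) (R y) x0 := continuous_med Q.clo Q.chi continuous_const
  have hin : ∀ y ∈ uIcc h0 h1, -H ≤ y ∧ y ≤ H := fun y hy =>
    ⟨(le_min q0.1 q1.1).trans hy.1, hy.2.trans (max_le q0.2 q1.2)⟩
  have r1 := rect_eq' P Q le_rfl p0.1 p0.2 q0.1 q0.2 q1.1 q1.2
  have r2 := rect_eq' P Q p0.1 p0.2 le_rfl q0.1 q0.2 q1.1 q1.2
  have e1 : ∫ y in h0..h1, (med (L y) (R y) x0 - med (L y) (R y) (-w)) =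
      (∫ y in h0..h1, med (L y) (R y) x0) - ∫ y in h0..h1, L y := by
    rw [← intervalIntegral.integral_sub (d0.intervalIntegrable _ _) (Q.clo.intervalIntegrable _ _)]
    refine intervalIntegral.integral_congr fun y hy => ?_
    have hy' := hin y hy
    have : -w ≤ L y := ((P.mem (L y, y)).1 (Q.lo_mem hy'.1 hy'.2)).1.1
    simp only [med, max_eq_left ((min_le_left _ _).trans this)]
  have e2 : ∫ y in h0..h1, (med (L y) (R y) w - med (L y) (R y) x0) =
      (∫ y in h0..h1, R y) - ∫ y in h0..h1, med (L y) (R y) x0 := by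
    rw [← intervalIntegral.integral_sub (Q.chi.intervalIntegrable _ _) (d0.intervalIntegrable _ _)]
    refine intervalIntegral.integral_congr fun y hy => ?_
    have hy' := hin y hy
    have : R y ≤ w := ((P.mem (R y, y)).1 (Q.hi_mem hy'.1 hy'.2)).1.2
    simp only [med, min_eq_right this, max_eq_right (Q.lohi y hy'.1 hy'.2)]
  rw [e1, intervalIntegral.integral_sub (c1.intervalIntegrable _ _) (c0.intervalIntegrable _ _)] at r1
  rw [e2, intervalIntegral.integral_sub (c1.intervalIntegrable _ _) (c0.intervalIntegrable _ _)] at r2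
  have a1 := intervalIntegral.integral_add_adjacent_intervals (μ := volume)
    (c1.intervalIntegrable (-w) x0) (c1.intervalIntegrable x0 x1)
  have a2 := intervalIntegral.integral_add_adjacent_intervals (μ := volume)
    (c1.intervalIntegrable x0 x1) (c1.intervalIntegrable x1 w)
  have cs : Continuous fun y => R y + L y := Q.chi.add Q.clo
  have a3 := intervalIntegral.integral_add_adjacent_intervals (μ := volume)
    (cs.intervalIntegrable 0 h0) (cs.intervalIntegrable h0 h1)
  rw [intervalIntegral.integral_add (Q.chi.intervalIntegrable h0 h1)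
    (Q.clo.intervalIntegrable h0 h1)] at a3
  have b1 : ‖∫ ξ in x0..x1, (med (l ξ) (u ξ) h1 - h1)‖ ≤ |h1 - h0| * |x1 - x0| := by
    refine intervalIntegral.norm_integral_le_of_norm_le_const fun ξ hξ => ?_
    obtain ⟨θ, t0, t1, rfl⟩ := exists_theta hξ
    have hm := ((P.mem _).1 (seg_mem hv m0 m1 t0 t1)).2
    refine (med_near hm.1 hm.2 h1).trans ?_
    rw [show h1 - (h0 + θ * (h1 - h0)) = (1 - θ) * (h1 - h0) by ring, abs_mul,
      abs_of_nonneg (sub_nonneg.2 t1)]
    nlinarith [abs_nonneg (h1 - h0)]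
  have b2 : ‖∫ y in h0..h1, (med (L y) (R y) x0 - x0)‖ ≤ |x1 - x0| * |h1 - h0| := by
    refine intervalIntegral.norm_integral_le_of_norm_le_const fun y hy => ?_
    obtain ⟨θ, t0, t1, rfl⟩ := exists_theta hy
    have hm := ((Q.mem (h0 + θ * (h1 - h0), x0 + θ * (x1 - x0))).1 (seg_mem hv m0 m1 t0 t1)).2
    refine (med_near hm.1 hm.2 x0).trans ?_
    rw [show x0 - (x0 + θ * (x1 - x0)) = -θ * (x1 - x0) by ring, abs_mul, abs_neg,
      abs_of_nonneg t0]
    nlinarith [abs_nonneg (x1 - x0)]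
  rw [intervalIntegral.integral_sub (c1.intervalIntegrable _ _) (by simp)] at b1
  rw [intervalIntegral.integral_sub (d0.intervalIntegrable _ _) (by simp)] at b2
  simp only [intervalIntegral.integral_const, smul_eq_mul, Real.norm_eq_abs] at b1 b2
  unfold pot
  simp only [zero_mul, add_zero]
  rw [abs_le] at b1 b2 ⊢
  constructor <;> nlinarith [b1.1, b1.2, b2.1, b2.2]

theorem pot_flat (hv : Convex ℝ K) (P : Prof K (-w) w l u)
    (Q : Prof (Prod.swap ⁻¹' K) (-H) H L R) {x0 h0 x1 h1 : ℝ} (m0 : (x0, h0) ∈ K)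
    (m1 : (x1, h1) ∈ K) :
    pot w l u x1 h1 0 - pot w l u x0 h0 0 =
      2 * (x1 * h1 - x0 * h0) - ∫ y in h0..h1, (R y + L y) := by
  have key := const_of_sq (f := fun s => pot w l u (x0 + s * (x1 - x0)) (h0 + s * (h1 - h0)) 0 -
      2 * (x0 + s * (x1 - x0)) * (h0 + s * (h1 - h0)) +
      ∫ y in (0 : ℝ)..(h0 + s * (h1 - h0)), (R y + L y)) (C := 4 * (|x1 - x0| * |h1 - h0|)) (by
    intro s t s0 s1 t0 t1
    refine (pot_local hv P Q (seg_mem hv m0 m1 t0 t1) (seg_mem hv m0 m1 s0 s1)).trans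
      (le_of_eq ?_)
    simp only []
    rw [show x0 + s * (x1 - x0) - (x0 + t * (x1 - x0)) = (s - t) * (x1 - x0) by ring,
      show h0 + s * (h1 - h0) - (h0 + t * (h1 - h0)) = (s - t) * (h1 - h0) by ring, abs_mul,
      abs_mul, ← sq_abs (s - t)]
    ring)
  simp only [one_mul, zero_mul, add_zero, add_sub_cancel] at key
  have cs : Continuous fun y => R y + L y := Q.chi.add Q.clo
  have a3 := intervalIntegral.integral_add_adjacent_intervals (μ := volume)
    (cs.intervalIntegrable 0 h0) (cs.intervalIntegrable h0 h1)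
  linarith

theorem pot_seam0 (hc : IsCompact K) (hv : Convex ℝ K) (hs : ∀ x ∈ K, -x ∈ K)
    (P : Prof K (-w) w l u) {q : ℝ} (hq : ∀ a ∈ K, ∀ b ∈ K, cr a b ≤ q) {x0 h0 x1 h1 : ℝ}
    (m0 : (x0, h0) ∈ K) (m1 : (x1, h1) ∈ K) (p0 : 0 ≤ h0) (p1 : 0 ≤ h1) :
    pot w l u x1 h1 0 - pot w l u x0 h0 0 ≤ x1 * h1 - x0 * h0 + q := by
  have hv' : Convex ℝ (Prod.swap ⁻¹' K) := by
    intro a ha b hb s t hs ht hst
    exact hv ha hb hs ht hst
  have hs' : ∀ x ∈ Prod.swap ⁻¹' K, -x ∈ Prod.swap ⁻¹' K := fun x hx => hs _ hx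
  obtain ⟨H, L, R, Q⟩ := exists_prof_symm (S := Prod.swap ⁻¹' K)
    ((Homeomorph.prodComm ℝ ℝ).isCompact_preimage.2 hc) hv' ⟨(h0, x0), m0⟩ hs'
  rw [pot_flat hv P Q m0 m1]
  have q0 := (Q.mem (h0, x0)).1 m0
  have q1 := (Q.mem (h1, x1)).1 m1
  simp only at q0 q1
  have hin : ∀ y ∈ uIcc h0 h1, 0 ≤ y ∧ y ≤ H := fun y hy =>
    ⟨(le_min p0 p1).trans hy.1, hy.2.trans (max_le q0.1.2 q1.1.2)⟩
  have e1 : ∫ y in h0..h1, (R y + L y) = ∫ y in h0..h1, (R y - R (y - (h0 + h1))) := by
    have c2 : Continuous fun y => R (y - (h0 + h1)) := Q.chi.comp (by fun_prop)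
    rw [intervalIntegral.integral_add (Q.chi.intervalIntegrable _ _) (Q.clo.intervalIntegrable _ _),
      intervalIntegral.integral_sub (Q.chi.intervalIntegrable _ _) (c2.intervalIntegrable _ _),
      intervalIntegral.integral_comp_sub_right R, sub_eq_add_neg]
    congr 1
    rw [show h0 - (h0 + h1) = -h1 by ring, show h1 - (h0 + h1) = -h0 by ring,
      ← intervalIntegral.integral_comp_neg, ← intervalIntegral.integral_neg]
    refine intervalIntegral.integral_congr fun y hy => ?_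
    have := hin y hy
    exact Q.symm_lo hs' (by linarith) this.2
  have c3 : Continuous fun y => R y - R (y - (h0 + h1)) := Q.chi.sub (Q.chi.comp (by fun_prop))
  have e2 : (h1 - h0) * (R h1 - R (-h0)) ≤ ∫ y in h0..h1, (R y - R (y - (h0 + h1))) := by
    rcases le_total h0 h1 with h | h
    · have := intervalIntegral.integral_mono_on h
        (continuous_const.intervalIntegrable (μ := volume) (u := fun _ => R h1 - R (-h0)) _ _)
        (c3.intervalIntegrable _ _) (fun y hy => by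
          have := (Q.inner_pair hv' (x0 := y - (h0 + h1)) (x1 := h1) (y0 := y) (y1 := -h0)
            (by linarith [hy.1, q1.1.2]) q1.1.2 (by linarith) (by linarith [hy.2]) (by ring)).1
          linarith)
      simpa only [intervalIntegral.integral_const, smul_eq_mul] using this
    · have := intervalIntegral.integral_mono_on h (c3.intervalIntegrable _ _)
        (continuous_const.intervalIntegrable (μ := volume) (u := fun _ => R h1 - R (-h0)) _ _)
        (fun y hy => by
          have := (Q.inner_pair hv' (x0 := -h0) (x1 := y) (y0 := h1) (y1 := y - (h0 + h1))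
            (by linarith [q0.1.2]) (hy.2.trans q0.1.2) (by linarith) (by linarith [hy.1])
            (by ring)).1
          linarith)
      rw [intervalIntegral.integral_symm h1 h0]
      simp only [intervalIntegral.integral_const, smul_eq_mul] at this
      linarith
  have e3 := Q.symm_lo hs' q0.1.1 q0.1.2
  have e4 := hq (R (-h0), -h0) (Q.hi_mem (x := -h0) (by linarith [q0.1.2]) (by linarith [q0.1.1]))
    (R h1, h1) (Q.hi_mem q1.1.1 q1.1.2)
  unfold cr at e4
  simp only at e4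
  rw [e1]
  nlinarith [mul_le_mul_of_nonneg_right q1.2.2 p1, mul_le_mul_of_nonneg_right q0.2.1 p0]

theorem pot_shear (hl : Continuous l) (hu : Continuous u) (x y σ : ℝ) :
    pot w l u x y σ = pot w (fun ξ => l ξ - σ * ξ) (fun ξ => u ξ - σ * ξ) x (y - σ * x) 0 +
      σ * (x ^ 2 - w ^ 2) := by
  have c1 : Continuous fun ξ => med (l ξ - σ * ξ) (u ξ - σ * ξ) (y - σ * x + 0 * (ξ - x)) :=
    continuous_med (by fun_prop) (by fun_prop) (by fun_prop)
  have c2 : Continuous fun ξ : ℝ => σ * ξ := by fun_prop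
  have e : (fun ξ => med (l ξ) (u ξ) (y + σ * (ξ - x))) =
      fun ξ => med (l ξ - σ * ξ) (u ξ - σ * ξ) (y - σ * x + 0 * (ξ - x)) + σ * ξ := by
    funext ξ
    unfold med
    rw [← max_add_add_right, ← min_add_add_right]
    congr 1
    · ring
    · congr 1 <;> ring
  unfold pot
  rw [e, intervalIntegral.integral_add (c1.intervalIntegrable _ _) (c2.intervalIntegrable _ _),
    intervalIntegral.integral_add (c1.intervalIntegrable _ _) (c2.intervalIntegrable _ _),
    intervalIntegral.integral_const_mul, intervalIntegral.integral_const_mul, integral_id,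
    integral_id]
  ring

theorem pot_seam (hc : IsCompact K) (hv : Convex ℝ K) (hs : ∀ x ∈ K, -x ∈ K)
    (P : Prof K (-w) w l u) {q : ℝ} (hq : ∀ a ∈ K, ∀ b ∈ K, cr a b ≤ q) {A C : ℝ × ℝ} {σ : ℝ}
    (hA : A ∈ K) (hC : C ∈ K) (pA : 0 ≤ A.2 - σ * A.1) (pC : 0 ≤ C.2 - σ * C.1) :
    pot w l u A.1 A.2 σ - pot w l u C.1 C.2 σ ≤ A.1 * A.2 - C.1 * C.2 + q := by
  let K' : Set (ℝ × ℝ) := (fun p : ℝ × ℝ => (p.1, p.2 - σ * p.1)) '' K
  have hm : ∀ p : ℝ × ℝ, p ∈ K' ↔ (p.1, p.2 + σ * p.1) ∈ K := by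
    intro p
    constructor
    · rintro ⟨z, hz, rfl⟩; simpa using hz
    · intro h; exact ⟨_, h, by simp⟩
  have P' : Prof K' (-w) w (fun ξ => l ξ - σ * ξ) (fun ξ => u ξ - σ * ξ) := by
    have := P.clo
    have := P.chi
    refine ⟨P.le, by fun_prop, by fun_prop, fun p => ?_, fun x h1 h2 => ?_⟩
    · rw [hm, P.mem]
      simp only [sub_le_iff_le_add, le_sub_iff_add_le]
    · linarith [P.lohi x h1 h2]
  have key := pot_seam0 (K := K') (hc.image (by fun_prop)) (by
      intro a ha b hb s t hs ht hst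
      rw [hm] at ha hb ⊢
      have := hv ha hb hs ht hst
      convert this using 1
      ext <;> simp
      ring) (by
      intro a ha
      rw [hm] at ha ⊢
      have := hs _ ha
      convert this using 1
      ext <;> simp
      ring) P' (q := q) (by
      intro a ha b hb
      have := hq _ ((hm a).1 ha) _ ((hm b).1 hb)
      unfold cr at this ⊢
      simp only at this
      linarith) (x0 := C.1) (h0 := C.2 - σ * C.1) (x1 := A.1) (h1 := A.2 - σ * A.1)
      ⟨C, hC, rfl⟩ ⟨A, hA, rfl⟩ pC pA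
  rw [pot_shear P.clo P.chi A.1, pot_shear P.clo P.chi C.1]
  linarith

end Pool.Agent.MP_cab9bb_co

end

section

set_option autoImplicit false

open MeasureTheory Set

namespace Pool.Agent.MP_cab9bb_co

theorem star_core {r : ℝ → ℝ} (hr : Continuous r) {H a g : ℝ}
    (hin : ∀ x0 x1 y0 y1 : ℝ, -H ≤ x0 → x1 ≤ H → x0 ≤ y0 → x0 ≤ y1 → y0 + y1 = x0 + x1 →
      r x0 + r x1 ≤ r y0 + r y1) (ha : 0 ≤ a) (hg : 0 ≤ g) (hH : g + a ≤ H) :
    ∃ α, -g ≤ α ∧ α ≤ g ∧ (∫ y in (-g - a)..(-g + a), r y) - (∫ y in (g - a)..(g + a), r y) ≤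
      2 * a * (min (r (α - a)) (r (α + a)) - min (r (g - a)) (r (g + a))) := by
  have c1 : ∀ x : ℝ, Continuous fun z => r (z + x) := fun x => hr.comp (by fun_prop)
  have stepA : ∀ y, -g ≤ y → y ≤ g → r (y - a) ≤ r (y + a) →
      (∫ z in (-g - a)..(-g + a), r z) ≤ ∫ z in (y - a)..(y + a), r z := by
    intro y h1 h2 h3
    have i1 := intervalIntegral.integral_mono_on h1
      ((c1 (-a)).intervalIntegrable (μ := volume) _ _) ((c1 a).intervalIntegrable _ _)
      (fun z hz => by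
        have := hin (z + -a) (y + a) (z + a) (y - a) (by linarith [hz.1]) (by linarith)
          (by linarith) (by linarith [hz.2]) (by ring)
        linarith)
    rw [intervalIntegral.integral_comp_add_right, intervalIntegral.integral_comp_add_right] at i1
    have a1 := intervalIntegral.integral_add_adjacent_intervals (μ := volume)
      (hr.intervalIntegrable (-g - a) (-g + a)) (hr.intervalIntegrable (-g + a) (y + a))
    have a2 := intervalIntegral.integral_add_adjacent_intervals (μ := volume)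
      (hr.intervalIntegrable (-g - a) (y - a)) (hr.intervalIntegrable (y - a) (y + a))
    simp only [← sub_eq_add_neg] at i1
    linarith
  have stepB : ∀ y, -g ≤ y → y ≤ g → r (y + a) ≤ r (y - a) →
      (∫ z in (y - a)..(y + a), r z) - (∫ z in (g - a)..(g + a), r z) ≤
        2 * a * (min (r (y - a)) (r (y + a)) - min (r (g - a)) (r (g + a))) := by
    intro y h1 h2 h3
    have i1 := intervalIntegral.integral_mono_on (show -a ≤ a by linarith)
      (((c1 y).sub (c1 g)).intervalIntegrable (μ := volume) _ _)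
      (continuous_const.intervalIntegrable (μ := volume)
        (u := fun _ => r (y + a) - r (g + a)) _ _)
      (fun z hz => by
        have := hin (z + y) (g + a) (y + a) (z + g) (by linarith [hz.1]) hH
          (by linarith [hz.2]) (by linarith) (by ring)
        simp only [Pi.sub_apply]
        linarith)
    have e : ∫ z in (-a)..a, ((fun z => r (z + y)) - fun z => r (z + g)) z =
        (∫ z in (y - a)..(y + a), r z) - ∫ z in (g - a)..(g + a), r z := by
      simp only [Pi.sub_apply]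
      rw [intervalIntegral.integral_sub ((c1 y).intervalIntegrable _ _)
        ((c1 g).intervalIntegrable _ _), intervalIntegral.integral_comp_add_right,
        intervalIntegral.integral_comp_add_right]
      congr 2 <;> ring
    rw [e] at i1
    simp only [intervalIntegral.integral_const, smul_eq_mul] at i1
    rw [min_eq_right h3]
    nlinarith [mul_le_mul_of_nonneg_left (min_le_right (r (g - a)) (r (g + a))) ha]
  rcases le_total (r (g - a)) (r (g + a)) with h | h
  · refine ⟨g, by linarith, le_rfl, ?_⟩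
    have := stepA g (by linarith) le_rfl h
    linarith
  rcases le_total (r (-g + a)) (r (-g - a)) with h' | h'
  · exact ⟨-g, le_rfl, by linarith, stepB (-g) le_rfl (by linarith) h'⟩
  have cD : Continuous fun x => r (x + a) - r (x - a) := (c1 a).sub (hr.comp (by fun_prop))
  obtain ⟨α, hα, h0⟩ := intermediate_value_Icc' (show -g ≤ g by linarith) cD.continuousOn
    (show (0 : ℝ) ∈ Icc _ _ from ⟨by linarith, by linarith⟩)
  simp only at h0
  refine ⟨α, hα.1, hα.2, ?_⟩
  have := stepA α hα.1 hα.2 (by linarith)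
  have := stepB α hα.1 hα.2 (by linarith)
  linarith

theorem star_core2 {r : ℝ → ℝ} (hr : Continuous r) {H a c : ℝ}
    (hin : ∀ x0 x1 y0 y1 : ℝ, -H ≤ x0 → x1 ≤ H → x0 ≤ y0 → x0 ≤ y1 → y0 + y1 = x0 + x1 →
      r x0 + r x1 ≤ r y0 + r y1) (ha : 0 ≤ a) (h1 : -H ≤ c - a) (h2 : c + a ≤ H) :
    ∃ lam, -1 ≤ lam ∧ lam ≤ 1 ∧
      (∫ y in (c - a)..(c + a), r y) - (∫ y in (c - a)..(c + a), r (-y)) ≤
      2 * a * (min (r (lam * c - a)) (r (lam * c + a)) - min (r (-c - a)) (r (-c + a))) := by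
  have hl : ∀ g α : ℝ, 0 ≤ g → -g ≤ α → α ≤ g → ∃ lam, -1 ≤ lam ∧ lam ≤ 1 ∧ α = lam * g := by
    intro g α hg h1 h2
    rcases eq_or_lt_of_le hg with h | h
    · exact ⟨0, by norm_num, by norm_num, by linarith⟩
    · exact ⟨α / g, by rw [le_div_iff₀ h]; linarith, by rw [div_le_one h]; exact h2,
        by field_simp⟩
  rcases le_total c 0 with hc | hc
  · obtain ⟨α, a1, a2, a3⟩ := star_core hr hin ha (g := -c) (by linarith) (by linarith)
    obtain ⟨lam, l1, l2, l3⟩ := hl (-c) α (by linarith) a1 a2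
    refine ⟨-lam, by linarith, by linarith, ?_⟩
    rw [intervalIntegral.integral_comp_neg, show -(c + a) = -c - a by ring,
      show -(c - a) = -c + a by ring, show -lam * c = α by rw [l3]; ring]
    simpa only [neg_neg] using a3
  · obtain ⟨α, a1, a2, a3⟩ := star_core (r := fun y => r (-y)) (hr.comp continuous_neg) (H := H)
      (fun x0 x1 y0 y1 b1 b2 b3 b4 b5 => by
        have := hin (-x1) (-x0) (-y0) (-y1) (by linarith) (by linarith) (by linarith)
          (by linarith) (by linarith)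
        linarith) ha hc h2
    obtain ⟨lam, l1, l2, l3⟩ := hl c α hc a1 a2
    refine ⟨-lam, by linarith, by linarith, ?_⟩
    rw [intervalIntegral.integral_comp_neg (a := -c - a), show -(-c + a) = c - a by ring,
      show -(-c - a) = c + a by ring, show -(α - a) = -lam * c + a by rw [l3]; ring,
      show -(α + a) = -lam * c - a by rw [l3]; ring, show -(c - a) = -c + a by ring,
      show -(c + a) = -c - a by ring, min_comm (r (-lam * c + a)), min_comm (r (-c + a))] at a3
    exact a3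

variable {K : Set (ℝ × ℝ)} {H : ℝ} {L R : ℝ → ℝ}

theorem star_down (hv : Convex ℝ K) (hs : ∀ x ∈ K, -x ∈ K)
    (Q : Prof (Prod.swap ⁻¹' K) (-H) H L R) {x0 h0 x1 h1 : ℝ}
    (m0 : (x0, h0) ∈ K) (m1 : (x1, h1) ∈ K) (hh : h1 < h0) :
    ∃ A' ∈ K, ∃ C' ∈ K, A' - C' = (x1 - x0, h1 - h0) ∧
      (x1 - x0) * (h1 + h0) - ∫ y in h0..h1, (R y + L y) ≤ 2 * cr A' C' := by
  have hv' : Convex ℝ (Prod.swap ⁻¹' K) := by
    intro a ha b hb s t hs ht hst
    exact hv ha hb hs ht hst
  have hs' : ∀ x ∈ Prod.swap ⁻¹' K, -x ∈ Prod.swap ⁻¹' K := fun x hx => hs _ hx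
  have hm : ∀ x y : ℝ, (x, y) ∈ K ↔ (-H ≤ y ∧ y ≤ H) ∧ L y ≤ x ∧ x ≤ R y :=
    fun x y => Q.mem (y, x)
  obtain ⟨a, ha⟩ : ∃ a, a = (h0 - h1) / 2 := ⟨_, rfl⟩
  obtain ⟨c, hc⟩ : ∃ c, c = (h0 + h1) / 2 := ⟨_, rfl⟩
  have a0 : 0 < a := by linarith
  obtain ⟨s, hs0⟩ : ∃ s, x0 - x1 = 2 * a * s := ⟨(x0 - x1) / (2 * a), by field_simp⟩
  obtain ⟨ξ, hξ⟩ : ∃ ξ, ξ = x1 - s * h1 := ⟨_, rfl⟩
  have e1 : h1 = c - a := by linarith
  have e0 : h0 = c + a := by linarith
  have f1 : x1 = ξ + s * (c - a) := by rw [hξ, e1]; ring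
  have f0 : x0 = ξ + s * (c + a) := by rw [hξ, e1]; linarith
  clear ha hc hs0 hξ hh
  subst e1 e0 f1 f0
  have q0 := (hm _ _).1 m0
  have q1 := (hm _ _).1 m1
  let r : ℝ → ℝ := fun y => R y - s * y
  have hr : Continuous r := Q.chi.sub (by fun_prop)
  let ρ : ℝ → ℝ := fun β => min (r (β - a)) (r (β + a))
  have hlev : ∀ lam : ℝ, -1 ≤ lam → lam ≤ 1 → lam * ξ ≤ ρ (lam * c) ∧
      (ρ (lam * c) + s * (lam * c - a), lam * c - a) ∈ K ∧
      (ρ (lam * c) + s * (lam * c + a), lam * c + a) ∈ K := by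
    intro lam l1 l2
    have n1 : (lam * ξ + s * (lam * c - a), lam * c - a) ∈ K := by
      have := hv m1 (hs _ m0) (a := (1 + lam) / 2) (b := (1 - lam) / 2) (by linarith)
        (by linarith) (by ring)
      convert this using 1
      ext <;> simp <;> ring
    have n0 : (lam * ξ + s * (lam * c + a), lam * c + a) ∈ K := by
      have := hv m0 (hs _ m1) (a := (1 + lam) / 2) (b := (1 - lam) / 2) (by linarith)
        (by linarith) (by ring)
      convert this using 1
      ext <;> simp <;> ring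
    rw [hm] at n1 n0
    have k : lam * ξ ≤ ρ (lam * c) := by
      refine le_min ?_ ?_ <;> simp only [r] <;> linarith [n1.2.2, n0.2.2]
    have k1 : ρ (lam * c) ≤ R (lam * c - a) - s * (lam * c - a) := min_le_left _ _
    have k0 : ρ (lam * c) ≤ R (lam * c + a) - s * (lam * c + a) := min_le_right _ _
    refine ⟨k, (hm _ _).2 ⟨n1.1, ?_, ?_⟩, (hm _ _).2 ⟨n0.1, ?_, ?_⟩⟩ <;>
      linarith [n1.2.1, n0.2.1]
  obtain ⟨lam, l1, l2, l3⟩ := star_core2 hr (H := H) (a := a) (c := c)
    (fun x0 x1 y0 y1 b1 b2 b3 b4 b5 => by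
      have := (Q.inner_pair hv' b1 b2 b3 b4 b5).1
      simp only [r]
      have : s * (y0 + y1) = s * (x0 + x1) := by rw [b5]
      linarith) a0.le q1.1.1 q0.1.2
  have hT : (ξ + s * (c - a) - (ξ + s * (c + a))) * (c - a + (c + a)) -
      ∫ y in (c + a)..(c - a), (R y + L y) =
      (∫ y in (c - a)..(c + a), r y) - ∫ y in (c - a)..(c + a), r (-y) := by
    have c2 : Continuous fun y => r (-y) := hr.comp continuous_neg
    have c3 : Continuous fun y : ℝ => 2 * s * y := by fun_prop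
    have c4 : Continuous fun y => r y - r (-y) := hr.sub c2
    have : ∫ y in (c - a)..(c + a), (R y + L y) =
        ∫ y in (c - a)..(c + a), ((r y - r (-y)) + 2 * s * y) := by
      refine intervalIntegral.integral_congr fun y hy => ?_
      rw [uIcc_of_le (by linarith)] at hy
      have := Q.symm_lo hs' (x := y) (by linarith [hy.1, q1.1.1]) (by linarith [hy.2, q0.1.2])
      simp only [r, this]
      ring
    rw [intervalIntegral.integral_symm (c - a) (c + a), this,
      intervalIntegral.integral_add (c4.intervalIntegrable _ _)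
        (c3.intervalIntegrable _ _),
      intervalIntegral.integral_sub (hr.intervalIntegrable _ _) (c2.intervalIntegrable _ _),
      intervalIntegral.integral_const_mul, integral_id]
    ring
  rw [hT]
  have g1 := (hlev 1 (by norm_num) le_rfl).1
  have g2 := (hlev (-1) le_rfl (by norm_num)).1
  simp only [neg_mul, one_mul] at g1 g2
  have l4 : (∫ y in (c - a)..(c + a), r y) - (∫ y in (c - a)..(c + a), r (-y)) ≤
      2 * a * (ρ (lam * c) - ρ (-c)) := l3
  have fin : ∀ mu : ℝ, -1 ≤ mu → mu ≤ 1 → ρ (lam * c) ≤ ρ (mu * c) → ρ c ≤ ρ (mu * c) →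
      ∃ A' ∈ K, ∃ C' ∈ K, A' - C' = (ξ + s * (c - a) - (ξ + s * (c + a)), c - a - (c + a)) ∧
        (∫ y in (c - a)..(c + a), r y) - (∫ y in (c - a)..(c + a), r (-y)) ≤ 2 * cr A' C' := by
    intro mu u1 u2 u3 u4
    obtain ⟨-, n1, n0⟩ := hlev mu u1 u2
    refine ⟨_, n1, _, n0, ?_, ?_⟩
    · ext <;> simp <;> ring
    · have : cr (ρ (mu * c) + s * (mu * c - a), mu * c - a)
          (ρ (mu * c) + s * (mu * c + a), mu * c + a) = 2 * a * ρ (mu * c) := by
        unfold cr; ring
      rw [this]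
      nlinarith [mul_le_mul_of_nonneg_left (show ρ (lam * c) - ρ (-c) ≤ 2 * ρ (mu * c) by
        linarith) a0.le]
  rcases le_total (ρ (lam * c)) (ρ c) with h | h
  · exact fin 1 (by norm_num) le_rfl (by rwa [one_mul]) (by rw [one_mul])
  · exact fin lam l1 l2 le_rfl h

theorem star_flat (hv : Convex ℝ K) (hs : ∀ x ∈ K, -x ∈ K)
    (Q : Prof (Prod.swap ⁻¹' K) (-H) H L R) {x0 h0 x1 h1 : ℝ}
    (m0 : (x0, h0) ∈ K) (m1 : (x1, h1) ∈ K) :
    ∃ A' ∈ K, ∃ C' ∈ K, A' - C' = (x1 - x0, h1 - h0) ∧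
      (x1 - x0) * (h1 + h0) - ∫ y in h0..h1, (R y + L y) ≤ 2 * cr A' C' := by
  rcases lt_trichotomy h1 h0 with h | h | h
  · exact star_down hv hs Q m0 m1 h
  · subst h
    refine ⟨_, m1, _, m0, by simp, le_of_eq ?_⟩
    unfold cr; simp; ring
  · have hs' : ∀ x ∈ Prod.swap ⁻¹' K, -x ∈ Prod.swap ⁻¹' K := fun x hx => hs _ hx
    obtain ⟨A, hA, C, hC, e, k⟩ := star_down hv hs Q (x0 := -x0) (h0 := -h0) (x1 := -x1)
      (h1 := -h1) (hs _ m0) (hs _ m1) (by linarith)
    have q0 := ((Q.mem (h0, x0)).1 m0).1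
    have q1 := ((Q.mem (h1, x1)).1 m1).1
    simp only at q0 q1
    refine ⟨-A, hs _ hA, -C, hs _ hC, ?_, ?_⟩
    · rw [show -A - -C = -(A - C) by abel, e]
      ext <;> simp <;> ring
    · have e2 : cr (-A) (-C) = cr A C := by unfold cr; simp
      have e3 : ∫ y in (-h0)..(-h1), (R y + L y) = ∫ y in h0..h1, (R y + L y) := by
        rw [← intervalIntegral.integral_comp_neg (a := h1) (b := h0) fun y => R y + L y,
          intervalIntegral.integral_symm h0 h1, ← intervalIntegral.integral_neg]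
        refine intervalIntegral.integral_congr fun y hy => ?_
        rw [uIcc_of_le h.le] at hy
        have b1 := Q.symm_lo hs' (x := y) (by linarith [hy.1]) (by linarith [hy.2])
        have b2 := Q.symm_lo hs' (x := -y) (by linarith [hy.2]) (by linarith [hy.1])
        simp only [b1, b2, neg_neg]
        ring
      rw [e2, ← e3]
      linarith

variable {w : ℝ} {l u : ℝ → ℝ}

theorem pot_seam_star0 (hc : IsCompact K) (hv : Convex ℝ K) (hs : ∀ x ∈ K, -x ∈ K)
    (P : Prof K (-w) w l u) {x0 h0 x1 h1 : ℝ} (m0 : (x0, h0) ∈ K) (m1 : (x1, h1) ∈ K) :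
    ∃ A' ∈ K, ∃ C' ∈ K, A' - C' = (x1 - x0, h1 - h0) ∧
      pot w l u x1 h1 0 - pot w l u x0 h0 0 ≤
        x1 * h1 - x0 * h0 - (x1 * h0 - h1 * x0) + 2 * cr A' C' := by
  have hv' : Convex ℝ (Prod.swap ⁻¹' K) := by
    intro a ha b hb s t hs ht hst
    exact hv ha hb hs ht hst
  have hs' : ∀ x ∈ Prod.swap ⁻¹' K, -x ∈ Prod.swap ⁻¹' K := fun x hx => hs _ hx
  obtain ⟨H, L, R, Q⟩ := exists_prof_symm (S := Prod.swap ⁻¹' K)
    ((Homeomorph.prodComm ℝ ℝ).isCompact_preimage.2 hc) hv' ⟨(h0, x0), m0⟩ hs'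
  obtain ⟨A, hA, C, hC, e, k⟩ := star_flat hv hs Q m0 m1
  refine ⟨A, hA, C, hC, e, ?_⟩
  rw [pot_flat hv P Q m0 m1]
  linarith

/-- The seam reward is realised by a parallel chord with the same difference vector. -/
theorem pot_seam_star (hc : IsCompact K) (hv : Convex ℝ K) (hs : ∀ x ∈ K, -x ∈ K)
    (P : Prof K (-w) w l u) {A C : ℝ × ℝ} (σ : ℝ) (hA : A ∈ K) (hC : C ∈ K) :
    ∃ A' ∈ K, ∃ C' ∈ K, A' - C' = A - C ∧
      pot w l u A.1 A.2 σ - pot w l u C.1 C.2 σ ≤
        A.1 * A.2 - C.1 * C.2 - cr A C + 2 * cr A' C' := by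
  let K' : Set (ℝ × ℝ) := (fun p : ℝ × ℝ => (p.1, p.2 - σ * p.1)) '' K
  have hm : ∀ p : ℝ × ℝ, p ∈ K' ↔ (p.1, p.2 + σ * p.1) ∈ K := by
    intro p
    constructor
    · rintro ⟨z, hz, rfl⟩; simpa using hz
    · intro h; exact ⟨_, h, by simp⟩
  have P' : Prof K' (-w) w (fun ξ => l ξ - σ * ξ) (fun ξ => u ξ - σ * ξ) := by
    have := P.clo
    have := P.chi
    refine ⟨P.le, by fun_prop, by fun_prop, fun p => ?_, fun x h1 h2 => ?_⟩
    · rw [hm, P.mem]
      simp only [sub_le_iff_le_add, le_sub_iff_add_le]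
    · linarith [P.lohi x h1 h2]
  obtain ⟨A', hA', C', hC', e, key⟩ := pot_seam_star0 (K := K') (hc.image (by fun_prop)) (by
      intro a ha b hb s t hs ht hst
      rw [hm] at ha hb ⊢
      have := hv ha hb hs ht hst
      convert this using 1
      ext <;> simp
      ring) (by
      intro a ha
      rw [hm] at ha ⊢
      have := hs _ ha
      convert this using 1
      ext <;> simp
      ring) P' (x0 := C.1) (h0 := C.2 - σ * C.1) (x1 := A.1) (h1 := A.2 - σ * A.1)
      ⟨C, hC, rfl⟩ ⟨A, hA, rfl⟩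
  have e1 : A'.1 - C'.1 = A.1 - C.1 := congrArg Prod.fst e
  have e2 : A'.2 - C'.2 = A.2 - σ * A.1 - (C.2 - σ * C.1) := congrArg Prod.snd e
  refine ⟨_, (hm _).1 hA', _, (hm _).1 hC', ?_, ?_⟩
  · ext
    · exact e1
    · simp only [Prod.snd_sub]
      linear_combination e2 + σ * e1
  · rw [pot_shear P.clo P.chi A.1, pot_shear P.clo P.chi C.1]
    unfold cr at key ⊢
    simp only at key ⊢
    linarith

end Pool.Agent.MP_cab9bb_co

end
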