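import Pool.Agent.Mg.Fcab9bb.G3e73cd
import Pool.Agent.Mg.Fcab9bb.Ge8321a

set_option autoImplicit false

open MeasureTheory Set

namespace Pool.Agent.MP_cab9bb_co

/-- the area bound for a body whose largest inscribed parallelogram is the square -/
def AreaB : Prop :=
  ∀ K : Set (ℝ × ℝ), IsCompact K → Convex ℝ K → (∀ x ∈ K, -x ∈ K) → ((1, 1) : ℝ × ℝ) ∈ K →
    ((-1, 1) : ℝ × ℝ) ∈ K → (∀ a ∈ K, ∀ b ∈ K, cr a b ≤ 2) → ∀ V t : ℝ,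
    volume K = ENNReal.ofReal V → (∀ a ∈ K, ∀ b ∈ K, ∀ c ∈ K, cr (b - a) (c - a) ≤ 2 * t) →
    ∀ w : ℝ, 0 ≤ w → w ≤ 1 → V ≤ 4 + 8 * (t - 2) - 4 * (t - 2) * w + w ^ 3 / 3

theorem cr_lin (u v a b : ℝ × ℝ) : cr (lin u v a) (lin u v b) = cr u v * cr a b := by
  simp only [lin_apply, cr, Prod.fst_add, Prod.snd_add, Prod.smul_fst, Prod.smul_snd, smul_eq_mul]
  ring

theorem exists_normal {K : Set (ℝ × ℝ)} (hc : IsCompact K) (hne : K.Nonempty) :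
    (∀ a ∈ K, ∀ b ∈ K, cr a b ≤ 0) ∨ ∃ u v : ℝ × ℝ, 0 < cr u v ∧ ((1, 1) : ℝ × ℝ) ∈ lin u v '' K ∧
      ((-1, 1) : ℝ × ℝ) ∈ lin u v '' K ∧ ∀ a ∈ lin u v '' K, ∀ b ∈ lin u v '' K, cr a b ≤ 2 := by
  obtain ⟨⟨p, q⟩, hp, hmax⟩ := (hc.prod hc).exists_isMaxOn (f := fun z => cr z.1 z.2)
    (hne.prod hne) (by unfold cr; fun_prop)
  have hm : ∀ a ∈ K, ∀ b ∈ K, cr a b ≤ cr p q := fun a ha b hb => hmax (a := (a, b)) ⟨ha, hb⟩
  rcases le_or_gt (cr p q) 0 with h | h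
  · exact Or.inl fun a ha b hb => (hm a ha b hb).trans h
  · obtain ⟨d, hd⟩ : ∃ d, d = cr p q := ⟨_, rfl⟩
    rw [← hd] at h hm
    have h' := h.ne'
    have hcr : cr ((p.2 + q.2) / d, (q.2 - p.2) / d) (-(p.1 + q.1) / d, (p.1 - q.1) / d) = 2 / d := by
      simp only [cr] at hd ⊢
      field_simp
      rw [hd]; ring
    refine Or.inr ⟨((p.2 + q.2) / d, (q.2 - p.2) / d), (-(p.1 + q.1) / d, (p.1 - q.1) / d),
      by rw [hcr]; positivity, ⟨p, hp.1, ?_⟩, ⟨q, hp.2, ?_⟩, ?_⟩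
    · rw [lin_apply]
      simp only [cr] at hd
      ext <;> simp only [Prod.fst_add, Prod.snd_add, Prod.smul_fst, Prod.smul_snd, smul_eq_mul] <;>
        field_simp <;> rw [hd] <;> ring
    · rw [lin_apply]
      simp only [cr] at hd
      ext <;> simp only [Prod.fst_add, Prod.snd_add, Prod.smul_fst, Prod.smul_snd, smul_eq_mul] <;>
        field_simp <;> rw [hd] <;> ring
    · rintro _ ⟨a, ha, rfl⟩ _ ⟨b, hb, rfl⟩
      rw [cr_lin, hcr, div_mul_eq_mul_div, div_le_iff₀ h]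
      linarith [hm a ha b hb]

theorem near_abs {a a' c c' : ℝ} (a0 : 0 ≤ a) (a0' : 0 ≤ a') (c0 : 0 ≤ c) (c0' : 0 ≤ c')
    (a2 : a ≤ 2) (a2' : a' ≤ 2) (c2 : c ≤ 2) (c2' : c' ≤ 2) (sa : a + a' ≤ 2.071)
    (sc : c + c' ≤ 2.071) (h : 3.98 ≤ a * c + a' * c') :
    (1.85 ≤ a ∧ 1.85 ≤ c) ∨ (1.85 ≤ a' ∧ 1.85 ≤ c') := by
  rcases le_total a' a with p | p
  · have hc : 1.85 ≤ c := by
      by_contra hc
      push Not at hc
      nlinarith [mul_nonneg (sub_nonneg.2 p) (sub_nonneg.2 hc.le),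
        mul_nonneg a0' (sub_nonneg.2 sc)]
    refine Or.inl ⟨?_, hc⟩
    by_contra ha
    push Not at ha
    nlinarith [mul_nonneg (show 0 ≤ c - c' by linarith) (sub_nonneg.2 ha.le),
      mul_nonneg c0' (sub_nonneg.2 sa)]
  · have hc : 1.85 ≤ c' := by
      by_contra hc
      push Not at hc
      nlinarith [mul_nonneg (sub_nonneg.2 p) (sub_nonneg.2 hc.le),
        mul_nonneg a0 (sub_nonneg.2 sc)]
    refine Or.inr ⟨?_, hc⟩
    by_contra ha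
    push Not at ha
    nlinarith [mul_nonneg (show 0 ≤ c' - c by linarith) (sub_nonneg.2 ha.le),
      mul_nonneg c0 (sub_nonneg.2 sa)]

section normal
variable {K : Set (ℝ × ℝ)} {V t : ℝ}

theorem near_pair (hs : ∀ x ∈ K, -x ∈ K) (k1 : ((1, 1) : ℝ × ℝ) ∈ K) (k2 : ((-1, 1) : ℝ × ℝ) ∈ K)
    (hq : ∀ a ∈ K, ∀ b ∈ K, cr a b ≤ 2)
    (ht : ∀ a ∈ K, ∀ b ∈ K, ∀ c ∈ K, cr (b - a) (c - a) ≤ 2 * t) (he : t - 2 ≤ 9 / 256)
    {A C : ℝ × ℝ} (hA : A ∈ K) (hC : C ∈ K) (h : 2 - 1 / 192 ≤ cr A C) :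
    (1.62 ≤ (A.1 + A.2) - (C.1 + C.2) ∧ (A.1 + A.2) - (C.1 + C.2) ≤ 2.23) ∨
      (-2.23 ≤ (A.1 + A.2) - (C.1 + C.2) ∧ (A.1 + A.2) - (C.1 + C.2) ≤ -1.62) := by
  have box : ∀ Z ∈ K, |Z.1 + Z.2| ≤ 2 ∧ |Z.1 - Z.2| ≤ 2 ∧ |Z.1 + Z.2| + |Z.1 - Z.2| ≤ 2.071 := by
    intro Z hZ
    have b1 := hq _ k1 _ hZ
    have b2 := hq _ hZ _ k1
    have b3 := hq _ k2 _ hZ
    have b4 := hq _ hZ _ k2
    have b5 := ht _ (hs _ k1) _ (hs _ k2) _ hZ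
    have b6 := ht _ k1 _ k2 _ hZ
    have b7 := ht _ k2 _ (hs _ k1) _ hZ
    have b8 := ht _ (hs _ k2) _ k1 _ hZ
    simp only [cr, Prod.fst_sub, Prod.snd_sub, Prod.fst_neg, Prod.snd_neg] at *
    refine ⟨abs_le.2 ⟨by linarith, by linarith⟩, abs_le.2 ⟨by linarith, by linarith⟩, ?_⟩
    rcases abs_cases (Z.1 + Z.2) with p | p <;> rcases abs_cases (Z.1 - Z.2) with q | q <;>
      rw [p.1, q.1] <;> norm_num <;> linarith
  obtain ⟨a1, a2, a3⟩ := box A hA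
  obtain ⟨c1, c2, c3⟩ := box C hC
  have key := near_abs (abs_nonneg (A.1 - A.2)) (abs_nonneg (A.1 + A.2)) (abs_nonneg (C.1 + C.2))
    (abs_nonneg (C.1 - C.2)) a2 a1 c1 c2 (by linarith) c3 (by
      rw [← abs_mul, ← abs_mul]
      have := le_abs_self ((A.1 - A.2) * (C.1 + C.2))
      have := neg_abs_le ((A.1 + A.2) * (C.1 - C.2))
      simp only [cr] at h
      rw [show (3.98 : ℝ) = 199 / 50 by norm_num]
      linarith)
  norm_num at key a3 c3 ⊢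
  rcases abs_cases (A.1 + A.2) with p | p <;> rcases abs_cases (C.1 + C.2) with q | q <;>
    rcases key with ⟨r1, r2⟩ | ⟨r1, r2⟩
  · right; constructor <;> linarith [p.1, q.1, p.2, q.2]
  · left; constructor <;> linarith [p.1, q.1, p.2, q.2]
  · left; constructor <;> linarith [p.1, q.1, p.2, q.2]
  · left; constructor <;> linarith [p.1, q.1, p.2, q.2]
  · right; constructor <;> linarith [p.1, q.1, p.2, q.2]
  · right; constructor <;> linarith [p.1, q.1, p.2, q.2]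
  · left; constructor <;> linarith [p.1, q.1, p.2, q.2]
  · right; constructor <;> linarith [p.1, q.1, p.2, q.2]

theorem M5_normal (hs : ∀ x ∈ K, -x ∈ K) (k1 : ((1, 1) : ℝ × ℝ) ∈ K) (k2 : ((-1, 1) : ℝ × ℝ) ∈ K)
    (hq : ∀ a ∈ K, ∀ b ∈ K, cr a b ≤ 2)
    (ht : ∀ a ∈ K, ∀ b ∈ K, ∀ c ∈ K, cr (b - a) (c - a) ≤ 2 * t)
    (hV : ∀ w : ℝ, 0 ≤ w → w ≤ 1 → V ≤ 4 + 8 * (t - 2) - 4 * (t - 2) * w + w ^ 3 / 3) :
    M5 K V t := by
  intro A1 hA1 C1 hC1 A2 hA2 C2 hC2 A3 hA3 C3 hC3 A4 hA4 C4 hC4 A5 hA5 C5 hC5 h0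
  by_contra hlt
  push Not at hlt
  have v1 := hV (1 / 4) (by norm_num) (by norm_num)
  have v2 := hV (3 / 8) (by norm_num) (by norm_num)
  have q1 := hq _ hA1 _ hC1
  have q2 := hq _ hA2 _ hC2
  have q3 := hq _ hA3 _ hC3
  have q4 := hq _ hA4 _ hC4
  have q5 := hq _ hA5 _ hC5
  have he : t - 2 ≤ 9 / 256 := by linarith
  have s1 := congrArg Prod.fst h0
  have s2 := congrArg Prod.snd h0
  simp only [Prod.fst_add, Prod.snd_add, Prod.fst_sub, Prod.snd_sub, Prod.fst_zero,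
    Prod.snd_zero] at s1 s2
  rcases near_pair hs k1 k2 hq ht he hA1 hC1 (by linarith) with n1 | n1 <;>
  rcases near_pair hs k1 k2 hq ht he hA2 hC2 (by linarith) with n2 | n2 <;>
  rcases near_pair hs k1 k2 hq ht he hA3 hC3 (by linarith) with n3 | n3 <;>
  rcases near_pair hs k1 k2 hq ht he hA4 hC4 (by linarith) with n4 | n4 <;>
  rcases near_pair hs k1 k2 hq ht he hA5 hC5 (by linarith) with n5 | n5 <;>
  norm_num at n1 n2 n3 n4 n5 <;>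
  linarith [n1.1, n1.2, n2.1, n2.2, n3.1, n3.2, n4.1, n4.2, n5.1, n5.2]

theorem M3_two (ht : ∀ a ∈ K, ∀ b ∈ K, ∀ c ∈ K, cr (b - a) (c - a) ≤ 2 * t) {q : ℝ}
    (hq : ∀ a ∈ K, ∀ b ∈ K, cr a b ≤ q) (hV : 2 * V + 3 * q ≤ 8 * t) : M3 K V t := by
  intro A1 hA1 C1 hC1 A2 hA2 C2 hC2 A3 hA3 C3 hC3 h0
  have q1 := hq _ hA1 _ hC1
  have q2 := hq _ hA2 _ hC2
  have q3 := hq _ hA3 _ hC3
  have t1 := ht _ hA2 _ hA1 _ hC1
  have t2 := ht _ hC3 _ hC2 _ hA3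
  have e : C3 = A3 + (A1 - C1) + (A2 - C2) := by
    rw [← sub_eq_zero, ← neg_eq_zero, ← h0]; abel
  subst e
  simp only [cr, Prod.fst_add, Prod.snd_add, Prod.fst_sub, Prod.snd_sub] at *
  linarith

end normal

theorem M35 (hA : AreaB) {K : Set (ℝ × ℝ)} (hc : IsCompact K) (hv : Convex ℝ K)
    (hs : ∀ x ∈ K, -x ∈ K) (hne : K.Nonempty) {V t : ℝ} (hV : volume K = ENNReal.ofReal V)
    (ht : ∀ a ∈ K, ∀ b ∈ K, ∀ c ∈ K, cr (b - a) (c - a) ≤ 2 * t) : M3 K V t ∧ M5 K V t := by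
  have t0 : 0 ≤ t := by
    obtain ⟨a, m⟩ := hne
    have := ht _ m _ m _ m
    simp only [cr, sub_self, Prod.fst_zero, Prod.snd_zero] at this
    linarith
  rcases exists_normal hc hne with h | ⟨u, v, hd, k1, k2, hq⟩
  · have h4 := vol_le_four hc hv t0 ht
    rw [hV, ENNReal.ofReal_le_ofReal_iff (by linarith)] at h4
    refine ⟨M3_two ht h (by linarith), ?_⟩
    intro A1 hA1 C1 hC1 A2 hA2 C2 hC2 A3 hA3 C3 hC3 A4 hA4 C4 hC4 A5 hA5 C5 hC5 _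
    linarith [h _ hA1 _ hC1, h _ hA2 _ hC2, h _ hA3 _ hC3, h _ hA4 _ hC4, h _ hA5 _ hC5]
  · have hs' : ∀ x ∈ lin u v '' K, -x ∈ lin u v '' K := by
      rintro _ ⟨a, ha, rfl⟩; exact ⟨-a, hs a ha, map_neg _ _⟩
    have ht' : ∀ a ∈ lin u v '' K, ∀ b ∈ lin u v '' K, ∀ c ∈ lin u v '' K,
        cr (b - a) (c - a) ≤ 2 * (cr u v * t) := by
      rintro _ ⟨a, ha, rfl⟩ _ ⟨b, hb, rfl⟩ _ ⟨c, hc, rfl⟩
      rw [← map_sub, ← map_sub, cr_lin]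
      nlinarith [ht a ha b hb c hc]
    have hV' := hA _ (hc.image (lin u v).continuous_of_finiteDimensional) (hv.linear_image _) hs'
      k1 k2 hq (cr u v * V) (cr u v * t)
      (by rw [volume_image_lin, hV, abs_of_pos hd, ENNReal.ofReal_mul hd.le]) ht'
    have t2 : 2 ≤ cr u v * t := by
      have := ht' _ (hs' _ k1) _ (hs' _ k2) _ k1
      simp only [cr, Prod.fst_sub, Prod.snd_sub, Prod.fst_neg, Prod.snd_neg] at this ⊢
      linarith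
    have m3 : M3 (lin u v '' K) (cr u v * V) (cr u v * t) :=
      M3_two ht' hq (by linarith [hV' 1 zero_le_one le_rfl])
    have m5 := M5_normal hs' k1 k2 hq ht' hV'
    constructor
    · intro A1 hA1 C1 hC1 A2 hA2 C2 hC2 A3 hA3 C3 hC3 h0
      have := m3 _ ⟨_, hA1, rfl⟩ _ ⟨_, hC1, rfl⟩ _ ⟨_, hA2, rfl⟩ _ ⟨_, hC2, rfl⟩ _ ⟨_, hA3, rfl⟩
        _ ⟨_, hC3, rfl⟩ (by simp only [← map_sub, ← map_add, h0, map_zero])
      simp only [← map_sub, cr_lin] at this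
      by_contra hlt
      push Not at hlt
      nlinarith
    · intro A1 hA1 C1 hC1 A2 hA2 C2 hC2 A3 hA3 C3 hC3 A4 hA4 C4 hC4 A5 hA5 C5 hC5 h0
      have := m5 _ ⟨_, hA1, rfl⟩ _ ⟨_, hC1, rfl⟩ _ ⟨_, hA2, rfl⟩ _ ⟨_, hC2, rfl⟩ _ ⟨_, hA3, rfl⟩
        _ ⟨_, hC3, rfl⟩ _ ⟨_, hA4, rfl⟩ _ ⟨_, hC4, rfl⟩ _ ⟨_, hA5, rfl⟩ _ ⟨_, hC5, rfl⟩
        (by simp only [← map_sub, ← map_add, h0, map_zero])
      simp only [cr_lin] at this
      by_contra hlt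
      push Not at hlt
      nlinarith

theorem finiteIneq_of (hA : AreaB) : FiniteIneq := by
  intro K hc hv hi hs t ht k hk C hCc hC hCi b _ hcov
  have hne : K.Nonempty := hi.mono interior_subset
  obtain ⟨w, l, u, P⟩ := exists_prof_symm hc hv hne hs
  have m := M35 hA hc hv hs hne P.vol ht
  exact core_all hc hv hs P ht (fun A hA C hC σ _ _ => pot_seam_star hc hv hs P σ hA hC) m.1 m.2
    hk hCc hC (hCi.mono interior_subset) hcov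

end Pool.Agent.MP_cab9bb_co
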